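import Pool.Agent.H527.WS.Stm

/-!
# Few linearly independent elements of `W` (helper200, for helper527, MP_3b0be2_nt)
-/

set_option autoImplicit false

namespace Pool.Agent.H527.WS

open Polynomial
open scoped Classical

noncomputable section

namespace IndAux

theorem mem_V {K : Type} [Field K] [Fintype K] (n : ℕ) (x : K[X]) : x ∈ V K n ↔ x.degree < n := by
  constructor
  · intro hx
    obtain ⟨c, -, rfl⟩ := Finset.mem_image.1 hx
    exact degree_sum_fin_lt c
  · intro hx
    refine Finset.mem_image.2 ⟨fun i => x.coeff i, Finset.mem_univ _, ?_⟩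
    have h1 : (∑ i : Fin n, C (x.coeff (i : ℕ)) * X ^ (i : ℕ) : K[X]) =
        ∑ i ∈ Finset.range n, C (x.coeff i) * X ^ i :=
      Fin.sum_univ_eq_sum_range (fun i => (C (x.coeff i) * X ^ i : K[X])) n
    show (∑ i : Fin n, C (x.coeff (i : ℕ)) * X ^ (i : ℕ) : K[X]) = x
    rw [h1]
    ext k
    rw [finsetSum_coeff]
    simp only [coeff_C_mul_X_pow]
    rw [Finset.sum_ite_eq]
    by_cases hk : k < n
    · rw [if_pos (Finset.mem_range.2 hk)]
    · rw [if_neg (by rw [Finset.mem_range]; exact hk)]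
      refine (coeff_eq_zero_of_degree_lt (lt_of_lt_of_le hx ?_)).symm
      exact_mod_cast (not_lt.1 hk)

theorem card_V_le (K : Type) [Field K] [Fintype K] (n : ℕ) : (V K n).card ≤ Fintype.card K ^ n := by
  refine le_trans Finset.card_image_le ?_
  rw [Finset.card_univ, Fintype.card_fun, Fintype.card_fin]

theorem pow_eq {K : Type} [Field K] (p j : ℕ) [Fact p.Prime] [CharP K p] (g : K[X]) :
    g ^ (p ^ j) = (expand K (p ^ j) g).map (iterateFrobenius K p j) :=
  (map_iterateFrobenius_expand p g j).symm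

/-- The polynomials `X ^ t`, `t < Q`, are independent over the `Q`-th powers. -/
theorem lemA {K : Type} [Field K] (p j : ℕ) [Fact p.Prime] [CharP K p] (g : Fin (p ^ j) → K[X])
    (h : ∑ t : Fin (p ^ j), X ^ (t : ℕ) * (g t) ^ (p ^ j) = 0) (t : Fin (p ^ j)) : g t = 0 := by
  have hQ : 0 < p ^ j := pow_pos (Fact.out : p.Prime).pos _
  ext a
  rw [coeff_zero]
  have h1 : (∑ s : Fin (p ^ j), X ^ (s : ℕ) * (g s) ^ (p ^ j)).coeff (p ^ j * a + t) = 0 := by
    rw [h, coeff_zero]
  rw [finsetSum_coeff] at h1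
  have h2 : ∀ s : Fin (p ^ j), s ≠ t → (X ^ (s : ℕ) * (g s) ^ (p ^ j)).coeff (p ^ j * a + t) = 0 := by
    intro s hs
    rw [coeff_X_pow_mul', pow_eq p j (g s)]
    split_ifs with hle
    · rw [coeff_map, coeff_expand hQ, if_neg, map_zero]
      intro hd
      apply hs
      apply Fin.ext
      obtain ⟨b, hb⟩ := hd
      have hs1 := s.isLt
      have ht1 := t.isLt
      have h3 : p ^ j * a + (t : ℕ) = p ^ j * b + (s : ℕ) := by omega
      have h4 : (p ^ j * a + (t : ℕ)) % (p ^ j) = (p ^ j * b + (s : ℕ)) % (p ^ j) := by rw [h3]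
      rw [Nat.mul_add_mod, Nat.mul_add_mod, Nat.mod_eq_of_lt ht1, Nat.mod_eq_of_lt hs1] at h4
      exact h4.symm
    · rfl
  rw [Finset.sum_eq_single t (fun s _ hs => h2 s hs) (fun ht => absurd (Finset.mem_univ t) ht)] at h1
  rw [coeff_X_pow_mul', if_pos (Nat.le_add_left _ _), Nat.add_sub_cancel, pow_eq p j (g t), coeff_map,
    coeff_expand hQ, if_pos (Dvd.intro _ rfl), Nat.mul_div_cancel_left _ hQ, iterateFrobenius_def] at h1
  exact pow_eq_zero_iff (pow_pos (Fact.out : p.Prime).pos _).ne' |>.1 h1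

theorem deg_lt_iff {K : Type} [Field K] (x : K[X]) (n : ℕ) : x.degree < n ↔ x = 0 ∨ x.natDegree < n := by
  constructor
  · intro h
    by_cases hx : x = 0
    · exact Or.inl hx
    · right
      exact (natDegree_lt_iff_degree_lt hx).2 h
  · rintro (h | h)
    · rw [h, degree_zero]
      exact WithBot.bot_lt_coe n
    · exact lt_of_le_of_lt degree_le_natDegree (by exact_mod_cast h)

theorem sum_deg_lt {K : Type} [Field K] {ι : Type} (s : Finset ι) (f : ι → K[X]) (n : ℕ)
    (h : ∀ i ∈ s, (f i).degree < n) : (∑ i ∈ s, f i).degree < n := by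
  have h1 : ∀ i ∈ s, f i ∈ degreeLT K n := fun i hi => mem_degreeLT.2 (h i hi)
  exact mem_degreeLT.1 (Submodule.sum_mem _ h1)

/-- degree of a product `x * y ^ r`. -/
theorem mul_pow_deg {K : Type} [Field K] (x y : K[X]) (M m r N : ℕ) (hx : x.degree < M) (hy : y.degree < m)
    (hr : 0 < r) (hN : M + r * m ≤ N) : (x * y ^ r).degree < N := by
  rw [deg_lt_iff] at *
  rcases hx with hx | hx
  · left
    rw [hx, zero_mul]
  · rcases hy with hy | hy
    · left
      rw [hy, zero_pow hr.ne', mul_zero]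
    · right
      refine lt_of_le_of_lt natDegree_mul_le ?_
      have h1 : (y ^ r).natDegree ≤ r * y.natDegree := natDegree_pow_le
      have h2 : r * y.natDegree ≤ r * m := Nat.mul_le_mul_left _ hy.le
      omega

/-- One level of parameters. -/
def Phi {K : Type} [Field K] (Q : ℕ) (e : Fin Q → K[X]) : K[X] := ∑ t : Fin Q, X ^ (t : ℕ) * (e t) ^ (Q ^ 2)

theorem Phi_sub {K : Type} [Field K] (p j : ℕ) [Fact p.Prime] [CharP K p] (e f : Fin (p ^ j) → K[X]) :
    Phi (p ^ j) e - Phi (p ^ j) f = Phi (p ^ j) (fun t => e t - f t) := by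
  unfold Phi
  rw [← Finset.sum_sub_distrib]
  refine Finset.sum_congr rfl fun t _ => ?_
  rw [← pow_mul, sub_pow_char_pow, mul_sub]

theorem Phi_zero {K : Type} [Field K] (p j : ℕ) [Fact p.Prime] [CharP K p] (e : Fin (p ^ j) → K[X])
    (h : Phi (p ^ j) e = 0) : ∀ t, e t = 0 := by
  intro t
  have h1 : ∑ t : Fin (p ^ j), X ^ (t : ℕ) * ((fun t => (e t) ^ (p ^ j)) t) ^ (p ^ j) = (0 : K[X]) := by
    rw [← h]
    unfold Phi
    refine Finset.sum_congr rfl fun t _ => ?_
    rw [← pow_mul, sq]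
  have h2 := lemA p j (fun t => (e t) ^ (p ^ j)) h1 t
  exact pow_eq_zero_iff (pow_pos (Fact.out : p.Prime).pos _).ne' |>.1 h2

theorem Phi_inj {K : Type} [Field K] (p j : ℕ) [Fact p.Prime] [CharP K p] :
    Function.Injective (Phi (K := K) (p ^ j)) := by
  intro e f h
  funext t
  have h1 : Phi (p ^ j) (fun t => e t - f t) = 0 := by rw [← Phi_sub, h, sub_self]
  exact sub_eq_zero.1 (Phi_zero p j _ h1 t)

theorem Phi_deg {K : Type} [Field K] (Q : ℕ) (hQ : 0 < Q) (e : Fin Q → K[X]) (N : ℕ) (h : ∀ t, (e t).degree < N) :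
    (Phi Q e).degree < (Q ^ 2 * N : ℕ) := by
  unfold Phi
  refine sum_deg_lt _ _ _ fun t _ => ?_
  have h1 := h t
  rw [deg_lt_iff] at *
  have hQ2 : 0 < Q ^ 2 := pow_pos hQ 2
  rcases h1 with h1 | h1
  · left
    rw [h1, zero_pow hQ2.ne', mul_zero]
  · right
    refine lt_of_le_of_lt natDegree_mul_le ?_
    have h2 : ((e t) ^ (Q ^ 2)).natDegree ≤ Q ^ 2 * (e t).natDegree := natDegree_pow_le
    have h3 : (X ^ (t : ℕ) : K[X]).natDegree = (t : ℕ) := natDegree_X_pow _
    have h4 : Q ^ 2 * ((e t).natDegree + 1) ≤ Q ^ 2 * N := Nat.mul_le_mul_left _ h1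
    have h5 := t.isLt
    have h6 : Q ≤ Q ^ 2 := by nlinarith
    rw [h3]
    rw [mul_add, mul_one] at h4
    omega

theorem main (hr : S_rel) (K : Type) [Field K] [Fintype K] (ψ : AddChar K ℂ) (p j m n D l : ℕ) (A : K[X] →ₗ[K] K)
    (hp : Fact p.Prime) (hc : CharP K p) (hj : 1 ≤ j) (hψ : ψ ≠ 1) (hN : Nonsing A D)
    (h1 : p ^ j * m + (p ^ j) ^ (2 * l) ≤ D) (h2 : D + (p ^ j) ^ (2 * l) ≤ n) (s : ℕ) (h : Fin s → K[X])
    (hW : ∀ i, h i ∈ W ψ (p ^ j) A m n) (hli : LinearIndependent K h) (l' : ℕ) (hl' : l' ≤ l) :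
    ∃ P : Finset K[X], (∀ x ∈ P, ∀ y ∈ P, x - y ∈ P) ∧ P.card = Fintype.card K ^ ((p ^ j) ^ l') ∧
      (∀ x ∈ P, x.degree < ((p ^ j) ^ (2 * l') : ℕ)) ∧
      ∀ c : Fin s → K[X], (∀ i, c i ∈ P) → ∑ i, (c i) ^ (p ^ j) * h i = 0 → ∀ i, c i = 0 := by
  have hQ : 0 < p ^ j := pow_pos hp.out.pos _
  induction l' with
  | zero =>
    refine ⟨Finset.univ.image C, ?_, ?_, ?_, ?_⟩
    · intro x hx y hy
      obtain ⟨a, -, rfl⟩ := Finset.mem_image.1 hx
      obtain ⟨b, -, rfl⟩ := Finset.mem_image.1 hy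
      exact Finset.mem_image.2 ⟨a - b, Finset.mem_univ _, by rw [C_sub]⟩
    · rw [Finset.card_image_of_injective _ C_injective, Finset.card_univ, pow_zero, pow_one]
    · intro x hx
      obtain ⟨a, -, rfl⟩ := Finset.mem_image.1 hx
      rw [mul_zero, pow_zero]
      exact lt_of_le_of_lt degree_C_le (by exact_mod_cast Nat.zero_lt_one)
    · intro c hcP hsum
      have h3 : ∀ i, ∃ a : K, C a = c i := fun i => by
        obtain ⟨a, -, ha⟩ := Finset.mem_image.1 (hcP i)
        exact ⟨a, ha⟩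
      choose a ha using h3
      have h4 : ∑ i, (a i) ^ (p ^ j) • h i = 0 := by
        rw [← hsum]
        refine Finset.sum_congr rfl fun i _ => ?_
        rw [← ha i, ← C_pow, smul_eq_C_mul]
      intro i
      have h5 := Fintype.linearIndependent_iff.1 hli _ h4 i
      have h6 : a i = 0 := pow_eq_zero_iff hQ.ne' |>.1 h5
      rw [← ha i, h6, C_0]
  | succ l' ih =>
    obtain ⟨P, hP1, hP2, hP3, hP4⟩ := ih (by omega)
    refine ⟨(Fintype.piFinset (fun _ : Fin (p ^ j) => P)).image (Phi (p ^ j)), ?_, ?_, ?_, ?_⟩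
    · intro x hx y hy
      obtain ⟨e, he, rfl⟩ := Finset.mem_image.1 hx
      obtain ⟨f, hf, rfl⟩ := Finset.mem_image.1 hy
      rw [Fintype.mem_piFinset] at he hf
      rw [Phi_sub]
      refine Finset.mem_image.2 ⟨_, ?_, rfl⟩
      rw [Fintype.mem_piFinset]
      exact fun t => hP1 _ (he t) _ (hf t)
    · rw [Finset.card_image_of_injective _ (Phi_inj p j), Fintype.card_piFinset_const, hP2, ← pow_mul, ← pow_succ]
    · intro x hx
      obtain ⟨e, he, rfl⟩ := Finset.mem_image.1 hx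
      rw [Fintype.mem_piFinset] at he
      have h3 := Phi_deg (p ^ j) hQ e ((p ^ j) ^ (2 * l')) (fun t => hP3 _ (he t))
      have h4 : (p ^ j) ^ 2 * (p ^ j) ^ (2 * l') = (p ^ j) ^ (2 * (l' + 1)) := by
        rw [← pow_add]
        congr 1
        ring
      rw [h4] at h3
      exact h3
    · intro c hcP hsum
      have h3 : ∀ i, ∃ e : Fin (p ^ j) → K[X], (∀ t, e t ∈ P) ∧ Phi (p ^ j) e = c i := fun i => by
        obtain ⟨e, he, hei⟩ := Finset.mem_image.1 (hcP i)
        rw [Fintype.mem_piFinset] at he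
        exact ⟨e, he, hei⟩
      choose e he hec using h3
      set M := (p ^ j) ^ (2 * (l' + 1)) with hM
      have hMl : M ≤ (p ^ j) ^ (2 * l) := Nat.pow_le_pow_right hQ (by omega)
      have hcM : ∀ i, (c i).degree < (M : ℕ) := by
        intro i
        rw [← hec i]
        have h3 := Phi_deg (p ^ j) hQ (e i) ((p ^ j) ^ (2 * l')) (fun t => hP3 _ (he i t))
        have h4 : (p ^ j) ^ 2 * (p ^ j) ^ (2 * l') = M := by
          rw [hM, ← pow_add]
          congr 1
          ring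
        rw [h4] at h3
        exact h3
      have hrel := hr K ψ (p ^ j) m n M A ⟨p, j, hp.out, hc, hj, rfl⟩ hψ (by omega) s h c hW
        (fun i => (mem_V M (c i)).2 (hcM i)) hsum
      have hG : ∑ i, c i * h i ^ (p ^ j) = 0 := by
        refine hN _ ?_ ?_
        · rw [mem_V]
          refine sum_deg_lt _ _ _ fun i _ => ?_
          have h5 : (h i).degree < m := (mem_V m (h i)).1 (Finset.mem_filter.1 (hW i)).1
          exact mul_pow_deg _ _ M m (p ^ j) D (hcM i) h5 hQ (by omega)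
        · intro y hy
          refine hrel y ?_
          rw [mem_V] at hy ⊢
          refine lt_of_lt_of_le hy ?_
          have h6 : D ≤ n - M := by omega
          exact_mod_cast h6
      have hG2 : ∑ t : Fin (p ^ j), X ^ (t : ℕ) *
          ((fun t => ∑ i, (e i t) ^ (p ^ j) * h i) t) ^ (p ^ j) = 0 := by
        rw [← hG]
        have h7 : ∀ t : Fin (p ^ j), (X ^ (t : ℕ) * ((fun t => ∑ i, (e i t) ^ (p ^ j) * h i) t) ^ (p ^ j) : K[X]) =
            ∑ i, X ^ (t : ℕ) * (e i t) ^ ((p ^ j) ^ 2) * (h i) ^ (p ^ j) := by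
          intro t
          show X ^ (t : ℕ) * (∑ i, (e i t) ^ (p ^ j) * h i) ^ (p ^ j) = _
          rw [sum_pow_char_pow p, Finset.mul_sum]
          refine Finset.sum_congr rfl fun i _ => ?_
          rw [mul_pow, ← pow_mul, ← sq, mul_assoc]
        rw [Finset.sum_congr rfl (fun t _ => h7 t), Finset.sum_comm]
        refine Finset.sum_congr rfl fun i _ => ?_
        rw [← hec i]
        unfold Phi
        rw [Finset.sum_mul]
      intro i
      rw [← hec i]
      unfold Phi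
      refine Finset.sum_eq_zero fun t _ => ?_
      have h8 := lemA p j _ hG2 t
      have h9 := hP4 (fun i => e i t) (fun i => he i t) h8 i
      have h10 : e i t = 0 := h9
      rw [h10, zero_pow (pow_pos hQ 2).ne', mul_zero]

end IndAux

open IndAux in
/-- **W5.** -/
theorem ind (hr : S_rel) : S_ind := by
  intro K _ _ ψ Q m n D l A hPQ hψ hN h1 h2 s h hW hli
  obtain ⟨p, j, hp, hc, hj, rfl⟩ := hPQ
  have : Fact p.Prime := ⟨hp⟩
  have := hc
  have hQ : 0 < p ^ j := pow_pos hp.pos _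
  obtain ⟨P, hP1, hP2, hP3, hP4⟩ := main hr K ψ p j m n D l A ⟨hp⟩ hc hj hψ hN h1 h2 s h hW hli l le_rfl
  have hcard : (Fintype.piFinset (fun _ : Fin s => P)).card ≤ (V K (m + (p ^ j) ^ (2 * l + 1))).card := by
    refine Finset.card_le_card_of_injOn (fun c => ∑ i, (c i) ^ (p ^ j) * h i) ?_ ?_
    · intro c hcP
      rw [Finset.mem_coe, Fintype.mem_piFinset] at hcP
      show ∑ i, (c i) ^ (p ^ j) * h i ∈ (V K (m + (p ^ j) ^ (2 * l + 1)))
      rw [mem_V]
      refine sum_deg_lt _ _ _ fun i _ => ?_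
      have h5 : (h i).degree < m := (mem_V m (h i)).1 (Finset.mem_filter.1 (hW i)).1
      rw [mul_comm]
      refine mul_pow_deg _ _ m ((p ^ j) ^ (2 * l)) (p ^ j) _ h5 (hP3 _ (hcP i)) hQ ?_
      rw [pow_succ, mul_comm (p ^ j)]
    · intro c hcP d hdP hcd
      rw [Finset.mem_coe, Fintype.mem_piFinset] at hcP hdP
      have hcd1 : ∑ i, (c i) ^ (p ^ j) * h i = ∑ i, (d i) ^ (p ^ j) * h i := hcd
      have h3 : ∑ i, ((fun i => c i - d i) i) ^ (p ^ j) * h i = 0 := by
        rw [← sub_eq_zero.2 hcd1, ← Finset.sum_sub_distrib]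
        refine Finset.sum_congr rfl fun i _ => ?_
        show (c i - d i) ^ (p ^ j) * h i = _
        rw [sub_pow_char_pow, sub_mul]
      have h4 := hP4 (fun i => c i - d i) (fun i => hP1 _ (hcP i) _ (hdP i)) h3
      funext i
      exact sub_eq_zero.1 (h4 i)
  rw [Fintype.card_piFinset_const, hP2, ← pow_mul] at hcard
  have h3 := le_trans hcard (card_V_le K _)
  exact (Nat.pow_le_pow_iff_right Fintype.one_lt_card).1 h3

end

end Pool.Agent.H527.WS
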