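import Pool.Agent.H527.WS.All

/-! # Assembly -/

set_option autoImplicit false

namespace Pool.Agent.H527.WS

open Polynomial
open scoped Classical

variable {K : Type} [Field K] [Fintype K]

lemma one_lt_q : (1 : ℝ) < (Fintype.card K : ℝ) := by
  have := Fintype.one_lt_card (α := K)
  exact_mod_cast this

/-- From a bound of `|W|` to a bound of the sum. -/
lemma norm_le_of_W {ψ : AddChar K ℂ} {Q : ℕ} (hQ : PQ K Q) {n : ℕ} {A : K[X] →ₗ[K] K} (ξ : K[X] →+ K)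
    {C e : ℝ} (hC : 0 < C)
    (h : ((W ψ Q A n n).card : ℝ) ≤ C * (Fintype.card K : ℝ) ^ ((n : ℝ) - 2 * e)) :
    ‖S ψ Q n A ξ‖ ≤ Real.sqrt C * (Fintype.card K : ℝ) ^ ((n : ℝ) - e) := by
  have hq : (0 : ℝ) < Fintype.card K := lt_trans zero_lt_one one_lt_q
  have h1 := sq K ψ Q n A ξ hQ
  have h2 : ‖S ψ Q n A ξ‖ ^ 2 ≤ (Real.sqrt C * (Fintype.card K : ℝ) ^ ((n : ℝ) - e)) ^ 2 := by
    refine h1.trans ?_
    rw [mul_pow, Real.sq_sqrt hC.le, ← Real.rpow_natCast ((Fintype.card K : ℝ) ^ ((n : ℝ) - e)) 2,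
      ← Real.rpow_mul hq.le]
    calc (Fintype.card K : ℝ) ^ n * ((W ψ Q A n n).card : ℝ)
        ≤ (Fintype.card K : ℝ) ^ n * (C * (Fintype.card K : ℝ) ^ ((n : ℝ) - 2 * e)) :=
          mul_le_mul_of_nonneg_left h (by positivity)
      _ = C * (Fintype.card K : ℝ) ^ (((n : ℝ) - e) * ((2 : ℕ) : ℝ)) := by
          rw [← Real.rpow_natCast _ n, mul_left_comm, ← Real.rpow_add hq]
          congr 2
          push_cast
          ring
  exact (abs_le_of_sq_le_sq' h2 (by positivity)).2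

/-- The trivial bound. -/
lemma norm_le_triv (ψ : AddChar K ℂ) (Q n : ℕ) (A : K[X] →ₗ[K] K) (ξ : K[X] →+ K) :
    ‖S ψ Q n A ξ‖ ≤ (Fintype.card K : ℝ) ^ n := by
  unfold S
  refine (norm_sum_le _ _).trans ?_
  have h : ∀ x ∈ V K n, ‖ψ (A (x ^ (Q + 1)) + ξ x)‖ ≤ 1 := fun x _ => by
    rw [AddChar.norm_apply]
  refine (Finset.sum_le_sum h).trans ?_
  rw [Finset.sum_const, nsmul_eq_mul, mul_one]
  have : (V K n).card ≤ Fintype.card K ^ n := by
    unfold V
    refine Finset.card_image_le.trans ?_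
    simp
  exact_mod_cast this

/-- The first bound. -/
theorem fin1 {ψ : AddChar K ℂ} {Q : ℕ} (hQ : PQ K Q) (hψ : ψ ≠ 1) (ε : ℝ) (hε : 0 < ε) :
    ∃ C : ℝ, 0 < C ∧ ∀ (n : ℕ) (α : LaurentSeries K) (ξ : K[X] →+ K) (b g : K[X]), IsCoprime b g → g ≠ 0 →
      g.natDegree ≤ n → Near α b g g.natDegree →
      ‖S ψ Q n (fn α) ξ‖ ≤ C * (Fintype.card K : ℝ) ^ ((n : ℝ) - (1 / (2 * Q) - ε) * g.natDegree) := by
  have hQ0 : (0 : ℝ) < Q := by
    obtain ⟨p, j, hp, _, _, rfl⟩ := hQ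
    have := hp.pos
    positivity
  obtain ⟨C, hC, h⟩ := q_one K ψ Q hQ hψ (2 * Q * ε) (by positivity)
  refine ⟨Real.sqrt C, Real.sqrt_pos.mpr hC, fun n α ξ b g hc hg hn hN => ?_⟩
  refine norm_le_of_W hQ ξ hC ?_
  refine (h n g.natDegree (fn α) hn (lau K α b g hc hg hN)).trans (le_of_eq ?_)
  congr 2
  field_simp

/-- The second bound. -/
theorem fin2 {ψ : AddChar K ℂ} {Q : ℕ} (hQ : PQ K Q) (hψ : ψ ≠ 1) (ε : ℝ) (hε : 0 < ε) :
    ∃ C : ℝ, 0 < C ∧ ∀ (n : ℕ) (α : LaurentSeries K) (ξ : K[X] →+ K) (b g : K[X]), IsCoprime b g → g ≠ 0 →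
      g.natDegree ≤ n → Near α b g (Q * g.natDegree) →
      ‖S ψ Q n (fn α) ξ‖ ≤ C * (Fintype.card K : ℝ) ^ ((n : ℝ) - (1 / (Q + 1) - ε) * g.natDegree) := by
  obtain ⟨C, hC, h⟩ := q_two K ψ Q hQ hψ (2 * ε) (by positivity)
  refine ⟨max 1 (Real.sqrt C), by positivity, fun n α ξ b g hc hg hn hN => ?_⟩
  have hq : (0 : ℝ) < Fintype.card K := lt_trans zero_lt_one one_lt_q
  by_cases hD : g.natDegree = 0
  · refine (norm_le_triv ψ Q n (fn α) ξ).trans ?_
    rw [hD, Nat.cast_zero, mul_zero, sub_zero, Real.rpow_natCast]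
    exact le_mul_of_one_le_left (by positivity) (le_max_left _ _)
  obtain ⟨B, hB, hAB⟩ := exa K α b g (Q * g.natDegree) hc hg (by omega) hN
  have h1 := h n g (fn α) B hn hB (by
    have e : (Q + 1) * g.natDegree - 1 = g.natDegree + Q * g.natDegree - 1 := by
      congr 1; ring
    rw [e]
    exact hAB)
  refine (norm_le_of_W (e := (1 / (Q + 1) - ε) * g.natDegree) hQ ξ hC (h1.trans (le_of_eq ?_))).trans ?_
  · congr 2
    ring
  · exact mul_le_mul_of_nonneg_right (le_max_right _ _) (by positivity)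

/-- The second bound in the range `2 (k-1)^2 deg g ≤ k n`. -/
theorem fin3 {ψ : AddChar K ℂ} {Q : ℕ} (hQ : PQ K Q) (hψ : ψ ≠ 1) (ε : ℝ) (hε : 0 < ε) :
    ∃ C : ℝ, 0 < C ∧ ∀ (n : ℕ) (α : LaurentSeries K) (ξ : K[X] →+ K) (b g : K[X]), IsCoprime b g → g ≠ 0 →
      2 * Q ^ 2 * g.natDegree ≤ (Q + 1) * n → Near α b g g.natDegree →
      ‖S ψ Q n (fn α) ξ‖ ≤ C * (Fintype.card K : ℝ) ^ ((n : ℝ) - (1 / (Q + 1) - ε) * g.natDegree) := by
  have hQ2 : 2 ≤ Q := by
    obtain ⟨p, j, hp, _, hj, rfl⟩ := hQ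
    calc 2 ≤ p := hp.two_le
      _ = p ^ 1 := (pow_one p).symm
      _ ≤ p ^ j := Nat.pow_le_pow_right hp.pos hj
  have hQr : (2 : ℝ) ≤ Q := by exact_mod_cast hQ2
  have hq1 : (1 : ℝ) < Fintype.card K := one_lt_q
  have hq : (0 : ℝ) < Fintype.card K := lt_trans zero_lt_one hq1
  by_cases hε1 : (1 : ℝ) / (Q + 1) ≤ ε
  · refine ⟨1, one_pos, fun n α ξ b g hc hg hn hN => ?_⟩
    refine (norm_le_triv ψ Q n (fn α) ξ).trans ?_
    rw [one_mul, ← Real.rpow_natCast]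
    apply Real.rpow_le_rpow_of_exponent_le hq1.le
    have : (1 / ((Q : ℝ) + 1) - ε) * g.natDegree ≤ 0 :=
      mul_nonpos_of_nonpos_of_nonneg (by linarith) (by positivity)
    linarith
  push Not at hε1
  obtain ⟨C1, hC1, h1⟩ := fin1 (K := K) hQ hψ (ε / 2) (by positivity)
  obtain ⟨C2, hC2, h2⟩ := fin2 (K := K) hQ hψ ε hε
  refine ⟨max C1 C2, lt_max_of_lt_left hC1, fun n α ξ b g hc hg hn hN => ?_⟩
  have hgn : g.natDegree ≤ n := by
    have : (Q + 1) * g.natDegree ≤ 2 * Q ^ 2 * g.natDegree := Nat.mul_le_mul_right _ (by nlinarith)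
    exact Nat.le_of_mul_le_mul_left (this.trans hn) (by omega)
  obtain ⟨b', g', hc', hg', hn', hN', hmax⟩ := dir K α n
  have hle := hmax b g hc hg hgn hN
  have hN1 : Near α b' g' g'.natDegree := fun i hi => hN' i (by push_cast; omega)
  have hler : (g.natDegree : ℝ) ≤ g'.natDegree := by exact_mod_cast hle
  by_cases hcase : 2 * Q * g.natDegree ≤ (Q + 1) * g'.natDegree
  · refine (h1 n α ξ b' g' hc' hg' hn' hN1).trans ?_
    refine mul_le_mul (le_max_left _ _) ?_ (by positivity) (by positivity)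
    apply Real.rpow_le_rpow_of_exponent_le hq1.le
    have hcr : 2 * (Q : ℝ) * g.natDegree ≤ (Q + 1) * g'.natDegree := by exact_mod_cast hcase
    -- (1/(Q+1) - ε) D ≤ (1/(2Q) - ε/2) D'
    have e1 : (1 / ((Q : ℝ) + 1) - ε) * g.natDegree ≤ (1 / (2 * Q) - ε / 2) * g'.natDegree := by
      have a1 : (1 / ((Q : ℝ) + 1)) * g.natDegree ≤ 1 / (2 * Q) * g'.natDegree := by
        rw [div_mul_eq_mul_div, div_mul_eq_mul_div, div_le_div_iff₀ (by positivity) (by positivity)]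
        nlinarith
      have a3 : (0 : ℝ) < 1 - ε * (Q + 1) := by
        have := mul_lt_mul_of_pos_right hε1 (show (0 : ℝ) < Q + 1 by positivity)
        rw [div_mul_cancel₀ _ (by positivity)] at this
        linarith
      -- (1/(Q+1)-ε) D = (1 - ε (Q+1)) D/(Q+1) ≤ (1 - ε(Q+1)) D'/(2Q)
      have a4 : (1 / ((Q : ℝ) + 1) - ε) * g.natDegree = (1 - ε * (Q + 1)) * ((1 / ((Q : ℝ) + 1)) * g.natDegree) := by
        field_simp
      have a5 : (1 - ε * ((Q : ℝ) + 1)) * (1 / (2 * Q) * g'.natDegree) ≤ (1 / (2 * Q) - ε / 2) * g'.natDegree := by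
        have : (1 - ε * ((Q : ℝ) + 1)) * (1 / (2 * Q) * g'.natDegree) =
            (1 / (2 * Q) - ε / 2 - ε / (2 * Q)) * g'.natDegree := by
          field_simp
          ring
        rw [this]
        apply mul_le_mul_of_nonneg_right _ (by positivity)
        have : 0 ≤ ε / (2 * (Q : ℝ)) := by positivity
        linarith
      rw [a4]
      exact (mul_le_mul_of_nonneg_left a1 a3.le).trans a5
    linarith
  · push Not at hcase
    have hQD : Q * g'.natDegree ≤ n := by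
      have k1 : (Q + 1) * (Q * g'.natDegree) ≤ (Q + 1) * n := by
        calc (Q + 1) * (Q * g'.natDegree) = Q * ((Q + 1) * g'.natDegree) := by ring
          _ ≤ Q * (2 * Q * g.natDegree) := Nat.mul_le_mul_left _ hcase.le
          _ = 2 * Q ^ 2 * g.natDegree := by ring
          _ ≤ (Q + 1) * n := hn
      exact Nat.le_of_mul_le_mul_left k1 (by omega)
    have hN2 : Near α b' g' (Q * g'.natDegree) := fun i hi => hN' i (by
      have : ((Q * g'.natDegree : ℕ) : ℤ) ≤ n := by exact_mod_cast hQD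
      push_cast at this hi ⊢
      omega)
    refine (h2 n α ξ b' g' hc' hg' hn' hN2).trans ?_
    refine mul_le_mul (le_max_right _ _) ?_ (by positivity) (by positivity)
    apply Real.rpow_le_rpow_of_exponent_le hq1.le
    have : (1 / ((Q : ℝ) + 1) - ε) * g.natDegree ≤ (1 / ((Q : ℝ) + 1) - ε) * g'.natDegree :=
      mul_le_mul_of_nonneg_left hler (by linarith)
    linarith

/-- The exponent `1/k` is attained at `1/P^k`. -/
theorem fin4 {ψ : AddChar K ℂ} {Q : ℕ} (hQ : PQ K Q) (hψ : ψ ≠ 1) (P : K[X]) (hP : P.Monic) (hI : Irreducible P)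
    (n : ℕ) (hn : (Q + 1) * P.natDegree ≤ n) :
    S ψ Q n (fn (emb (P ^ (Q + 1)))⁻¹) 0 = (Fintype.card K : ℂ) ^ (n - P.natDegree) := by
  have h1 := ExaL.mod_fn (1 : K[X]) (P ^ (Q + 1)) isCoprime_one_left (pow_ne_zero _ hP.ne_zero)
  rw [map_one, one_div] at h1
  exact opt K ψ Q hQ hψ P n _ hP hI hn h1

end Pool.Agent.H527.WS
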