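import Pool.Agent.H527.WS.Stm

/-!
# Prime powers: small exponents (helper344, for the project WS of helper527)
-/

set_option autoImplicit false

namespace Pool.Agent.H527.WS

open Polynomial
open scoped Classical

namespace BasL

/-- the polynomial with the coefficients `c` -/
noncomputable def poly {K : Type} [Field K] (n : ℕ) (c : Fin n → K) : K[X] :=
  ∑ i : Fin n, C (c i) * X ^ (i : ℕ)

variable {K : Type} [Field K]

theorem poly_add (n : ℕ) (c c' : Fin n → K) : poly n (c + c') = poly n c + poly n c' := by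
  unfold poly
  rw [← Finset.sum_add_distrib]
  exact Finset.sum_congr rfl fun i _ => by rw [Pi.add_apply, C_add, add_mul]

theorem poly_zero (n : ℕ) : poly n (0 : Fin n → K) = 0 := by
  unfold poly
  exact Finset.sum_eq_zero fun i _ => by rw [Pi.zero_apply, C_0, zero_mul]

theorem poly_coeff (n : ℕ) (c : Fin n → K) (i : Fin n) : (poly n c).coeff i = c i := by
  unfold poly
  rw [finsetSum_coeff, Finset.sum_eq_single i]
  · rw [coeff_C_mul, coeff_X_pow, if_pos rfl, mul_one]
  · intro j _ hj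
    rw [coeff_C_mul, coeff_X_pow, if_neg (fun h => hj (Fin.ext h.symm)), mul_zero]
  · intro h
    exact absurd (Finset.mem_univ i) h

theorem poly_degree (n : ℕ) (c : Fin n → K) : (poly n c).degree < n := by
  unfold poly
  refine (degree_sum_le _ _).trans_lt ?_
  rw [Finset.sup_lt_iff (by exact WithBot.bot_lt_coe n)]
  intro i _
  refine (degree_C_mul_X_pow_le _ _).trans_lt ?_
  exact_mod_cast i.2

theorem poly_eq (n : ℕ) (f : K[X]) (hf : f.degree < n) :
    poly n (fun i : Fin n => f.coeff i) = f := by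
  ext m
  by_cases hm : m < n
  · exact poly_coeff n _ ⟨m, hm⟩
  · have h1 : ((m : ℕ) : WithBot ℕ) ≥ n := by exact_mod_cast not_lt.1 hm
    rw [coeff_eq_zero_of_degree_lt ((poly_degree n _).trans_le h1),
      coeff_eq_zero_of_degree_lt (hf.trans_le h1)]

theorem poly_inj (n : ℕ) (c : Fin n → K) (h : poly n c = 0) : c = 0 := by
  funext i
  rw [← poly_coeff n c i, h, coeff_zero, Pi.zero_apply]

theorem mem_V [Fintype K] (n : ℕ) (f : K[X]) : f ∈ V K n ↔ f.degree < n := by
  unfold V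
  rw [Finset.mem_image]
  constructor
  · rintro ⟨c, -, rfl⟩
    exact poly_degree n c
  · intro h
    exact ⟨_, Finset.mem_univ _, poly_eq n f h⟩

/-- the trick with constants -/
theorem key (ψ : AddChar K ℂ) (hψ : ψ ≠ 1) (A : K[X] →ₗ[K] K) (G : K[X])
    (h : ∀ y, ψ (A (y * G)) = 1) : ∀ z, A (G * z) = 0 := by
  intro z
  by_contra hz
  apply hψ
  ext s
  have h1 := h (C (s / A (G * z)) * z)
  have h2 : A (C (s / A (G * z)) * z * G) = s := by
    have h3 : C (s / A (G * z)) * z * G = (s / A (G * z)) • (G * z) := by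
      rw [smul_eq_C_mul]
      ring
    rw [h3, map_smul, smul_eq_mul, div_mul_cancel₀ _ hz]
  rw [h2] at h1
  rw [h1, AddChar.one_apply]

/-- counting in a bi-additive pairing -/
theorem dual {G₁ G₂ : Type} [AddCommGroup G₁] [AddCommGroup G₂] [Fintype G₁] [Fintype G₂]
    (ψ : AddChar K ℂ) (B : G₁ → G₂ → K) (hB₁ : ∀ x x' z, B (x + x') z = B x z + B x' z)
    (hB₂ : ∀ x z z', B x (z + z') = B x z + B x z') :
    Fintype.card G₁ * (Finset.univ.filter fun z => ∀ x, ψ (B x z) = 1).card =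
      Fintype.card G₂ * (Finset.univ.filter fun x => ∀ z, ψ (B x z) = 1).card := by
  have h1 : ∀ x, ∑ z, ψ (B x z) = if ∀ z, ψ (B x z) = 1 then (Fintype.card G₂ : ℂ) else 0 := by
    intro x
    have h := AddChar.sum_eq_ite (ψ.compAddMonoidHom (AddMonoidHom.mk' (B x) (hB₂ x)))
    have h2 : (ψ.compAddMonoidHom (AddMonoidHom.mk' (B x) (hB₂ x)) = 0) ↔
        ∀ z, ψ (B x z) = 1 := by
      constructor
      · intro h z
        exact DFunLike.congr_fun h z
      · intro h
        ext z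
        exact h z
    rw [← if_congr h2 rfl rfl]
    exact h
  have h2 : ∀ z, ∑ x, ψ (B x z) = if ∀ x, ψ (B x z) = 1 then (Fintype.card G₁ : ℂ) else 0 := by
    intro z
    have h := AddChar.sum_eq_ite (ψ.compAddMonoidHom (AddMonoidHom.mk' (fun x => B x z)
      (fun x x' => hB₁ x x' z)))
    have h2 : (ψ.compAddMonoidHom (AddMonoidHom.mk' (fun x => B x z)
        (fun x x' => hB₁ x x' z)) = 0) ↔ ∀ x, ψ (B x z) = 1 := by
      constructor
      · intro h x
        exact DFunLike.congr_fun h x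
      · intro h
        ext x
        exact h x
    rw [← if_congr h2 rfl rfl]
    exact h
  have h3 : ∑ x, ∑ z, ψ (B x z) = ∑ z, ∑ x, ψ (B x z) := Finset.sum_comm
  rw [Finset.sum_congr rfl fun x _ => h1 x, Finset.sum_congr rfl fun z _ => h2 z,
    ← Finset.sum_filter, ← Finset.sum_filter, Finset.sum_const, Finset.sum_const,
    nsmul_eq_mul, nsmul_eq_mul] at h3
  have h4 : (((Finset.univ.filter fun x => ∀ z, ψ (B x z) = 1).card * Fintype.card G₂ : ℕ) : ℂ) =
      (((Finset.univ.filter fun z => ∀ x, ψ (B x z) = 1).card * Fintype.card G₁ : ℕ) : ℂ) := by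
    push_cast
    exact h3
  have h5 := Nat.cast_injective h4
  rw [mul_comm, ← h5, mul_comm]

theorem pq_one {Q : ℕ} (h : PQ K Q) : 1 < Q := by
  obtain ⟨p, j, hp, -, hj, rfl⟩ := h
  exact Nat.one_lt_pow (by omega) hp.one_lt

theorem pq_add {Q : ℕ} (h : PQ K Q) (x y : K[X]) : (x + y) ^ Q = x ^ Q + y ^ Q := by
  obtain ⟨p, j, hp, hc, hj, rfl⟩ := h
  have : Fact p.Prime := ⟨hp⟩
  have := hc
  exact add_pow_char_pow x y p j

theorem pq_surj {Q : ℕ} (h : PQ K Q) (F : Type) [Field F] [Algebra K F] [Finite F] (u : F) :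
    ∃ c : F, c ^ Q = u := by
  obtain ⟨p, j, hp, hc, hj, rfl⟩ := h
  have : Fact p.Prime := ⟨hp⟩
  have := hc
  have : CharP F p := charP_of_injective_algebraMap (algebraMap K F).injective p
  have hinj : Function.Injective (fun x : F => x ^ p ^ j) := by
    intro a b hab
    have h1 : (a - b) ^ p ^ j = 0 := by
      rw [sub_pow_char_pow]
      exact sub_eq_zero.2 hab
    exact sub_eq_zero.1 (pow_eq_zero_iff (pow_pos hp.pos j).ne' |>.1 h1)
  exact Finite.surjective_of_injective hinj u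

theorem bas1 [Fintype K] (ψ : AddChar K ℂ) (Q : ℕ) (hPQ : PQ K Q) (hψ : ψ ≠ 1) (P : K[X])
    (A : K[X] →ₗ[K] K) (hPm : P.Monic) (hPi : Irreducible P) (hM : Mod A (P ^ 1)) :
    (WG ψ Q A (P ^ 1)).card ≤ Q ^ 2 := by
  rw [pow_one] at hM ⊢
  obtain ⟨-, hM1, hM2⟩ := hM
  have hQ1 := pq_one hPQ
  have hQ2 : 1 < Q ^ 2 := Nat.one_lt_pow (by norm_num) hQ1
  have : Fact (Irreducible P) := ⟨hPi⟩
  have : Module.Finite K (AdjoinRoot P) := hPm.finite_adjoinRoot
  have : Finite (AdjoinRoot P) := Module.finite_of_finite K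
  have hdP : P.degree = P.natDegree := degree_eq_natDegree hPm.ne_zero
  by_cases hall : ∀ h ∈ WG ψ Q A P, h = 0
  · refine (Finset.card_le_one.2 fun a ha b hb => ?_).trans hQ2.le
    rw [hall a ha, hall b hb]
  push Not at hall
  obtain ⟨h₁, hh₁, hne⟩ := hall
  have hdeg : ∀ h ∈ WG ψ Q A P, h.degree < P.degree := by
    intro h hh
    rw [hdP]
    exact (mem_V _ _).1 (Finset.mem_filter.1 hh).1
  have hpsi : ∀ h ∈ WG ψ Q A P, ∀ x : K[X], ψ (A (x ^ Q * h + x * h ^ Q)) = 1 :=
    fun h hh => (Finset.mem_filter.1 hh).2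
  have hm1 : AdjoinRoot.mk P h₁ ≠ 0 := by
    intro h0
    rw [AdjoinRoot.mk_eq_zero] at h0
    exact hne (eq_zero_of_dvd_of_degree_lt h0 (hdeg h₁ hh₁))
  have hrel : ∀ h ∈ WG ψ Q A P,
      (AdjoinRoot.mk P h / AdjoinRoot.mk P h₁) ^ (Q ^ 2) =
        AdjoinRoot.mk P h / AdjoinRoot.mk P h₁ := by
    intro h hh
    obtain ⟨c', hc'⟩ := pq_surj hPQ (AdjoinRoot P) (AdjoinRoot.mk P h / AdjoinRoot.mk P h₁)
    obtain ⟨c, rfl⟩ := AdjoinRoot.mk_surjective c'
    have h1 : P ∣ c ^ Q * h₁ - h := by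
      rw [← AdjoinRoot.mk_eq_zero, map_sub, map_mul, map_pow, hc', div_mul_cancel₀ _ hm1, sub_self]
    obtain ⟨w, hw⟩ := h1
    have h2 : P ∣ c * h₁ ^ Q - h ^ Q := by
      apply hM2
      apply key ψ hψ A
      intro y
      have e1 := hpsi h₁ hh₁ (c * y)
      have e2 := hpsi h hh y
      have e3 : (c * y) ^ Q * h₁ + c * y * h₁ ^ Q =
          (y ^ Q * h + y * h ^ Q) + P * (y ^ Q * w) + y * (c * h₁ ^ Q - h ^ Q) := by
        have e4 : P * (y ^ Q * w) = y ^ Q * (c ^ Q * h₁ - h) := by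
          rw [hw]
          ring
        rw [e4, mul_pow]
        ring
      rw [e3, map_add A, map_add A, hM1, add_zero, AddChar.map_add_eq_mul, e2, one_mul] at e1
      exact e1
    have h3 : AdjoinRoot.mk P c * AdjoinRoot.mk P h₁ ^ Q = AdjoinRoot.mk P h ^ Q := by
      have h4 := AdjoinRoot.mk_eq_zero.2 h2
      rw [map_sub, map_mul, map_pow, map_pow] at h4
      exact sub_eq_zero.1 h4
    have h5 : (AdjoinRoot.mk P h / AdjoinRoot.mk P h₁) ^ Q = AdjoinRoot.mk P c := by
      rw [div_pow, ← h3, mul_div_cancel_right₀ _ (pow_ne_zero _ hm1)]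
    rw [sq, pow_mul, h5, hc']
  have hnd : (X ^ (Q ^ 2) - X : (AdjoinRoot P)[X]).natDegree = Q ^ 2 :=
    FiniteField.X_pow_card_sub_X_natDegree_eq _ hQ2
  have hne0 : (X ^ (Q ^ 2) - X : (AdjoinRoot P)[X]) ≠ 0 := by
    intro h0
    rw [h0, natDegree_zero] at hnd
    omega
  have hcard : (X ^ (Q ^ 2) - X : (AdjoinRoot P)[X]).roots.toFinset.card ≤ Q ^ 2 := by
    refine (Multiset.toFinset_card_le _).trans ((card_roots' _).trans ?_)
    rw [hnd]
  refine le_trans ?_ hcard
  refine Finset.card_le_card_of_injOn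
    (fun h => AdjoinRoot.mk P h / AdjoinRoot.mk P h₁) ?_ ?_
  · intro h hh
    rw [Finset.mem_coe] at hh ⊢
    rw [Multiset.mem_toFinset, mem_roots hne0]
    show IsRoot _ (AdjoinRoot.mk P h / AdjoinRoot.mk P h₁)
    rw [IsRoot.def, eval_sub, eval_pow, eval_X, hrel h hh, sub_self]
  · intro h hh h' hh' heq
    rw [Finset.mem_coe] at hh hh'
    have heq' : AdjoinRoot.mk P h / AdjoinRoot.mk P h₁ =
      AdjoinRoot.mk P h' / AdjoinRoot.mk P h₁ := heq
    rw [div_left_inj' hm1] at heq'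
    have h1 : P ∣ h - h' := by
      rw [← AdjoinRoot.mk_eq_zero, map_sub, heq', sub_self]
    have h2 := eq_zero_of_dvd_of_degree_lt h1
      ((degree_sub_le h h').trans_lt (max_lt (hdeg h hh) (hdeg h' hh')))
    exact sub_eq_zero.1 h2

theorem bas2 [Fintype K] (ψ : AddChar K ℂ) (Q : ℕ) (hPQ : PQ K Q) (hψ : ψ ≠ 1) (P : K[X])
    (e : ℕ) (A : K[X] →ₗ[K] K) (hPm : P.Monic) (hPi : Irreducible P) (heQ : e ≤ Q)
    (hM : Mod A (P ^ e)) (he : 2 ≤ e) :
    (WG ψ Q A (P ^ e)).card ≤ Fintype.card K ^ (P.natDegree * (e - 2)) := by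
  obtain ⟨-, hM1, hM2⟩ := hM
  obtain ⟨E, rfl⟩ : ∃ E, e = E + 2 := ⟨e - 2, by omega⟩
  have hPp : Prime P := hPi.prime
  have hP0 : P ≠ 0 := hPm.ne_zero
  obtain ⟨d, hd⟩ : ∃ d, d = P.natDegree := ⟨_, rfl⟩
  have hdP : P.degree = d := by rw [hd]; exact degree_eq_natDegree hP0
  rw [← hd]
  have hA0 : ∀ G : K[X], P ^ (E + 2) ∣ G → A G = 0 := by
    rintro G ⟨w, rfl⟩
    exact hM1 w
  -- the elements of `WG`
  have hWG : ∀ h ∈ WG ψ Q A (P ^ (E + 2)), ∃ z : K[X], z.degree < ((d * (E + 1) : ℕ) : WithBot ℕ) ∧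
      h = P * z ∧ ∀ x : K[X], ψ (A (x ^ Q * (P * z))) = 1 := by
    intro h hh
    have hh1 := (mem_V _ _).1 (Finset.mem_filter.1 hh).1
    have hh2 := (Finset.mem_filter.1 hh).2
    have h1 : P ^ (E + 2) ∣ P ^ (E + 1) * h ^ Q := by
      apply hM2
      apply key ψ hψ A
      intro y
      have e1 := hh2 (P ^ (E + 1) * y)
      have e2 : A ((P ^ (E + 1) * y) ^ Q * h) = 0 := by
        apply hA0
        have e3 : P ^ (E + 2) ∣ (P ^ (E + 1)) ^ Q := by
          rw [← pow_mul]
          apply pow_dvd_pow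
          nlinarith
        rw [mul_pow, mul_assoc]
        exact e3.mul_right _
      rw [map_add, e2, zero_add] at e1
      have e4 : y * (P ^ (E + 1) * h ^ Q) = P ^ (E + 1) * y * h ^ Q := by ring
      rw [e4]
      exact e1
    have h2 : P ∣ h ^ Q := by
      have h3 : P ^ (E + 1) * P ∣ P ^ (E + 1) * h ^ Q := by
        rw [← pow_succ]
        exact h1
      exact (mul_dvd_mul_iff_left (pow_ne_zero _ hP0)).1 h3
    obtain ⟨z, rfl⟩ := hPp.dvd_of_dvd_pow h2
    refine ⟨z, ?_, rfl, ?_⟩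
    · rw [degree_mul, hdP, natDegree_pow, ← hd] at hh1
      by_cases hz : z = 0
      · rw [hz, degree_zero]
        exact WithBot.bot_lt_coe _
      · rw [degree_eq_natDegree hz] at hh1 ⊢
        have h3 : d + z.natDegree < (E + 2) * d := by exact_mod_cast hh1
        have h4 : z.natDegree < d * (E + 1) := by nlinarith
        exact_mod_cast h4
    · intro x
      have e1 := hh2 x
      have e2 : A (x * (P * z) ^ Q) = 0 := by
        apply hA0
        rw [mul_pow]
        exact ((pow_dvd_pow P heQ).mul_right _).mul_left _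
      rw [map_add, e2, add_zero] at e1
      exact e1
  -- the pairing
  obtain ⟨B, hB⟩ : ∃ B : (Fin d → K) → (Fin (d * (E + 1)) → K) → K, ∀ x z, B x z =
      A ((poly d x) ^ Q * (P * poly (d * (E + 1)) z)) := ⟨_, fun _ _ => rfl⟩
  have hdual := dual ψ B (fun x x' z => by
      rw [hB, hB, hB, poly_add, pq_add hPQ, add_mul, map_add])
    (fun x z z' => by rw [hB, hB, hB, poly_add, mul_add, mul_add, map_add])
  -- the left kernel is trivial
  have hX : (Finset.univ.filter fun x => ∀ z, ψ (B x z) = 1).card ≤ 1 := by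
    rw [Finset.card_le_one]
    have hx0 : ∀ x ∈ (Finset.univ.filter fun x => ∀ z, ψ (B x z) = 1), x = 0 := by
      intro x hx
      have hx1 := (Finset.mem_filter.1 hx).2
      have h1 : P ^ (E + 2) ∣ (poly d x) ^ Q * P := by
        apply hM2
        apply key ψ hψ A
        intro y
        have hmon : (P ^ (E + 1)).Monic := hPm.pow _
        obtain ⟨r, hr⟩ : ∃ r, r = y %ₘ (P ^ (E + 1)) := ⟨_, rfl⟩
        have hrd : r.degree < ((d * (E + 1) : ℕ) : WithBot ℕ) := by
          rw [hr]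
          refine (degree_modByMonic_lt y hmon).trans_le (le_of_eq ?_)
          rw [degree_eq_natDegree hmon.ne_zero, natDegree_pow, ← hd, mul_comm]
        have hy : y = r + P ^ (E + 1) * (y /ₘ (P ^ (E + 1))) := by
          rw [hr]
          exact (modByMonic_add_div y _).symm
        have e1 := hx1 (fun i => r.coeff i)
        rw [hB, poly_eq _ r hrd] at e1
        have e2 : y * ((poly d x) ^ Q * P) = (poly d x) ^ Q * (P * r) +
            P ^ (E + 2) * ((poly d x) ^ Q * (y /ₘ (P ^ (E + 1)))) := by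
          rw [hy]
          have e3 : (r + P ^ (E + 1) * (y /ₘ (P ^ (E + 1)))) /ₘ (P ^ (E + 1)) =
            y /ₘ (P ^ (E + 1)) := by rw [← hy]
          rw [e3]
          ring
        rw [e2, map_add, hM1, add_zero]
        exact e1
      have h2 : P ∣ (poly d x) ^ Q := by
        have h3 : P * P ∣ (poly d x) ^ Q * P := by
          refine Dvd.dvd.trans ?_ h1
          rw [← sq]
          exact pow_dvd_pow P (by omega)
        exact (mul_dvd_mul_iff_right hP0).1 h3
      have h4 := hPp.dvd_of_dvd_pow h2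
      have h5 := eq_zero_of_dvd_of_degree_lt h4 (by rw [hdP]; exact poly_degree d x)
      exact poly_inj d x h5
    intro a ha b hb
    rw [hx0 a ha, hx0 b hb]
  -- the injection
  have hsub : WG ψ Q A (P ^ (E + 2)) ⊆
      (Finset.univ.filter fun z => ∀ x, ψ (B x z) = 1).image
        (fun z => P * poly (d * (E + 1)) z) := by
    intro h hh
    obtain ⟨z, hz1, hz2, hz3⟩ := hWG h hh
    refine Finset.mem_image.2 ⟨fun i => z.coeff i, ?_, ?_⟩
    · rw [Finset.mem_filter]
      refine ⟨Finset.mem_univ _, fun x => ?_⟩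
      rw [hB, poly_eq _ z hz1]
      exact hz3 _
    · show P * poly (d * (E + 1)) (fun i => z.coeff i) = h
      rw [poly_eq _ z hz1, hz2]
  have h1 := (Finset.card_le_card hsub).trans Finset.card_image_le
  refine h1.trans ?_
  have hq : 0 < Fintype.card K := Fintype.card_pos
  rw [Fintype.card_fun, Fintype.card_fun, Fintype.card_fin, Fintype.card_fin] at hdual
  have h2 : Fintype.card K ^ d * (Finset.univ.filter fun z => ∀ x, ψ (B x z) = 1).card ≤
      Fintype.card K ^ d * Fintype.card K ^ (d * (E + 2 - 2)) := by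
    rw [hdual, ← pow_add]
    have h3 : d + d * (E + 2 - 2) = d * (E + 1) := by
      rw [Nat.add_sub_cancel]
      ring
    rw [h3]
    calc _ ≤ Fintype.card K ^ (d * (E + 1)) * 1 := Nat.mul_le_mul_left _ hX
      _ = _ := mul_one _
  exact Nat.le_of_mul_le_mul_left h2 (pow_pos hq d)

end BasL

open BasL

theorem bas : S_bas := by
  intro K _ _ ψ Q hPQ hψ P e A hPm hPi heQ hM
  refine ⟨fun he => ?_, fun he => ?_⟩
  · rcases Nat.le_one_iff_eq_zero_or_eq_one.1 he with rfl | rfl
    · have h1 : (WG ψ Q A (P ^ 0)).card ≤ 1 := by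
        rw [Finset.card_le_one]
        have h0 : ∀ h ∈ WG ψ Q A (P ^ 0), h = 0 := by
          intro h hh
          have h2 := (mem_V _ _).1 (Finset.mem_filter.1 hh).1
          rw [pow_zero, natDegree_one] at h2
          exact degree_lt_iff_coeff_zero _ _ |>.1 h2 |> fun h3 => ext fun n => h3 n (Nat.zero_le n)
        intro a ha b hb
        rw [h0 a ha, h0 b hb]
      exact h1.trans (Nat.one_lt_pow (by norm_num) (pq_one hPQ)).le
    · exact bas1 ψ Q hPQ hψ P A hPm hPi hM
  · exact bas2 ψ Q hPQ hψ P e A hPm hPi heQ hM he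

end Pool.Agent.H527.WS
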