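import Pool.Agent.H527.WS.Stm

/-! Project WS: multiplicativity (`S_crt`). -/

set_option autoImplicit false

namespace Pool.Agent.H527.WS

open Polynomial
open scoped Classical

theorem Crt.mem_V {K : Type} [Field K] [Fintype K] (n : ℕ) (x : K[X]) :
    x ∈ V K n ↔ x.degree < (n : WithBot ℕ) := by
  unfold V
  rw [Finset.mem_image]
  constructor
  · rintro ⟨c, _, rfl⟩
    refine lt_of_le_of_lt (Polynomial.degree_sum_le _ _) ?_
    refine (Finset.sup_lt_iff (WithBot.bot_lt_coe n)).mpr ?_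
    intro i _
    refine lt_of_le_of_lt (Polynomial.degree_C_mul_X_pow_le _ _) ?_
    exact WithBot.coe_lt_coe.mpr i.2
  · intro h
    refine ⟨fun i => x.coeff i, Finset.mem_univ _, ?_⟩
    rw [Fin.sum_univ_eq_sum_range (fun i => C (x.coeff i) * X ^ i) n]
    by_cases h0 : x = 0
    · subst h0
      simp
    · have h1 : x.natDegree < n := (Polynomial.natDegree_lt_iff_degree_lt h0).mpr h
      have h2 := Polynomial.as_sum_range' x n h1
      refine Eq.trans (Finset.sum_congr rfl fun i _ => ?_) h2.symm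
      rw [Polynomial.C_mul_X_pow_eq_monomial]

theorem Crt.dvd_key {K : Type} [Field K] (g₁ g₂ E h h₁ x : K[X]) (Q : ℕ) (hQ : 0 < Q)
    (hE1 : g₁ ∣ E - 1) (hE2 : g₂ ∣ E) (hh : g₁ ∣ h₁ - h) :
    g₁ * g₂ ∣ (E * (x ^ Q * h₁ + x * h₁ ^ Q)) - ((E * x) ^ Q * h + (E * x) * h ^ Q) := by
  have a1 : g₁ * g₂ ∣ (h₁ - h) * E := mul_dvd_mul hh hE2
  have a2 : g₁ * g₂ ∣ (h₁ ^ Q - h ^ Q) * E := mul_dvd_mul (hh.trans (sub_dvd_pow_sub_pow _ _ Q)) hE2
  have a3 : g₁ * g₂ ∣ E ^ Q - E := by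
    obtain ⟨q, rfl⟩ : ∃ q, Q = q + 1 := ⟨Q - 1, by omega⟩
    have e1 : E ^ (q + 1) - E = (E ^ q - 1 ^ q) * E := by
      rw [one_pow]
      ring
    rw [e1]
    exact mul_dvd_mul (hE1.trans (sub_dvd_pow_sub_pow _ _ q)) hE2
  have e2 : (E * (x ^ Q * h₁ + x * h₁ ^ Q)) - ((E * x) ^ Q * h + (E * x) * h ^ Q)
      = ((h₁ - h) * E) * x ^ Q + ((h₁ ^ Q - h ^ Q) * E) * x - (E ^ Q - E) * (x ^ Q * h) := by
    rw [mul_pow]
    ring
  rw [e2]
  exact dvd_sub (dvd_add (a1.mul_right _) (a2.mul_right _)) (a3.mul_right _)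

theorem Crt.mod_dvd {K : Type} [Field K] (g h : K[X]) : g ∣ h % g - h := by
  have h1 := EuclideanDomain.div_add_mod h g
  refine ⟨-(h / g), ?_⟩
  have h2 : h % g = h - g * (h / g) := by
    linear_combination h1
  rw [h2]
  ring

/-- the functional belonging to the first factor -/
theorem Crt.one {K : Type} [Field K] [Fintype K] (ψ : AddChar K ℂ) (Q : ℕ) (hQ : 0 < Q)
    (g₁ g₂ E : K[X]) (A : K[X] →ₗ[K] K) (hE1 : g₁ ∣ E - 1) (hE2 : g₂ ∣ E) (hM : Mod A (g₁ * g₂)) :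
    Mod (A.comp (LinearMap.mulLeft K E)) g₁ ∧
      ∀ h ∈ WG ψ Q A (g₁ * g₂), h % g₁ ∈ WG ψ Q (A.comp (LinearMap.mulLeft K E)) g₁ := by
  obtain ⟨hM0, hM1, hM2⟩ := hM
  have hg1 : g₁ ≠ 0 := left_ne_zero_of_mul hM0
  refine ⟨⟨hg1, ?_, ?_⟩, ?_⟩
  · intro y
    rw [LinearMap.comp_apply, LinearMap.mulLeft_apply]
    obtain ⟨w, rfl⟩ := hE2
    have e : g₂ * w * (g₁ * y) = g₁ * g₂ * (w * y) := by ring
    rw [e]
    exact hM1 _
  · intro y hy
    have h1 : g₁ * g₂ ∣ E * y := by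
      apply hM2
      intro z
      have h2 := hy z
      rw [LinearMap.comp_apply, LinearMap.mulLeft_apply] at h2
      rw [mul_assoc]
      exact h2
    have h2 : g₁ ∣ E * y := (dvd_mul_right g₁ g₂).trans h1
    have h3 : y = E * y - (E - 1) * y := by ring
    rw [h3]
    exact dvd_sub h2 (hE1.mul_right _)
  · intro h hh
    unfold WG at hh ⊢
    rw [Finset.mem_filter] at hh ⊢
    refine ⟨?_, ?_⟩
    · rw [Crt.mem_V, ← Polynomial.degree_eq_natDegree hg1]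
      exact EuclideanDomain.mod_lt h hg1
    · intro x
      rw [LinearMap.comp_apply, LinearMap.mulLeft_apply]
      obtain ⟨w, hw⟩ := Crt.dvd_key g₁ g₂ E h (h % g₁) x Q hQ hE1 hE2 (Crt.mod_dvd g₁ h)
      have h1 : E * (x ^ Q * (h % g₁) + x * (h % g₁) ^ Q) =
          ((E * x) ^ Q * h + (E * x) * h ^ Q) + g₁ * g₂ * w := by
        rw [← hw]
        ring
      rw [h1, map_add, hM1, add_zero]
      exact hh.2 (E * x)

theorem crt : S_crt := by
  intro K _ _ ψ Q hPQ g₁ g₂ A hco hM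
  have hQ : 0 < Q := by
    obtain ⟨p, j, hp, _, _, rfl⟩ := hPQ
    exact Nat.pow_pos hp.pos
  obtain ⟨u, v, huv⟩ := hco
  have a1 : g₁ ∣ v * g₂ - 1 := ⟨-u, by linear_combination huv⟩
  have a2 : g₂ ∣ u * g₁ - 1 := ⟨-v, by linear_combination huv⟩
  have hM' : Mod A (g₂ * g₁) := by
    rw [mul_comm]
    exact hM
  obtain ⟨b1, b2⟩ := Crt.one ψ Q hQ g₁ g₂ (v * g₂) A a1 (dvd_mul_left _ _) hM
  obtain ⟨c1, c2⟩ := Crt.one ψ Q hQ g₂ g₁ (u * g₁) A a2 (dvd_mul_left _ _) hM'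
  refine ⟨_, _, b1, c1, ?_⟩
  rw [← Finset.card_product]
  apply Finset.card_le_card_of_injOn (fun h : K[X] => (h % g₁, h % g₂))
  · intro h hh
    have hh1 : h ∈ WG ψ Q A (g₁ * g₂) := Finset.mem_coe.mp hh
    apply Finset.mem_coe.mpr
    rw [Finset.mem_product]
    refine ⟨b2 h hh1, c2 h ?_⟩
    rw [mul_comm g₂ g₁]
    exact hh1
  · intro h hh h' hh' he
    have hh1 : h ∈ WG ψ Q A (g₁ * g₂) := Finset.mem_coe.mp hh
    have hh2 : h' ∈ WG ψ Q A (g₁ * g₂) := Finset.mem_coe.mp hh'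
    unfold WG at hh1 hh2
    rw [Finset.mem_filter, Crt.mem_V, ← Polynomial.degree_eq_natDegree hM.1] at hh1 hh2
    have e1 : h % g₁ = h' % g₁ := congrArg Prod.fst he
    have e2 : h % g₂ = h' % g₂ := congrArg Prod.snd he
    have d1 : g₁ ∣ h - h' := by
      have := dvd_sub (Crt.mod_dvd g₁ h') (Crt.mod_dvd g₁ h)
      rw [e1] at this
      have e3 : h' % g₁ - h' - (h' % g₁ - h) = h - h' := by ring
      rw [e3] at this
      exact this
    have d2 : g₂ ∣ h - h' := by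
      have := dvd_sub (Crt.mod_dvd g₂ h') (Crt.mod_dvd g₂ h)
      rw [e2] at this
      have e3 : h' % g₂ - h' - (h' % g₂ - h) = h - h' := by ring
      rw [e3] at this
      exact this
    have hco' : IsCoprime g₁ g₂ := ⟨u, v, huv⟩
    have d3 : g₁ * g₂ ∣ h - h' := hco'.mul_dvd d1 d2
    have h0 : h - h' = 0 := by
      apply Polynomial.eq_zero_of_dvd_of_degree_lt d3
      refine lt_of_le_of_lt (Polynomial.degree_sub_le _ _) ?_
      exact max_lt hh1.1 hh2.1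
    exact sub_eq_zero.mp h0

end Pool.Agent.H527.WS
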