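import Pool.Agent.H527.WS.Stm

/-! W16: Dirichlet's theorem for Laurent series and the comparison of two approximations. -/

set_option autoImplicit false
set_option linter.all false

namespace Pool.Agent.H527.WS

open Polynomial
open scoped Classical

noncomputable section

namespace Dir118

variable {K : Type} [Field K]

theorem emb_C (a : K) : emb (C a) = HahnSeries.C a := by simp [emb]

theorem emb_X : emb (X : K[X]) = HahnSeries.single (-1 : ℤ) (1 : K) := by simp [emb]

theorem emb_monomial (k : ℕ) (a : K) : emb (monomial k a) = HahnSeries.single (-(k : ℤ)) a := by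
  rw [← C_mul_X_pow_eq_monomial, map_mul, map_pow, emb_C, emb_X, HahnSeries.single_pow, one_pow,
    HahnSeries.C_apply, HahnSeries.single_mul_single, mul_one, zero_add, nsmul_eq_mul, mul_neg,
    mul_one]

theorem emb_coeff (p : K[X]) (i : ℤ) :
    (emb p).coeff i = if i ≤ 0 then p.coeff (-i).toNat else 0 := by
  induction p using Polynomial.induction_on' with
  | add p q hp hq =>
    rw [map_add, HahnSeries.coeff_add, hp, hq, coeff_add]
    split_ifs
    · rfl
    · rw [add_zero]
  | monomial k a =>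
    rw [emb_monomial, HahnSeries.coeff_single, coeff_monomial]
    split_ifs <;> first | rfl | omega

theorem emb_pos (p : K[X]) {i : ℤ} (hi : 0 < i) : (emb p).coeff i = 0 := by
  rw [emb_coeff, if_neg (by omega)]

theorem emb_neg (p : K[X]) : ∀ i : ℤ, i < -(p.natDegree : ℤ) → (emb p).coeff i = 0 := by
  intro i hi
  rw [emb_coeff, if_pos (by omega)]
  exact coeff_eq_zero_of_natDegree_lt (by omega)

theorem emb_inj {p : K[X]} (h : emb p = 0) : p = 0 := by
  ext k
  have h1 := emb_coeff p (-(k : ℤ))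
  rw [h, if_pos (by omega)] at h1
  have h2 : (-(-(k : ℤ))).toNat = k := by omega
  rw [h2] at h1
  rw [coeff_zero]
  exact h1.symm

theorem emb_order {p : K[X]} (hp : p ≠ 0) : (emb p).order ≤ 0 := by
  have h1 : (emb p).coeff (-(p.natDegree : ℤ)) ≠ 0 := by
    rw [emb_coeff, if_pos (by omega)]
    have h2 : (-(-(p.natDegree : ℤ))).toNat = p.natDegree := by omega
    rw [h2]
    exact leadingCoeff_ne_zero.2 hp
  have h2 := HahnSeries.order_le_of_coeff_ne_zero h1
  omega

theorem mul_val {x y : LaurentSeries K} {a b : ℤ} (hx : ∀ i < a, x.coeff i = 0)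
    (hy : ∀ i < b, y.coeff i = 0) : ∀ i < a + b, (x * y).coeff i = 0 := by
  intro i hi
  rw [HahnSeries.coeff_mul]
  apply Finset.sum_eq_zero
  rintro ⟨p, q⟩ hpq
  have h := (Finset.mem_addAntidiagonal.1 hpq).2.2
  simp only at h ⊢
  rcases lt_or_ge p a with h1 | h1
  · rw [hx p h1, zero_mul]
  · rw [hy q (by omega), mul_zero]

/-- the coefficients -/
def M (α : LaurentSeries K) (n : ℕ) : K[X] →ₗ[K] (Fin n → K) where
  toFun G := fun i => (α * emb G).coeff ((i : ℤ) + 1)
  map_add' x y := by
    funext i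
    rw [map_add, mul_add]
    rfl
  map_smul' c x := by
    funext i
    rw [smul_eq_C_mul, map_mul, emb_C, mul_left_comm, HahnSeries.C_mul_eq_smul]
    rfl

theorem exists_G (α : LaurentSeries K) (n : ℕ) : ∃ G : K[X], G ≠ 0 ∧ G.natDegree ≤ n ∧
    ∀ i : ℤ, 1 ≤ i → i ≤ n → (α * emb G).coeff i = 0 := by
  let L : degreeLT K (n + 1) →ₗ[K] (Fin n → K) := (M α n).comp (degreeLT K (n + 1)).subtype
  have h0 : Module.Finite K (degreeLT K (n + 1)) :=
    Module.Finite.equiv (degreeLTEquiv K (n + 1)).symm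
  have h1 : Module.finrank K (Fin n → K) < Module.finrank K (degreeLT K (n + 1)) := by
    rw [(degreeLTEquiv K (n + 1)).finrank_eq, Module.finrank_fin_fun, Module.finrank_fin_fun]
    omega
  have h2 := LinearMap.ker_ne_bot_of_finrank_lt (f := L) h1
  obtain ⟨⟨G, hG⟩, hGk, hG0⟩ := (Submodule.ne_bot_iff _).1 h2
  have hG0' : G ≠ 0 := fun h => hG0 (Subtype.ext h)
  refine ⟨G, hG0', ?_, fun i hi1 hi2 => ?_⟩
  · have h3 := mem_degreeLT.1 hG
    rw [degree_eq_natDegree hG0'] at h3
    have h4 : G.natDegree < n + 1 := by exact_mod_cast h3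
    omega
  · have h3 : L ⟨G, hG⟩ = 0 := hGk
    have h4 := congrFun h3 ⟨(i - 1).toNat, by omega⟩
    change (α * emb G).coeff ((((i - 1).toNat : ℕ) : ℤ) + 1) = 0 at h4
    have h5 : (((i - 1).toNat : ℕ) : ℤ) + 1 = i := by omega
    rwa [h5] at h4

/-- the polynomial part -/
theorem exists_part (u : LaurentSeries K) : ∃ c : K[X], ∀ i : ℤ, i ≤ 0 →
    (u - emb c).coeff i = 0 := by
  obtain ⟨N, hN⟩ : ∃ N : ℕ, ∀ i : ℤ, i < -(N : ℤ) → u.coeff i = 0 := by
    refine ⟨(-u.order).toNat, fun i hi => ?_⟩
    exact HahnSeries.coeff_eq_zero_of_lt_order (by omega)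
  refine ⟨∑ k ∈ Finset.range (N + 1), monomial k (u.coeff (-(k : ℤ))), fun i hi => ?_⟩
  rw [HahnSeries.coeff_sub, emb_coeff, if_pos hi, finset_sum_coeff]
  simp only [coeff_monomial]
  rw [Finset.sum_ite_eq']
  have h1 : (-(((-i).toNat : ℕ) : ℤ)) = i := by omega
  by_cases h : (-i).toNat ∈ Finset.range (N + 1)
  · rw [if_pos h, h1, sub_self]
  · rw [if_neg h, sub_zero]
    rw [Finset.mem_range] at h
    exact hN i (by omega)

end Dir118

open Dir118 in
theorem dir : S_dir := by
  intro K _ _ α n
  obtain ⟨G, hG0, hGn, hG⟩ := exists_G α n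
  obtain ⟨c, hc⟩ := exists_part (α * emb G)
  have hval : ∀ i : ℤ, i < ((n + 1 : ℕ) : ℤ) → (α * emb G - emb c).coeff i = 0 := by
    intro i hi
    rcases le_or_gt i 0 with h | h
    · exact hc i h
    · rw [HahnSeries.coeff_sub, emb_pos c h, sub_zero]
      exact hG i (by omega) (by push_cast at hi; omega)
  obtain ⟨g, b, hg, hb, hu⟩ := extract_gcd G c
  obtain ⟨e, he⟩ : ∃ e, e = gcd G c := ⟨_, rfl⟩
  rw [← he] at hg hb
  have he0 : e ≠ 0 := by
    intro h0
    rw [h0, zero_mul] at hg
    exact hG0 hg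
  have hg0 : g ≠ 0 := by
    intro h0
    rw [h0, mul_zero] at hg
    exact hG0 hg
  have hcop : IsCoprime b g := ((gcd_isUnit_iff g b).1 hu).symm
  have hgn : g.natDegree ≤ n := by
    have h1 := natDegree_mul he0 hg0
    rw [← hg] at h1
    omega
  have hnear : Near α b g (n + 1) := by
    intro i hi
    by_cases hx : emb g * α - emb b = 0
    · rw [hx, HahnSeries.coeff_zero]
    · have hy : α * emb G - emb c = emb e * (emb g * α - emb b) := by
        rw [hg, hb, map_mul, map_mul]
        ring
      have hemb : emb e ≠ 0 := fun h => he0 (emb_inj h)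
      have hy0 : emb e * (emb g * α - emb b) ≠ 0 := mul_ne_zero hemb hx
      have ho := HahnSeries.order_mul hemb hx
      have h1 : ((n + 1 : ℕ) : ℤ) ≤ (emb e * (emb g * α - emb b)).order := by
        by_contra hcon
        push Not at hcon
        have h2 := hval _ hcon
        rw [hy] at h2
        exact (HahnSeries.coeff_order_eq_zero.not.2 hy0) h2
      have h2 := emb_order he0
      exact HahnSeries.coeff_eq_zero_of_lt_order (by omega)
  refine ⟨b, g, hcop, hg0, hgn, hnear, fun b' g' hcop' hg0' hgn' hnear' => ?_⟩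
  by_contra hcon
  push Not at hcon
  have hid : emb (g * b' - g' * b) =
      emb g' * (emb g * α - emb b) - emb g * (emb g' * α - emb b') := by
    rw [map_sub, map_mul, map_mul]
    ring
  have h1 := mul_val (emb_neg g') hnear
  have h2 := mul_val (emb_neg g) hnear'
  have h3 : emb (g * b' - g' * b) = 0 := by
    ext i
    rw [HahnSeries.coeff_zero]
    rcases le_or_gt i 0 with h | h
    · rw [hid, HahnSeries.coeff_sub, h1 i (by push_cast; omega), h2 i (by omega), sub_zero]
    · exact emb_pos _ h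
  have h4 : g * b' = g' * b := sub_eq_zero.1 (emb_inj h3)
  have h5 : g' ∣ g := by
    refine (hcop'.symm).dvd_of_dvd_mul_right ?_
    exact ⟨b, h4⟩
  have h6 := natDegree_le_of_dvd h5 hg0
  omega

end

end Pool.Agent.H527.WS
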