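import Pool.Agent.H527.WS.Stm

set_option autoImplicit false

/-!
# Project WS (helper527), W15: the functional of `b / g` (by helper390)
-/

namespace Pool.Agent.H527.WS

open Polynomial
open scoped Classical

noncomputable section

namespace ExaL

lemma emb_monomial {K : Type} [Field K] (n : ℕ) (a : K) :
    emb (monomial n a) = HahnSeries.single (-(n : ℤ)) a := by
  unfold emb
  rw [coe_eval₂RingHom, eval₂_monomial, HahnSeries.single_pow, HahnSeries.C_apply,
    HahnSeries.single_mul_single, one_pow, mul_one, zero_add]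
  congr 1
  simp

lemma emb_coeff_neg {K : Type} [Field K] (P : K[X]) (n : ℕ) : (emb P).coeff (-(n : ℤ)) = P.coeff n := by
  induction P using Polynomial.induction_on' with
  | add p q hp hq => rw [map_add, HahnSeries.coeff_add, hp, hq, coeff_add]
  | monomial m a =>
    rw [emb_monomial, HahnSeries.coeff_single, coeff_monomial]
    by_cases h : m = n
    · subst h
      rw [if_pos rfl, if_pos rfl]
    · rw [if_neg h, if_neg]
      intro h'
      apply h
      omega

lemma emb_coeff_pos {K : Type} [Field K] (P : K[X]) (i : ℤ) (hi : 0 < i) : (emb P).coeff i = 0 := by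
  induction P using Polynomial.induction_on' with
  | add p q hp hq => rw [map_add, HahnSeries.coeff_add, hp, hq, add_zero]
  | monomial m a =>
    rw [emb_monomial, HahnSeries.coeff_single, if_neg]
    omega

lemma emb_inj {K : Type} [Field K] {P R : K[X]} (h : emb P = emb R) : P = R := by
  ext n
  rw [← emb_coeff_neg, ← emb_coeff_neg, h]

lemma emb_ne {K : Type} [Field K] {P : K[X]} (h : P ≠ 0) : emb P ≠ 0 := by
  intro h'
  apply h
  apply emb_inj
  rw [h', map_zero]

/-- a Laurent series without coefficients at positive indices is a polynomial -/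
lemma exists_poly {K : Type} [Field K] (β : LaurentSeries K) (h : ∀ i : ℤ, 0 < i → β.coeff i = 0) :
    ∃ c : K[X], emb c = β := by
  have hb : ∀ n : ℕ, (-β.order).toNat < n → β.coeff (-(n : ℤ)) = 0 := by
    intro n hn
    apply HahnSeries.coeff_eq_zero_of_lt_order
    omega
  refine ⟨∑ n ∈ Finset.range ((-β.order).toNat + 1), monomial n (β.coeff (-(n : ℤ))), ?_⟩
  ext i
  rcases lt_or_ge 0 i with hi | hi
  · rw [emb_coeff_pos _ _ hi, h i hi]
  · obtain ⟨m, rfl⟩ : ∃ m : ℕ, i = -(m : ℤ) := ⟨(-i).toNat, by omega⟩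
    rw [emb_coeff_neg, finsetSum_coeff]
    by_cases hm : (-β.order).toNat < m
    · rw [hb m hm]
      refine Finset.sum_eq_zero fun n hn => ?_
      rw [coeff_monomial, if_neg]
      have := Finset.mem_range.1 hn
      omega
    · rw [Finset.sum_eq_single m]
      · rw [coeff_monomial, if_pos rfl]
      · intro n _ hnm
        rw [coeff_monomial, if_neg hnm]
      · intro hm'
        exact absurd (Finset.mem_range.2 (by omega)) hm'

lemma fn_apply {K : Type} [Field K] (α : LaurentSeries K) (G : K[X]) : fn α G = (α * emb G).coeff 1 := rfl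

lemma mod_fn {K : Type} [Field K] (b g : K[X]) (hbg : IsCoprime b g) (hg : g ≠ 0) :
    Mod (fn (emb b / emb g)) g := by
  have hg' := emb_ne hg
  refine ⟨hg, ?_, ?_⟩
  · intro y
    rw [fn_apply, map_mul, ← mul_assoc, div_mul_cancel₀ _ hg', ← map_mul]
    exact emb_coeff_pos _ _ one_pos
  · intro y hy
    obtain ⟨c, hc⟩ := exists_poly (emb b * emb y / emb g) (by
      intro i hi
      have h1 := hy (monomial (i - 1).toNat 1)
      rw [fn_apply, map_mul, emb_monomial, ← mul_assoc, HahnSeries.coeff_mul_single, mul_one] at h1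
      have h2 : (1 : ℤ) - -(((i - 1).toNat : ℕ) : ℤ) = i := by omega
      rw [h2] at h1
      rw [mul_div_right_comm]
      exact h1)
    have h3 : b * y = g * c := by
      apply emb_inj
      rw [map_mul, map_mul, hc, mul_div_cancel₀ _ hg']
    exact hbg.symm.dvd_of_dvd_mul_left ⟨c, h3⟩

lemma order_emb_le {K : Type} [Field K] {g : K[X]} (hg : g ≠ 0) : (emb g).order ≤ -(g.natDegree : ℤ) := by
  apply HahnSeries.order_le_of_coeff_ne_zero
  rw [emb_coeff_neg]
  exact leadingCoeff_ne_zero.2 hg

lemma le_order_emb {K : Type} [Field K] {G : K[X]} (hG : G ≠ 0) : -(G.natDegree : ℤ) ≤ (emb G).order := by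
  by_contra hlt
  push Not at hlt
  have h0 : (emb G).coeff (emb G).order ≠ 0 := fun h => emb_ne hG (HahnSeries.coeff_order_eq_zero.1 h)
  apply h0
  obtain ⟨m, hm⟩ : ∃ m : ℕ, (emb G).order = -(m : ℤ) := ⟨(-(emb G).order).toNat, by omega⟩
  rw [hm, emb_coeff_neg]
  apply coeff_eq_zero_of_natDegree_lt
  omega

lemma degree_of_mem_V {K : Type} [Field K] [Fintype K] {n : ℕ} {G : K[X]} (h : G ∈ V K n) : G.degree < n := by
  unfold V at h
  obtain ⟨c, -, rfl⟩ := Finset.mem_image.1 h
  rw [← mem_degreeLT]
  refine Submodule.sum_mem _ fun i _ => mem_degreeLT.2 ?_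
  refine (degree_C_mul_X_pow_le _ _).trans_lt ?_
  exact_mod_cast i.2

end ExaL

open ExaL

theorem exa : S_exa := by
  intro K _ _ α b g r hbg hg hg1 hN
  refine ⟨fn (emb b / emb g), mod_fn b g hbg hg, ?_⟩
  intro G hG
  have hdeg := degree_of_mem_V hG
  have hg' := emb_ne hg
  rw [← sub_eq_zero, fn_apply, fn_apply, ← HahnSeries.coeff_sub, ← sub_mul]
  by_cases hG0 : G = 0
  · rw [hG0, map_zero, mul_zero, HahnSeries.coeff_zero]
  by_cases hr : emb g * α - emb b = 0
  · have : α - emb b / emb g = 0 := by
      rw [sub_eq_zero, eq_div_iff hg', mul_comm]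
      exact sub_eq_zero.1 hr
    rw [this, zero_mul, HahnSeries.coeff_zero]
  have heq : (α - emb b / emb g) * emb G * emb g = (emb g * α - emb b) * emb G := by
    have : emb b / emb g * emb g = emb b := div_mul_cancel₀ _ hg'
    calc _ = (emb g * α - emb b / emb g * emb g) * emb G := by ring
      _ = _ := by rw [this]
  have hne : (emb g * α - emb b) * emb G ≠ 0 := mul_ne_zero hr (emb_ne hG0)
  have hne2 : (α - emb b / emb g) * emb G ≠ 0 := by
    intro h0
    rw [h0, zero_mul] at heq
    exact hne heq.symm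
  have ho := congrArg HahnSeries.order heq
  rw [HahnSeries.order_mul hne2 hg', HahnSeries.order_mul hr (emb_ne hG0)] at ho
  have h1 : (r : ℤ) ≤ (emb g * α - emb b).order := by
    by_contra hlt
    push Not at hlt
    exact hr (HahnSeries.coeff_order_eq_zero.1 (hN _ hlt))
  have h2 := order_emb_le hg
  have h3 := le_order_emb hG0
  have h4 : G.natDegree < g.natDegree + r - 1 := (natDegree_lt_iff_degree_lt hG0).2 hdeg
  apply HahnSeries.coeff_eq_zero_of_lt_order
  omega

end

end Pool.Agent.H527.WS
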