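import Mathlib

/-!
# Weyl sums `∑ ψ(α x^k + ξ(x))`, `k = p^j + 1`, over `F_q[T]`, `q` a power of `p` (helper527): statements

`K` is a finite field, `Q = p^j` a power of its characteristic, `V K n` the polynomials of degree `< n`.
`A : K[X] →ₗ[K] K` is the functional `G ↦ res(α G)`.
-/

set_option autoImplicit false

namespace Pool.Agent.H527.WS

open Polynomial
open scoped Classical

noncomputable section

/-- The polynomials of degree `< n`. -/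
def V (K : Type) [Field K] [Fintype K] (n : ℕ) : Finset K[X] :=
  Finset.univ.image (fun c : Fin n → K => ∑ i : Fin n, C (c i) * X ^ (i : ℕ))

/-- `K` has characteristic `p` and `Q = p ^ j`, `j ≥ 1`. -/
def PQ (K : Type) [Field K] (Q : ℕ) : Prop := ∃ p j : ℕ, p.Prime ∧ CharP K p ∧ 1 ≤ j ∧ Q = p ^ j

/-- The Weyl sum. -/
def S {K : Type} [Field K] [Fintype K] (ψ : AddChar K ℂ) (Q n : ℕ) (A : K[X] →ₗ[K] K) (ξ : K[X] →+ K) : ℂ :=
  ∑ x ∈ V K n, ψ (A (x ^ (Q + 1)) + ξ x)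

/-- The set `W`: the `h` of degree `< m` with `ψ(A(x^Q h + x h^Q)) = 1` for all `x` of degree `< n`. -/
def W {K : Type} [Field K] [Fintype K] (ψ : AddChar K ℂ) (Q : ℕ) (A : K[X] →ₗ[K] K) (m n : ℕ) : Finset K[X] :=
  (V K m).filter (fun h => ∀ x ∈ V K n, ψ (A (x ^ Q * h + x * h ^ Q)) = 1)

/-- **W1.** Weyl's step. -/
def S_sq : Prop :=
  ∀ (K : Type) [Field K] [Fintype K] (ψ : AddChar K ℂ) (Q n : ℕ) (A : K[X] →ₗ[K] K) (ξ : K[X] →+ K), PQ K Q →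
    ‖S ψ Q n A ξ‖ ^ 2 ≤ (Fintype.card K : ℝ) ^ n * ((W ψ Q A n n).card : ℝ)

/-- **W2.** -/
def S_shr : Prop :=
  ∀ (K : Type) [Field K] [Fintype K] (ψ : AddChar K ℂ) (Q m n t : ℕ) (A : K[X] →ₗ[K] K), PQ K Q → m ≤ n →
    (W ψ Q A n t).card ≤ Fintype.card K ^ (n - m) * (W ψ Q A m t).card

/-- **W3.** -/
def S_ext : Prop :=
  ∀ (K : Type) [Field K] [Fintype K] (ψ : AddChar K ℂ) (Q m n M : ℕ) (A : K[X] →ₗ[K] K), PQ K Q →
    (W ψ Q A m n).card ≤ Fintype.card K ^ M * (W ψ Q A m (n + M)).card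

/-- **W4.** Transfer of relations. -/
def S_rel : Prop :=
  ∀ (K : Type) [Field K] [Fintype K] (ψ : AddChar K ℂ) (Q m n M : ℕ) (A : K[X] →ₗ[K] K), PQ K Q → ψ ≠ 1 →
    M ≤ n → ∀ (s : ℕ) (h c : Fin s → K[X]), (∀ i, h i ∈ W ψ Q A m n) → (∀ i, c i ∈ V K M) →
      ∑ i, c i ^ Q * h i = 0 → ∀ y ∈ V K (n - M), A (y * ∑ i, c i * h i ^ Q) = 0

/-- The Hankel form of `A` on the polynomials of degree `< D` is nonsingular. -/
def Nonsing {K : Type} [Field K] [Fintype K] (A : K[X] →ₗ[K] K) (D : ℕ) : Prop :=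
  ∀ G ∈ V K D, (∀ y ∈ V K D, A (y * G) = 0) → G = 0

/-- **W5.** Few linearly independent elements of `W`. -/
def S_ind : Prop :=
  ∀ (K : Type) [Field K] [Fintype K] (ψ : AddChar K ℂ) (Q m n D l : ℕ) (A : K[X] →ₗ[K] K), PQ K Q → ψ ≠ 1 →
    Nonsing A D → Q * m + Q ^ (2 * l) ≤ D → D + Q ^ (2 * l) ≤ n →
    ∀ (s : ℕ) (h : Fin s → K[X]), (∀ i, h i ∈ W ψ Q A m n) → LinearIndependent K h →
      Q ^ l * s ≤ m + Q ^ (2 * l + 1)

/-- **W6.** -/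
def S_sml : Prop :=
  ∀ (K : Type) [Field K] [Fintype K] (ψ : AddChar K ℂ) (Q m n D l : ℕ) (A : K[X] →ₗ[K] K), PQ K Q → ψ ≠ 1 →
    Nonsing A D → Q * m + Q ^ (2 * l) ≤ D → D + Q ^ (2 * l) ≤ n →
    (W ψ Q A m n).card ≤ Fintype.card K ^ ((m + Q ^ (2 * l + 1)) / Q ^ l)

/-- **W7.** The first bound. -/
def S_one : Prop :=
  ∀ (K : Type) [Field K] [Fintype K] (ψ : AddChar K ℂ) (Q : ℕ), PQ K Q → ψ ≠ 1 →
    ∀ ε : ℝ, 0 < ε → ∃ C : ℝ, 0 < C ∧ ∀ (n D : ℕ) (A : K[X] →ₗ[K] K), D ≤ n → Nonsing A D →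
      ((W ψ Q A n n).card : ℝ) ≤ C * (Fintype.card K : ℝ) ^ ((n : ℝ) - (1 - ε) * D / Q)

/-! ### complete sums -/

/-- `A` is the functional of a fraction with the exact denominator `g`. -/
def Mod {K : Type} [Field K] (A : K[X] →ₗ[K] K) (g : K[X]) : Prop :=
  g ≠ 0 ∧ (∀ y, A (g * y) = 0) ∧ ∀ y, (∀ z, A (y * z) = 0) → g ∣ y

/-- The complete version of `W`. -/
def WG {K : Type} [Field K] [Fintype K] (ψ : AddChar K ℂ) (Q : ℕ) (A : K[X] →ₗ[K] K) (g : K[X]) : Finset K[X] :=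
  (V K g.natDegree).filter (fun h => ∀ x : K[X], ψ (A (x ^ Q * h + x * h ^ Q)) = 1)

/-- **W8.** Reduction of the modulus by `P ^ (Q + 1)`. -/
def S_stp : Prop :=
  ∀ (K : Type) [Field K] [Fintype K] (ψ : AddChar K ℂ) (Q : ℕ), PQ K Q → ψ ≠ 1 →
    ∀ (P : K[X]) (e : ℕ) (A : K[X] →ₗ[K] K), P.Monic → Irreducible P → Q + 1 ≤ e → Mod A (P ^ e) →
      ∃ B : K[X] →ₗ[K] K, Mod B (P ^ (e - (Q + 1))) ∧
        (WG ψ Q A (P ^ e)).card ≤ Fintype.card K ^ (P.natDegree * (Q - 1)) * (WG ψ Q B (P ^ (e - (Q + 1)))).card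

/-- **W9.** Small exponents. -/
def S_bas : Prop :=
  ∀ (K : Type) [Field K] [Fintype K] (ψ : AddChar K ℂ) (Q : ℕ), PQ K Q → ψ ≠ 1 →
    ∀ (P : K[X]) (e : ℕ) (A : K[X] →ₗ[K] K), P.Monic → Irreducible P → e ≤ Q → Mod A (P ^ e) →
      (e ≤ 1 → (WG ψ Q A (P ^ e)).card ≤ Q ^ 2) ∧
      (2 ≤ e → (WG ψ Q A (P ^ e)).card ≤ Fintype.card K ^ (P.natDegree * (e - 2)))

/-- **W10.** Prime powers. -/
def S_loc : Prop :=
  ∀ (K : Type) [Field K] [Fintype K] (ψ : AddChar K ℂ) (Q : ℕ), PQ K Q → ψ ≠ 1 →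
    ∀ (P : K[X]) (e : ℕ) (A : K[X] →ₗ[K] K), P.Monic → Irreducible P → Mod A (P ^ e) →
      (WG ψ Q A (P ^ e)).card ^ (Q + 1) ≤ (Q ^ 2) ^ (Q + 1) * Fintype.card K ^ (P.natDegree * e * (Q - 1))

/-- **W11.** Multiplicativity. -/
def S_crt : Prop :=
  ∀ (K : Type) [Field K] [Fintype K] (ψ : AddChar K ℂ) (Q : ℕ), PQ K Q →
    ∀ (g₁ g₂ : K[X]) (A : K[X] →ₗ[K] K), IsCoprime g₁ g₂ → Mod A (g₁ * g₂) →
      ∃ A₁ A₂ : K[X] →ₗ[K] K, Mod A₁ g₁ ∧ Mod A₂ g₂ ∧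
        (WG ψ Q A (g₁ * g₂)).card ≤ (WG ψ Q A₁ g₁).card * (WG ψ Q A₂ g₂).card

/-- **W12.** All moduli. -/
def S_glo : Prop :=
  ∀ (K : Type) [Field K] [Fintype K] (ψ : AddChar K ℂ) (Q : ℕ), PQ K Q → ψ ≠ 1 →
    ∀ ε : ℝ, 0 < ε → ∃ C : ℝ, 0 < C ∧ ∀ (g : K[X]) (A : K[X] →ₗ[K] K), Mod A g →
      ((WG ψ Q A g).card : ℝ) ≤ C * (Fintype.card K : ℝ) ^ ((g.natDegree : ℝ) * (1 - 2 / (Q + 1) + ε))

/-- **W13.** The second bound. -/
def S_two : Prop :=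
  ∀ (K : Type) [Field K] [Fintype K] (ψ : AddChar K ℂ) (Q : ℕ), PQ K Q → ψ ≠ 1 →
    ∀ ε : ℝ, 0 < ε → ∃ C : ℝ, 0 < C ∧ ∀ (n : ℕ) (g : K[X]) (A B : K[X] →ₗ[K] K), g.natDegree ≤ n → Mod B g →
      (∀ G ∈ V K ((Q + 1) * g.natDegree - 1), A G = B G) →
      ((W ψ Q A n n).card : ℝ) ≤ C * (Fintype.card K : ℝ) ^ ((n : ℝ) - (g.natDegree : ℝ) * (2 / (Q + 1) - ε))

/-! ### Laurent series in `1/T` -/

/-- The embedding of `K[T]` into the Laurent series in `1/T` (`X` of `LaurentSeries K` is `1/T`). -/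
def emb {K : Type} [Field K] : K[X] →+* LaurentSeries K :=
  eval₂RingHom HahnSeries.C (HahnSeries.single (-1 : ℤ) (1 : K))

/-- `G ↦ res(α G)`, the coefficient of `1/T`. -/
def fn {K : Type} [Field K] (α : LaurentSeries K) : K[X] →ₗ[K] K where
  toFun G := (α * emb G).coeff 1
  map_add' x y := by rw [map_add, mul_add]; rfl
  map_smul' c x := by
    rw [smul_eq_C_mul, map_mul, show emb (C c) = HahnSeries.C c by simp [emb], mul_left_comm, HahnSeries.C_mul_eq_smul]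
    rfl

/-- `|g α - b| ≤ q^(-r)`, that is `|α - b/g| ≤ |g|⁻¹ q^(-r)`. -/
def Near {K : Type} [Field K] (α : LaurentSeries K) (b g : K[X]) (r : ℕ) : Prop :=
  ∀ i : ℤ, i < r → (emb g * α - emb b).coeff i = 0

/-- **W14.** -/
def S_lau : Prop :=
  ∀ (K : Type) [Field K] [Fintype K] (α : LaurentSeries K) (b g : K[X]), IsCoprime b g → g ≠ 0 →
    Near α b g g.natDegree → Nonsing (fn α) g.natDegree

/-- **W15.** -/
def S_exa : Prop :=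
  ∀ (K : Type) [Field K] [Fintype K] (α : LaurentSeries K) (b g : K[X]) (r : ℕ), IsCoprime b g → g ≠ 0 →
    1 ≤ g.natDegree → Near α b g r → ∃ B : K[X] →ₗ[K] K, Mod B g ∧
      ∀ G ∈ V K (g.natDegree + r - 1), fn α G = B G

/-- **W16.** Dirichlet's theorem and the comparison of two approximations. -/
def S_dir : Prop :=
  ∀ (K : Type) [Field K] [Fintype K] (α : LaurentSeries K) (n : ℕ),
    ∃ b g : K[X], IsCoprime b g ∧ g ≠ 0 ∧ g.natDegree ≤ n ∧ Near α b g (n + 1) ∧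
      ∀ b' g' : K[X], IsCoprime b' g' → g' ≠ 0 → g'.natDegree ≤ n → Near α b' g' g'.natDegree →
        g'.natDegree ≤ g.natDegree

/-- **W17.** The exponent `1/k` is attained. -/
def S_opt : Prop :=
  ∀ (K : Type) [Field K] [Fintype K] (ψ : AddChar K ℂ) (Q : ℕ), PQ K Q → ψ ≠ 1 →
    ∀ (P : K[X]) (n : ℕ) (A : K[X] →ₗ[K] K), P.Monic → Irreducible P → (Q + 1) * P.natDegree ≤ n →
      Mod A (P ^ (Q + 1)) →
      S ψ Q n A 0 = (Fintype.card K : ℂ) ^ (n - P.natDegree)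

end

end Pool.Agent.H527.WS
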