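import Mathlib
import Pool.Agent.H527.WS.Stm

set_option autoImplicit false

namespace Pool.Agent.H527.WS

open Polynomial
open scoped Classical

namespace GloAux

variable {K : Type} [Field K] [Fintype K]

lemma mem_V_of {n : ℕ} {P : K[X]} (h : P.natDegree < n) : P ∈ V K n := by
  rw [V, Finset.mem_image]
  refine ⟨fun i => P.coeff i, Finset.mem_univ _, ?_⟩
  rw [Fin.sum_univ_eq_sum_range (fun i => C (P.coeff i) * X ^ i) n]
  exact (P.as_sum_range_C_mul_X_pow' h).symm

lemma card_WG_unit (ψ : AddChar K ℂ) (Q : ℕ) (A : K[X] →ₗ[K] K) {g : K[X]}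
    (h : g.natDegree = 0) : (WG ψ Q A g).card ≤ 1 := by
  refine (Finset.card_filter_le _ _).trans ?_
  rw [h]
  refine Finset.card_image_le.trans ?_
  simp

lemma Mod_assoc {A : K[X] →ₗ[K] K} {g g' : K[X]} (h : Associated g g') (hA : Mod A g) :
    Mod A g' := by
  obtain ⟨u, rfl⟩ := h
  refine ⟨mul_ne_zero hA.1 u.ne_zero, fun y => ?_, fun y hy => ?_⟩
  · rw [mul_assoc]
    exact hA.2.1 _
  · exact Units.mul_right_dvd.2 (hA.2.2 y hy)

lemma WG_congr (ψ : AddChar K ℂ) (Q : ℕ) (A : K[X] →ₗ[K] K) {g g' : K[X]}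
    (h : g.natDegree = g'.natDegree) : WG ψ Q A g = WG ψ Q A g' := by
  rw [WG, WG, h]

lemma natDegree_assoc {g g' : K[X]} (h : Associated g g') : g.natDegree = g'.natDegree :=
  natDegree_eq_of_degree_eq (degree_eq_degree_of_associated h)

lemma loc_real (h1 : S_loc) (ψ : AddChar K ℂ) {Q : ℕ} (hQ : PQ K Q) (hQ2 : 2 ≤ Q) (hψ : ψ ≠ 1)
    (P : K[X]) (e : ℕ) (A : K[X] →ₗ[K] K) (hP : P.Monic) (hi : Irreducible P)
    (hM : Mod A (P ^ e)) :
    ((WG ψ Q A (P ^ e)).card : ℝ) ≤ (Q : ℝ) ^ 2 * (Fintype.card K : ℝ) ^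
      (((P.natDegree * e : ℕ) : ℝ) * (1 - 2 / ((Q : ℝ) + 1))) := by
  have h := h1 K ψ Q hQ hψ P e A hP hi hM
  have hq0 : (0 : ℝ) ≤ (Fintype.card K : ℝ) := Nat.cast_nonneg _
  rw [← pow_le_pow_iff_left₀ (Nat.cast_nonneg _) (by positivity) (Nat.succ_ne_zero Q), mul_pow,
    ← Real.rpow_natCast ((Fintype.card K : ℝ) ^ _) (Q + 1), ← Real.rpow_mul hq0]
  have hexp : ((P.natDegree * e : ℕ) : ℝ) * (1 - 2 / ((Q : ℝ) + 1)) * ((Q + 1 : ℕ) : ℝ) =
      ((P.natDegree * e * (Q - 1) : ℕ) : ℝ) := by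
    have hQ0 : (Q : ℝ) + 1 ≠ 0 := by positivity
    have hsub : ((Q - 1 : ℕ) : ℝ) = (Q : ℝ) - 1 := by
      rw [Nat.cast_sub (by omega), Nat.cast_one]
    push_cast
    rw [hsub]
    field_simp
    ring
  rw [hexp, Real.rpow_natCast]
  exact_mod_cast h

end GloAux

open GloAux

theorem glo (h1 : S_loc) (h2 : S_crt) : S_glo := by
  intro K _ _ ψ Q hQ hψ ε hε
  have hq1 : (1 : ℝ) < (Fintype.card K : ℝ) := by exact_mod_cast Fintype.one_lt_card
  have hq0 : (0 : ℝ) < (Fintype.card K : ℝ) := by linarith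
  have hQ2 : 2 ≤ Q := by
    obtain ⟨p, j, hp, _, hj, rfl⟩ := hQ
    calc 2 ≤ p := hp.two_le
      _ = p ^ 1 := (pow_one p).symm
      _ ≤ p ^ j := Nat.pow_le_pow_right hp.pos hj
  have hQr : (1 : ℝ) ≤ (Q : ℝ) ^ 2 := by
    have : (1 : ℝ) ≤ (Q : ℝ) := by exact_mod_cast (by omega : 1 ≤ Q)
    exact one_le_pow₀ this
  obtain ⟨L, hL⟩ : ∃ L : ℕ, (Q : ℝ) ^ 2 ≤ (Fintype.card K : ℝ) ^ (ε * L) := by
    have h3 : 1 < (Fintype.card K : ℝ) ^ ε := Real.one_lt_rpow hq1 hε
    obtain ⟨L, hL⟩ := pow_unbounded_of_one_lt ((Q : ℝ) ^ 2) h3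
    refine ⟨L, ?_⟩
    rw [Real.rpow_mul hq0.le, Real.rpow_natCast]
    exact hL.le
  let F : Finset K[X] := (V K (L + 1)).filter (fun P => P.Monic ∧ Irreducible P)
  let N : K[X] → ℕ := fun g => (F.filter (fun P => P ∣ g)).card
  have key : ∀ g : K[X], ∀ A : K[X] →ₗ[K] K, Mod A g →
      ((WG ψ Q A g).card : ℝ) ≤ ((Q : ℝ) ^ 2) ^ (N g) *
        (Fintype.card K : ℝ) ^ ((g.natDegree : ℝ) * (1 - 2 / ((Q : ℝ) + 1) + ε)) := by
    intro g
    have hunit : ∀ x : K[X], IsUnit x → ∀ A : K[X] →ₗ[K] K, Mod A x →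
      ((WG ψ Q A x).card : ℝ) ≤ ((Q : ℝ) ^ 2) ^ (N x) *
        (Fintype.card K : ℝ) ^ ((x.natDegree : ℝ) * (1 - 2 / ((Q : ℝ) + 1) + ε)) := by
      intro x hx A _
      have hd : x.natDegree = 0 := natDegree_eq_zero_of_isUnit hx
      have h3 : ((WG ψ Q A x).card : ℝ) ≤ 1 := by exact_mod_cast card_WG_unit ψ Q A hd
      have h4 : (1 : ℝ) ≤ ((Q : ℝ) ^ 2) ^ (N x) := one_le_pow₀ hQr
      rw [hd, Nat.cast_zero, zero_mul, Real.rpow_zero, mul_one]
      exact h3.trans h4
    induction g using UniqueFactorizationMonoid.induction_on_coprime with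
    | h0 => exact fun A hA => absurd rfl hA.1
    | h1 hx => exact hunit _ hx
    | @hpr p i hp =>
      intro A hA
      rcases Nat.eq_zero_or_pos i with rfl | hi
      · rw [pow_zero] at hA ⊢
        exact hunit 1 isUnit_one A hA
      have hass : Associated p (normalize p) := associated_normalize p
      have hPirr : Irreducible (normalize p) := (hass.irreducible_iff).1 hp.irreducible
      have hPmon : (normalize p).Monic := monic_normalize hp.ne_zero
      have hassi : Associated (p ^ i) ((normalize p) ^ i) := hass.pow_pow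
      have hM := Mod_assoc hassi hA
      have hloc := loc_real h1 ψ hQ hQ2 hψ (normalize p) i A hPmon hPirr hM
      have hdeg : (p ^ i).natDegree = (normalize p).natDegree * i := by
        rw [natDegree_assoc hassi, natDegree_pow, mul_comm]
      rw [WG_congr ψ Q A (natDegree_assoc hassi), hdeg]
      refine hloc.trans ?_
      have hD0 : (0 : ℝ) ≤ (((normalize p).natDegree * i : ℕ) : ℝ) := Nat.cast_nonneg _
      rw [mul_add, Real.rpow_add hq0]
      by_cases hdL : (normalize p).natDegree ≤ L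
      · have hmem : normalize p ∈ F.filter (fun P => P ∣ p ^ i) := by
          refine Finset.mem_filter.2 ⟨Finset.mem_filter.2 ⟨mem_V_of (by omega), hPmon, hPirr⟩, ?_⟩
          exact (hass.symm.dvd).trans (dvd_pow_self p hi.ne')
        have hN : 1 ≤ N (p ^ i) := Finset.card_pos.2 ⟨_, hmem⟩
        have h5 : (Q : ℝ) ^ 2 ≤ ((Q : ℝ) ^ 2) ^ (N (p ^ i)) := by
          calc (Q : ℝ) ^ 2 = ((Q : ℝ) ^ 2) ^ 1 := (pow_one _).symm
            _ ≤ ((Q : ℝ) ^ 2) ^ (N (p ^ i)) := pow_le_pow_right₀ hQr hN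
        have h6 : (1 : ℝ) ≤ (Fintype.card K : ℝ) ^
            ((((normalize p).natDegree * i : ℕ) : ℝ) * ε) :=
          Real.one_le_rpow hq1.le (mul_nonneg hD0 hε.le)
        have h7 : (0 : ℝ) ≤ (Fintype.card K : ℝ) ^
            ((((normalize p).natDegree * i : ℕ) : ℝ) * (1 - 2 / ((Q : ℝ) + 1))) :=
          Real.rpow_nonneg hq0.le _
        calc _ ≤ ((Q : ℝ) ^ 2) ^ (N (p ^ i)) * (Fintype.card K : ℝ) ^
            ((((normalize p).natDegree * i : ℕ) : ℝ) * (1 - 2 / ((Q : ℝ) + 1))) :=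
              mul_le_mul_of_nonneg_right h5 h7
          _ ≤ _ := by
            refine mul_le_mul_of_nonneg_left ?_ (by positivity)
            exact le_mul_of_one_le_right h7 h6
      · have h5 : (Q : ℝ) ^ 2 ≤ (Fintype.card K : ℝ) ^
            ((((normalize p).natDegree * i : ℕ) : ℝ) * ε) := by
          refine hL.trans (Real.rpow_le_rpow_of_exponent_le hq1.le ?_)
          rw [mul_comm ε]
          refine mul_le_mul_of_nonneg_right ?_ hε.le
          have : L ≤ (normalize p).natDegree * i := by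
            calc L ≤ (normalize p).natDegree := by omega
              _ ≤ (normalize p).natDegree * i := Nat.le_mul_of_pos_right _ hi
          exact_mod_cast this
        have h6 : (1 : ℝ) ≤ ((Q : ℝ) ^ 2) ^ (N (p ^ i)) := one_le_pow₀ hQr
        have h7 : (0 : ℝ) ≤ (Fintype.card K : ℝ) ^
            ((((normalize p).natDegree * i : ℕ) : ℝ) * (1 - 2 / ((Q : ℝ) + 1))) :=
          Real.rpow_nonneg hq0.le _
        calc _ ≤ (Fintype.card K : ℝ) ^
            ((((normalize p).natDegree * i : ℕ) : ℝ) * ε) * (Fintype.card K : ℝ) ^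
            ((((normalize p).natDegree * i : ℕ) : ℝ) * (1 - 2 / ((Q : ℝ) + 1))) :=
              mul_le_mul_of_nonneg_right h5 h7
          _ = 1 * ((Fintype.card K : ℝ) ^
            ((((normalize p).natDegree * i : ℕ) : ℝ) * (1 - 2 / ((Q : ℝ) + 1))) *
              (Fintype.card K : ℝ) ^
            ((((normalize p).natDegree * i : ℕ) : ℝ) * ε)) := by ring
          _ ≤ _ := mul_le_mul_of_nonneg_right h6 (by positivity)
    | @hcp x y hxy hx hy =>
      intro A hA
      have hx0 : x ≠ 0 := left_ne_zero_of_mul hA.1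
      have hy0 : y ≠ 0 := right_ne_zero_of_mul hA.1
      obtain ⟨A₁, A₂, hA₁, hA₂, hle⟩ := h2 K ψ Q hQ x y A hxy.isCoprime hA
      have hN : N x + N y ≤ N (x * y) := by
        have hdisj : Disjoint (F.filter (fun P => P ∣ x)) (F.filter (fun P => P ∣ y)) := by
          rw [Finset.disjoint_left]
          intro P hPx hPy
          have h3 := (Finset.mem_filter.1 hPx)
          have h4 := (Finset.mem_filter.1 hPy)
          exact (Finset.mem_filter.1 h3.1).2.2.not_isUnit (hxy h3.2 h4.2)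
        calc N x + N y = ((F.filter (fun P => P ∣ x)) ∪ (F.filter (fun P => P ∣ y))).card :=
              (Finset.card_union_of_disjoint hdisj).symm
          _ ≤ N (x * y) := by
            refine Finset.card_le_card fun P hP => ?_
            rcases Finset.mem_union.1 hP with h | h
            · have h3 := Finset.mem_filter.1 h
              exact Finset.mem_filter.2 ⟨h3.1, h3.2.mul_right y⟩
            · have h3 := Finset.mem_filter.1 h
              exact Finset.mem_filter.2 ⟨h3.1, h3.2.mul_left x⟩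
      have h3 : ((WG ψ Q A (x * y)).card : ℝ) ≤
          ((WG ψ Q A₁ x).card : ℝ) * ((WG ψ Q A₂ y).card : ℝ) := by exact_mod_cast hle
      have hdeg : ((x * y).natDegree : ℝ) = (x.natDegree : ℝ) + (y.natDegree : ℝ) := by
        rw [natDegree_mul hx0 hy0]
        push_cast
        rfl
      rw [hdeg, add_mul, Real.rpow_add hq0]
      calc _ ≤ ((WG ψ Q A₁ x).card : ℝ) * ((WG ψ Q A₂ y).card : ℝ) := h3
        _ ≤ (((Q : ℝ) ^ 2) ^ (N x) *
          (Fintype.card K : ℝ) ^ ((x.natDegree : ℝ) * (1 - 2 / ((Q : ℝ) + 1) + ε))) *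
          (((Q : ℝ) ^ 2) ^ (N y) *
          (Fintype.card K : ℝ) ^ ((y.natDegree : ℝ) * (1 - 2 / ((Q : ℝ) + 1) + ε))) :=
            mul_le_mul (hx A₁ hA₁) (hy A₂ hA₂) (Nat.cast_nonneg _) (by positivity)
        _ = ((Q : ℝ) ^ 2) ^ (N x + N y) *
          ((Fintype.card K : ℝ) ^ ((x.natDegree : ℝ) * (1 - 2 / ((Q : ℝ) + 1) + ε)) *
          (Fintype.card K : ℝ) ^ ((y.natDegree : ℝ) * (1 - 2 / ((Q : ℝ) + 1) + ε))) := by
            rw [pow_add]; ring
        _ ≤ _ := mul_le_mul_of_nonneg_right (pow_le_pow_right₀ hQr hN) (by positivity)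
  refine ⟨((Q : ℝ) ^ 2) ^ F.card, by positivity, fun g A hA => ?_⟩
  refine (key g A hA).trans ?_
  refine mul_le_mul_of_nonneg_right (pow_le_pow_right₀ hQr ?_) (Real.rpow_nonneg hq0.le _)
  exact Finset.card_le_card (Finset.filter_subset _ _)

end Pool.Agent.H527.WS
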