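import Pool.Agent.H527.WS.Stm

/-!
# Task WS-Lau of the project WS (helper527), proved by helper97: the Hankel form of a Laurent series
-/

set_option autoImplicit false

namespace Pool.Agent.H527.WS

open Polynomial
open scoped Classical

namespace Lau

variable {K : Type} [Field K]

theorem emb_monomial (n : ℕ) (a : K) :
    emb (monomial n a) = HahnSeries.single (-(n : ℤ)) a := by
  rw [← C_mul_X_pow_eq_monomial, map_mul, map_pow]
  have h1 : emb (C a : K[X]) = HahnSeries.C a := by simp [emb]
  have h2 : emb (X : K[X]) = HahnSeries.single (-1 : ℤ) (1 : K) := by simp [emb]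
  rw [h1, h2, HahnSeries.single_pow, one_pow]
  show HahnSeries.single 0 a * HahnSeries.single (n • (-1 : ℤ)) (1 : K) = _
  rw [HahnSeries.single_mul_single, zero_add, mul_one]
  congr 2
  rw [nsmul_eq_mul]
  ring

theorem emb_mul_coeff (P : K[X]) (f : LaurentSeries K) (i : ℤ) :
    (emb P * f).coeff i = P.sum fun n a => a * f.coeff (i + n) := by
  induction P using Polynomial.induction_on' with
  | add p q hp hq =>
    rw [map_add, add_mul, HahnSeries.coeff_add, hp, hq, Polynomial.sum_add_index]
    · intro n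
      rw [zero_mul]
    · intro n a b
      rw [add_mul]
  | monomial n a =>
    have hs : (monomial n a : K[X]).sum (fun n a => a * f.coeff (i + n)) = a * f.coeff (i + n) :=
      Polynomial.sum_monomial_index a (fun n a => a * f.coeff (i + n)) (zero_mul _)
    rw [emb_monomial, hs]
    have h := HahnSeries.coeff_single_mul_add (r := a) (x := f) (a := i + n) (b := -(n : ℤ))
    rw [add_neg_cancel_right] at h
    exact h

/-- no coefficients below `r` -/
def Hi (f : LaurentSeries K) (r : ℤ) : Prop := ∀ i, i < r → f.coeff i = 0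

theorem hi_mul {P : K[X]} {f : LaurentSeries K} {r : ℤ} (h : Hi f r) :
    Hi (emb P * f) (r - P.natDegree) := by
  intro i hi
  rw [emb_mul_coeff, Polynomial.sum_def]
  refine Finset.sum_eq_zero fun n hn => ?_
  have h1 : n ≤ P.natDegree := le_natDegree_of_mem_supp n hn
  rw [h (i + n) (by omega), mul_zero]

theorem emb_coeff_neg (P : K[X]) (n : ℕ) : (emb P).coeff (-(n : ℤ)) = P.coeff n := by
  have h := emb_mul_coeff P 1 (-(n : ℤ))
  rw [mul_one] at h
  rw [h, Polynomial.sum_def]
  have e : ∀ m ∈ P.support, P.coeff m * (1 : LaurentSeries K).coeff (-(n : ℤ) + m) =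
      if m = n then P.coeff m else 0 := by
    intro m _
    rw [HahnSeries.coeff_one]
    by_cases hmn : m = n
    · subst hmn
      rw [if_pos (by omega), if_pos rfl, mul_one]
    · rw [if_neg (by omega), if_neg hmn, mul_zero]
  rw [Finset.sum_congr rfl e, Finset.sum_ite_eq' P.support n]
  by_cases hn : n ∈ P.support
  · rw [if_pos hn]
  · rw [if_neg hn]
    exact (notMem_support_iff.1 hn).symm

theorem emb_coeff_pos (P : K[X]) {i : ℤ} (hi : 0 < i) : (emb P).coeff i = 0 := by
  have h := emb_mul_coeff P 1 i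
  rw [mul_one] at h
  rw [h, Polynomial.sum_def]
  refine Finset.sum_eq_zero fun m _ => ?_
  rw [HahnSeries.coeff_one, if_neg (by omega), mul_zero]

/-- the polynomial part -/
theorem exists_part (β : LaurentSeries K) : ∃ c : K[X], ∀ n : ℕ, c.coeff n = β.coeff (-(n : ℤ)) := by
  refine ⟨∑ n ∈ Finset.range ((-β.order).toNat + 1), monomial n (β.coeff (-(n : ℤ))), fun n => ?_⟩
  rw [finsetSum_coeff]
  simp only [coeff_monomial]
  rw [Finset.sum_ite_eq' (Finset.range ((-β.order).toNat + 1)) n]
  split_ifs with h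
  · rfl
  · rw [Finset.mem_range] at h
    refine (HahnSeries.coeff_eq_zero_of_lt_order ?_).symm
    omega

variable [Fintype K]

theorem deg_of_mem {n : ℕ} {f : K[X]} (h : f ∈ V K n) : f.degree < n := by
  unfold V at h
  obtain ⟨c, -, rfl⟩ := Finset.mem_image.1 h
  exact degree_sum_fin_lt c

theorem pow_mem {n t : ℕ} (h : t < n) : (X ^ t : K[X]) ∈ V K n := by
  unfold V
  refine Finset.mem_image.2 ⟨fun i => if (i : ℕ) = t then 1 else 0, Finset.mem_univ _, ?_⟩
  rw [Finset.sum_eq_single (⟨t, h⟩ : Fin n)]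
  · simp
  · intro j _ hj
    have : (j : ℕ) ≠ t := fun h' => hj (Fin.ext h')
    show C (if (j : ℕ) = t then (1 : K) else 0) * X ^ (j : ℕ) = 0
    rw [if_neg this, C_0, zero_mul]
  · intro h'
    exact absurd (Finset.mem_univ _) h'

end Lau

open Lau in
theorem lau : S_lau := by
  intro K _ _ α b g hbg hg hnear G hG hy
  have hGd := deg_of_mem hG
  by_contra hG0
  have hGn : G.natDegree < g.natDegree := by
    rw [degree_eq_natDegree hG0] at hGd
    exact_mod_cast hGd
  set β : LaurentSeries K := α * emb G with hβ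
  -- the vanishing coefficients
  have h1 : ∀ t : ℕ, t < g.natDegree → β.coeff (1 + t) = 0 := by
    intro t ht
    have h2 := hy (X ^ t) (pow_mem ht)
    have h3 : (α * emb (X ^ t * G)).coeff 1 = 0 := h2
    have h4 : α * emb (X ^ t * G) = emb (X ^ t) * β := by
      rw [map_mul, hβ]
      ring
    have hs : (monomial t (1 : K)).sum (fun n a => a * β.coeff (1 + n)) = 1 * β.coeff (1 + t) :=
      Polynomial.sum_monomial_index (1 : K) (fun n a => a * β.coeff (1 + n)) (zero_mul _)
    rw [h4, emb_mul_coeff, X_pow_eq_monomial, hs, one_mul] at h3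
    exact h3
  obtain ⟨c, hc⟩ := exists_part β
  have hf : Hi (β - emb c) ((g.natDegree : ℤ) + 1) := by
    intro i hi
    rw [HahnSeries.coeff_sub]
    rcases le_or_gt i 0 with h | h
    · obtain ⟨n, hn⟩ : ∃ n : ℕ, i = -(n : ℤ) := ⟨(-i).toNat, by omega⟩
      rw [hn, emb_coeff_neg, hc, sub_self]
    · obtain ⟨t, ht⟩ : ∃ t : ℕ, i = 1 + (t : ℤ) := ⟨(i - 1).toNat, by omega⟩
      rw [emb_coeff_pos c h, sub_zero, ht]
      exact h1 t (by omega)
  have hr : Hi (emb g * α - emb b) (g.natDegree : ℤ) := hnear
  have e : emb (g * c - b * G) =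
      emb G * (emb g * α - emb b) - emb g * (β - emb c) := by
    rw [map_sub, map_mul, map_mul, hβ]
    ring
  have h5 := hi_mul (P := G) hr
  have h6 := hi_mul (P := g) hf
  have h7 : g * c - b * G = 0 := by
    ext n
    rw [coeff_zero, ← emb_coeff_neg, e, HahnSeries.coeff_sub, h5 _ (by omega), h6 _ (by omega),
      sub_zero]
  have h8 : g ∣ b * G := ⟨c, (sub_eq_zero.1 h7).symm⟩
  have h9 : g ∣ G := hbg.symm.dvd_of_dvd_mul_left h8
  have h10 := natDegree_le_of_dvd h9 hG0
  omega

end Pool.Agent.H527.WS
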