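import Pool.Agent.H527.WS.Stm

/-!
# Project WS: prime powers (`S_loc` from `S_stp` and `S_bas`)
-/

set_option autoImplicit false

namespace Pool.Agent.H527.WS

open Polynomial
open scoped Classical

theorem loc (h1 : S_stp) (h2 : S_bas) : S_loc := by
  intro K _ _ ψ Q hQ hψ P e
  have hQ1 : 1 ≤ Q := by
    obtain ⟨p, j, hp, -, -, rfl⟩ := hQ
    exact Nat.one_le_iff_ne_zero.2 (pow_ne_zero _ hp.ne_zero)
  have hq : 1 ≤ Fintype.card K := Fintype.card_pos
  have hQQ : 1 ≤ (Q ^ 2) ^ (Q + 1) := Nat.one_le_iff_ne_zero.2 (pow_ne_zero _ (pow_ne_zero _ (by omega)))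
  induction e using Nat.strong_induction_on with
  | _ e ih =>
    intro A hm hi hA
    by_cases he : Q + 1 ≤ e
    · obtain ⟨B, hB, hw⟩ := h1 K ψ Q hQ hψ P e A hm hi he hA
      have hI := ih (e - (Q + 1)) (by omega) B hm hi hB
      have hexp : P.natDegree * (Q - 1) * (Q + 1) + P.natDegree * (e - (Q + 1)) * (Q - 1) =
          P.natDegree * e * (Q - 1) := by
        obtain ⟨r, rfl⟩ : ∃ r, e = r + (Q + 1) := ⟨e - (Q + 1), by omega⟩
        rw [Nat.add_sub_cancel]
        ring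
      calc (WG ψ Q A (P ^ e)).card ^ (Q + 1)
          ≤ (Fintype.card K ^ (P.natDegree * (Q - 1)) * (WG ψ Q B (P ^ (e - (Q + 1)))).card) ^ (Q + 1) :=
            Nat.pow_le_pow_left hw _
        _ = Fintype.card K ^ (P.natDegree * (Q - 1) * (Q + 1)) *
            (WG ψ Q B (P ^ (e - (Q + 1)))).card ^ (Q + 1) := by rw [mul_pow, ← pow_mul]
        _ ≤ Fintype.card K ^ (P.natDegree * (Q - 1) * (Q + 1)) *
            ((Q ^ 2) ^ (Q + 1) * Fintype.card K ^ (P.natDegree * (e - (Q + 1)) * (Q - 1))) :=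
            Nat.mul_le_mul_left _ hI
        _ = (Q ^ 2) ^ (Q + 1) * Fintype.card K ^ (P.natDegree * e * (Q - 1)) := by
            rw [← hexp, pow_add]
            ring
    · have he' : e ≤ Q := by omega
      have hb := h2 K ψ Q hQ hψ P e A hm hi he' hA
      by_cases he1 : e ≤ 1
      · calc (WG ψ Q A (P ^ e)).card ^ (Q + 1) ≤ (Q ^ 2) ^ (Q + 1) := Nat.pow_le_pow_left (hb.1 he1) _
          _ ≤ (Q ^ 2) ^ (Q + 1) * Fintype.card K ^ (P.natDegree * e * (Q - 1)) :=
            Nat.le_mul_of_pos_right _ (pow_pos (by omega) _)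
      · have hw := hb.2 (by omega)
        have hexp : P.natDegree * (e - 2) * (Q + 1) ≤ P.natDegree * e * (Q - 1) := by
          rw [mul_assoc, mul_assoc]
          apply Nat.mul_le_mul_left
          obtain ⟨r, rfl⟩ : ∃ r, e = r + 2 := ⟨e - 2, by omega⟩
          obtain ⟨t, rfl⟩ : ∃ t, Q = t + 1 := ⟨Q - 1, by omega⟩
          rw [Nat.add_sub_cancel, Nat.add_sub_cancel]
          nlinarith
        calc (WG ψ Q A (P ^ e)).card ^ (Q + 1)
            ≤ (Fintype.card K ^ (P.natDegree * (e - 2))) ^ (Q + 1) := Nat.pow_le_pow_left hw _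
          _ = Fintype.card K ^ (P.natDegree * (e - 2) * (Q + 1)) := (pow_mul _ _ _).symm
          _ ≤ Fintype.card K ^ (P.natDegree * e * (Q - 1)) := Nat.pow_le_pow_right hq hexp
          _ ≤ (Q ^ 2) ^ (Q + 1) * Fintype.card K ^ (P.natDegree * e * (Q - 1)) :=
            Nat.le_mul_of_pos_left _ hQQ

end Pool.Agent.H527.WS
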