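import Pool.Agent.H527.WS.Stm

/-! W7: the first bound. -/

set_option autoImplicit false

namespace Pool.Agent.H527.WS

open Polynomial
open scoped Classical

theorem one_cardV (K : Type) [Field K] [Fintype K] (n : ℕ) :
    (V K n).card ≤ Fintype.card K ^ n := by
  unfold V
  refine Finset.card_image_le.trans ?_
  rw [Finset.card_univ, Fintype.card_fun, Fintype.card_fin]

theorem one_Q {K : Type} [Field K] [Fintype K] {Q : ℕ} (h : PQ K Q) : 2 ≤ Q := by
  obtain ⟨p, j, hp, _, hj, rfl⟩ := h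
  calc 2 ≤ p := hp.two_le
    _ = p ^ 1 := (pow_one p).symm
    _ ≤ p ^ j := Nat.pow_le_pow_right hp.pos hj

theorem one (h1 : S_shr) (h2 : S_ext) (h3 : S_sml) : S_one := by
  intro K _ _ ψ Q hQ hψ ε hε
  have hQ2 := one_Q hQ
  have hQr : (2 : ℝ) ≤ Q := by exact_mod_cast hQ2
  have hq1 : (1 : ℝ) < Fintype.card K := by
    exact_mod_cast Fintype.one_lt_card
  have hq0 : (0 : ℝ) < Fintype.card K := by linarith
  obtain ⟨l, hl⟩ : ∃ l : ℕ, 1 / ε < (Q : ℝ) ^ l := pow_unbounded_of_one_lt _ (by linarith)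
  have hQl : (0 : ℝ) < (Q : ℝ) ^ l := by positivity
  have hl2 : 1 ≤ ε * (Q : ℝ) ^ l := by
    rw [div_lt_iff₀ hε] at hl
    linarith
  set M := Q ^ (2 * l) with hM
  have hM1 : 1 ≤ M := Nat.one_le_pow _ _ (by omega)
  set c0 := 2 * M + 1 + Q ^ (l + 1) with hc0
  refine ⟨(Fintype.card K : ℝ) ^ c0, by positivity, ?_⟩
  intro n D A hD hA
  -- it suffices to bound the exponent
  have key : ∀ E : ℕ, (W ψ Q A n n).card ≤ Fintype.card K ^ E →
      (E : ℝ) ≤ c0 + ((n : ℝ) - (1 - ε) * D / Q) →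
      ((W ψ Q A n n).card : ℝ) ≤ (Fintype.card K : ℝ) ^ c0 *
        (Fintype.card K : ℝ) ^ ((n : ℝ) - (1 - ε) * D / Q) := by
    intro E hE hE2
    rw [← Real.rpow_natCast (Fintype.card K : ℝ) c0, ← Real.rpow_add hq0]
    calc ((W ψ Q A n n).card : ℝ) ≤ (Fintype.card K : ℝ) ^ E := by exact_mod_cast hE
      _ = (Fintype.card K : ℝ) ^ (E : ℝ) := (Real.rpow_natCast _ _).symm
      _ ≤ _ := Real.rpow_le_rpow_of_exponent_le hq1.le hE2
  have hD0 : (0 : ℝ) ≤ (D : ℝ) / Q := by positivity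
  have hMr : (1 : ℝ) ≤ M := by exact_mod_cast hM1
  have hQl1 : (0 : ℝ) ≤ (Q : ℝ) ^ (l + 1) := by positivity
  have hDQ : (1 - ε) * D / Q = (1 - ε) * ((D : ℝ) / Q) := by ring
  by_cases hDM : D < M
  · apply key n ((Finset.card_filter_le _ _).trans (one_cardV K n))
    rw [hDQ, hc0]
    push_cast
    have h4 : (D : ℝ) / Q ≤ M := by
      rw [div_le_iff₀ (by linarith)]
      have : (D : ℝ) ≤ M := by exact_mod_cast hDM.le
      nlinarith
    nlinarith [mul_nonneg hε.le hD0]
  · push Not at hDM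
    set m := (D - M) / Q with hm
    have hm1 : Q * m ≤ D - M := Nat.mul_div_le _ _
    have hm2 : D - M < Q * (m + 1) := by
      have := Nat.lt_mul_div_succ (D - M) (show 0 < Q by omega)
      simpa [Nat.succ_eq_add_one] using this
    have hmD : m ≤ D := by
      calc m ≤ Q * m := Nat.le_mul_of_pos_left m (by omega)
        _ ≤ D := by omega
    have e1 := h2 K ψ Q n n M A hQ
    have e2 := h1 K ψ Q m n (n + M) A hQ (hmD.trans hD)
    have e3 := h3 K ψ Q m (n + M) D l A hQ hψ hA (by omega) (by omega)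
    apply key (M + ((n - m) + (m + Q ^ (2 * l + 1)) / Q ^ l))
    · calc (W ψ Q A n n).card ≤ Fintype.card K ^ M * (W ψ Q A n (n + M)).card := e1
        _ ≤ Fintype.card K ^ M * (Fintype.card K ^ (n - m) * (W ψ Q A m (n + M)).card) :=
          Nat.mul_le_mul_left _ e2
        _ ≤ Fintype.card K ^ M * (Fintype.card K ^ (n - m) *
            Fintype.card K ^ ((m + Q ^ (2 * l + 1)) / Q ^ l)) :=
          Nat.mul_le_mul_left _ (Nat.mul_le_mul_left _ e3)
        _ = _ := by rw [pow_add (Fintype.card K) M, pow_add (Fintype.card K) (n - m)]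
    · have f1 : (((m + Q ^ (2 * l + 1)) / Q ^ l : ℕ) : ℝ) ≤ ε * m + (Q : ℝ) ^ (l + 1) := by
        refine Nat.cast_div_le.trans ?_
        push_cast
        rw [div_le_iff₀ hQl, add_mul, ← pow_add]
        have f2 : (m : ℝ) ≤ ε * m * (Q : ℝ) ^ l := by
          have : (0 : ℝ) ≤ m := Nat.cast_nonneg m
          nlinarith
        have f3 : l + 1 + l = 2 * l + 1 := by ring
        rw [f3]
        linarith
      have f4 : ((n - m : ℕ) : ℝ) = (n : ℝ) - m := by
        rw [Nat.cast_sub (hmD.trans hD)]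
      have f5 : (m : ℝ) ≤ (D : ℝ) / Q := by
        rw [le_div_iff₀ (by linarith)]
        have : m * Q ≤ D := by
          rw [mul_comm]
          omega
        exact_mod_cast this
      have f6 : (D : ℝ) / Q ≤ m + (M + 1) := by
        rw [div_le_iff₀ (by linarith)]
        have h7 : D ≤ Q * (m + 1) + M := by omega
        have h8 : (D : ℝ) ≤ Q * (m + 1) + M := by exact_mod_cast h7
        nlinarith
      push_cast [f4]
      rw [hDQ, hc0]
      push_cast
      have f7 : (0 : ℝ) ≤ ε * ((D : ℝ) / Q - m) := mul_nonneg hε.le (by linarith)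
      nlinarith

end Pool.Agent.H527.WS
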