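import Pool.Agent.H527.WS.Stm

/-!
# Project WS (helper527), part Opt (helper396): the exponent `1/k` is attained
-/

set_option autoImplicit false
set_option linter.unusedSectionVars false

namespace Pool.Agent.H527.WS

open Polynomial
open scoped Classical

noncomputable section

namespace Opt

variable {K : Type} [Field K] [Fintype K]

theorem coeff_sum (n : ℕ) (c : Fin n → K) (k : ℕ) :
    (∑ i : Fin n, C (c i) * X ^ (i : ℕ)).coeff k = if h : k < n then c ⟨k, h⟩ else 0 := by
  rw [finsetSum_coeff]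
  simp only [coeff_C_mul, coeff_X_pow]
  by_cases h : k < n
  · rw [dif_pos h, Finset.sum_eq_single (⟨k, h⟩ : Fin n)]
    · simp
    · intro i _ hi
      have : k ≠ (i : ℕ) := fun e => hi (Fin.ext e.symm)
      rw [if_neg this, mul_zero]
    · intro h'
      exact absurd (Finset.mem_univ _) h'
  · rw [dif_neg h]
    refine Finset.sum_eq_zero fun i _ => ?_
    have : k ≠ (i : ℕ) := fun e => h (e ▸ i.2)
    rw [if_neg this, mul_zero]

theorem mem_V' (n : ℕ) (f : K[X]) : f ∈ V K n ↔ f.degree < n := by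
  unfold V
  rw [Finset.mem_image]
  constructor
  · rintro ⟨c, -, rfl⟩
    exact degree_sum_fin_lt c
  · intro h
    refine ⟨fun i => f.coeff i, Finset.mem_univ _, ?_⟩
    ext k
    rw [coeff_sum]
    split_ifs with hk
    · rfl
    · exact ((degree_lt_iff_coeff_zero f n).1 h k (not_lt.1 hk)).symm

theorem card_V' (n : ℕ) : (V K n).card = Fintype.card K ^ n := by
  unfold V
  rw [Finset.card_image_of_injective, Finset.card_univ, Fintype.card_fun, Fintype.card_fin]
  intro c c' h
  funext i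
  have h1 := congrArg (fun f : K[X] => f.coeff i) h
  simp only [coeff_sum] at h1
  rw [dif_pos i.2, dif_pos i.2] at h1
  exact h1

theorem add_mem (n : ℕ) {x y : K[X]} (hy : y ∈ V K n) : x ∈ V K n ↔ x + y ∈ V K n := by
  rw [mem_V'] at hy
  rw [mem_V', mem_V']
  constructor
  · intro h
    exact lt_of_le_of_lt (degree_add_le x y) (max_lt h hy)
  · intro h
    have h1 : x = (x + y) - y := by ring
    rw [h1]
    exact lt_of_le_of_lt (degree_sub_le _ _) (max_lt h hy)

theorem sum_shift (n : ℕ) {y : K[X]} (hy : y ∈ V K n) (f : K[X] → ℂ) :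
    ∑ x ∈ V K n, f (x + y) = ∑ x ∈ V K n, f x :=
  Finset.sum_equiv (Equiv.addRight y) (fun _ => add_mem n hy) fun _ _ => rfl

/-- sums of an additive character -/
theorem sum_char (ψ : AddChar K ℂ) (hψ : ψ ≠ 1) (d : ℕ) (B : K[X] →ₗ[K] K) :
    ∑ z ∈ V K d, ψ (B z) = if ∀ z ∈ V K d, B z = 0 then (Fintype.card K : ℂ) ^ d else 0 := by
  split_ifs with h
  · rw [Finset.sum_congr rfl fun z hz => by rw [h z hz, AddChar.map_zero_eq_one],
      Finset.sum_const, card_V', nsmul_eq_mul, mul_one]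
    push_cast
    rfl
  · push Not at h
    obtain ⟨z, hz, hz0⟩ := h
    obtain ⟨a, ha⟩ := AddChar.ne_one_iff.1 hψ
    have hz' : C (a / B z) * z ∈ V K d := by
      rw [mem_V'] at hz ⊢
      refine lt_of_le_of_lt ?_ hz
      by_cases hc : a / B z = 0
      · rw [hc, C_0, zero_mul, degree_zero]
        exact bot_le
      · rw [degree_C_mul hc]
    have h1 := sum_shift d hz' fun z => ψ (B z)
    have h2 : ∀ x, ψ (B (x + C (a / B z) * z)) = ψ a * ψ (B x) := by
      intro x
      rw [map_add, ← smul_eq_C_mul, map_smul, smul_eq_mul, div_mul_cancel₀ a hz0,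
        AddChar.map_add_eq_mul, mul_comm]
    simp only [h2] at h1
    rw [← Finset.mul_sum] at h1
    have h3 : (ψ a - 1) * ∑ z ∈ V K d, ψ (B z) = 0 := by
      rw [sub_mul, one_mul, h1, sub_self]
    rcases mul_eq_zero.1 h3 with h4 | h4
    · exact absurd (sub_eq_zero.1 h4) ha
    · exact h4

/-- the number of the multiples of `P` -/
theorem card_mult (P : K[X]) (hP : P ≠ 0) (n : ℕ) (hn : P.natDegree ≤ n) :
    ((V K n).filter fun x => P ∣ x).card = Fintype.card K ^ (n - P.natDegree) := by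
  rw [← card_V' (K := K) (n - P.natDegree)]
  have h1 : (V K n).filter (fun x => P ∣ x) =
      (V K (n - P.natDegree)).image fun y => P * y := by
    ext x
    rw [Finset.mem_filter, Finset.mem_image, mem_V']
    have key : ∀ y : K[X], (P * y).degree < n ↔ y.degree < (n - P.natDegree : ℕ) := by
      intro y
      by_cases hy : y = 0
      · rw [hy, mul_zero, degree_zero]
        exact ⟨fun _ => WithBot.bot_lt_coe _, fun _ => WithBot.bot_lt_coe _⟩
      · rw [degree_eq_natDegree (mul_ne_zero hP hy), natDegree_mul hP hy,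
          degree_eq_natDegree hy, Nat.cast_lt, Nat.cast_lt]
        omega
    constructor
    · rintro ⟨h, y, rfl⟩
      exact ⟨y, (mem_V' _ _).2 ((key y).1 h), rfl⟩
    · rintro ⟨y, hy, rfl⟩
      exact ⟨(key y).2 ((mem_V' _ _).1 hy), dvd_mul_right P y⟩
  rw [h1, Finset.card_image_of_injective]
  intro y y' h
  exact mul_left_cancel₀ hP h

end Opt

open Opt in
theorem opt : S_opt := by
  intro K _ _ ψ Q hQ hψ P n A hPm hPi hn hA
  obtain ⟨p, j, hp, hchar, hj, hQp⟩ := hQ
  have : Fact p.Prime := ⟨hp⟩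
  have := hchar
  have hQ2 : 2 ≤ Q := by
    rw [hQp]
    calc 2 ≤ p := hp.two_le
      _ = p ^ 1 := (pow_one p).symm
      _ ≤ p ^ j := Nat.pow_le_pow_right hp.pos hj
  obtain ⟨d, hd⟩ : ∃ d, d = P.natDegree := ⟨_, rfl⟩
  rw [← hd] at hn ⊢
  obtain ⟨hA0, hA1, hA2⟩ := hA
  have hP0 : P ≠ 0 := hPm.ne_zero
  have hdeg : P.degree = (d : ℕ) := by rw [hd]; exact degree_eq_natDegree hP0
  -- multiples of `P ^ (Q + 1)`
  have hdvd : ∀ x, P ^ (Q + 1) ∣ x → A x = 0 := by
    rintro x ⟨y, rfl⟩
    exact hA1 y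
  -- translation
  have hz1 : ∀ z ∈ V K d, P ^ Q * z ∈ V K n := by
    intro z hz
    rw [mem_V'] at hz ⊢
    by_cases h0 : z = 0
    · rw [h0, mul_zero, degree_zero]
      exact WithBot.bot_lt_coe _
    · rw [degree_eq_natDegree h0, Nat.cast_lt] at hz
      rw [degree_eq_natDegree (mul_ne_zero (pow_ne_zero _ hP0) h0),
        natDegree_mul (pow_ne_zero _ hP0) h0, natDegree_pow, ← hd, Nat.cast_lt]
      have : (Q + 1) * d = Q * d + d := by ring
      omega
  have hexp : ∀ x z : K[X], A ((x + P ^ Q * z) ^ (Q + 1)) =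
      A (x ^ (Q + 1)) + A (P ^ Q * x ^ Q * z) := by
    intro x z
    have h1 : (x + P ^ Q * z) ^ (Q + 1) = x ^ (Q + 1) + P ^ Q * x ^ Q * z +
        (P ^ Q * z) ^ Q * (x + P ^ Q * z) := by
      have h2 : (x + P ^ Q * z) ^ Q = x ^ Q + (P ^ Q * z) ^ Q := by
        rw [hQp]
        exact add_pow_char_pow x (P ^ (p ^ j) * z) p j
      rw [pow_succ, h2]
      ring
    rw [h1, map_add, map_add]
    have h3 : A ((P ^ Q * z) ^ Q * (x + P ^ Q * z)) = 0 := by
      apply hdvd
      refine Dvd.dvd.mul_right ?_ _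
      rw [mul_pow, ← pow_mul]
      refine Dvd.dvd.mul_right ?_ _
      refine pow_dvd_pow P ?_
      nlinarith
    rw [h3, add_zero]
  -- the sum
  have hS : S ψ Q n A 0 = ∑ x ∈ V K n, ψ (A (x ^ (Q + 1))) := by
    unfold S
    refine Finset.sum_congr rfl fun x _ => ?_
    rw [AddMonoidHom.zero_apply, add_zero]
  have hshift : ∀ z ∈ V K d, S ψ Q n A 0 =
      ∑ x ∈ V K n, ψ (A (x ^ (Q + 1))) * ψ (A (P ^ Q * x ^ Q * z)) := by
    intro z hz
    rw [hS, ← sum_shift n (hz1 z hz) fun x => ψ (A (x ^ (Q + 1)))]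
    refine Finset.sum_congr rfl fun x _ => ?_
    rw [hexp, AddChar.map_add_eq_mul]
  have hinner : ∀ x : K[X], ∑ z ∈ V K d, ψ (A (P ^ Q * x ^ Q * z)) =
      if P ∣ x then (Fintype.card K : ℂ) ^ d else 0 := by
    intro x
    have h1 := sum_char ψ hψ d (A.comp (LinearMap.mulLeft K (P ^ Q * x ^ Q)))
    have h2 : (∀ z ∈ V K d, (A.comp (LinearMap.mulLeft K (P ^ Q * x ^ Q))) z = 0) ↔ P ∣ x := by
      constructor
      · intro h
        have h3 : ∀ z, A (P ^ Q * x ^ Q * z) = 0 := by
          intro z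
          have h4 : z = z %ₘ P + P * (z /ₘ P) := (modByMonic_add_div z P).symm
          have h5 : A (P ^ Q * x ^ Q * (z %ₘ P)) = 0 := by
            refine h (z %ₘ P) ?_
            rw [mem_V', ← hdeg]
            exact degree_modByMonic_lt z hPm
          have h6 : A (P ^ Q * x ^ Q * (P * (z /ₘ P))) = 0 := by
            apply hdvd
            exact ⟨x ^ Q * (z /ₘ P), by ring⟩
          rw [h4, mul_add, map_add, h5, h6, add_zero]
        have h4 := hA2 _ h3
        rw [pow_succ] at h4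
        have h5 : P ∣ x ^ Q := (mul_dvd_mul_iff_left (pow_ne_zero Q hP0)).1 h4
        exact hPi.prime.dvd_of_dvd_pow h5
      · intro h z _
        show A (P ^ Q * x ^ Q * z) = 0
        apply hdvd
        refine Dvd.dvd.mul_right ?_ _
        rw [pow_succ]
        exact mul_dvd_mul_left _ (h.trans (dvd_pow_self x (by omega)))
    rw [if_congr h2 rfl rfl] at h1
    exact h1
  have hq0 : (Fintype.card K : ℂ) ^ d ≠ 0 :=
    pow_ne_zero _ (Nat.cast_ne_zero.2 Fintype.card_ne_zero)
  have h1 : (Fintype.card K : ℂ) ^ d * S ψ Q n A 0 =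
      (Fintype.card K : ℂ) ^ d * (Fintype.card K : ℂ) ^ (n - d) := by
    have h2 : ∑ z ∈ V K d, S ψ Q n A 0 = (Fintype.card K : ℂ) ^ d * S ψ Q n A 0 := by
      rw [Finset.sum_const, card_V', nsmul_eq_mul]
      push_cast
      rfl
    rw [← h2, Finset.sum_congr rfl hshift, Finset.sum_comm]
    have h3 : ∀ x ∈ V K n, ∑ z ∈ V K d, ψ (A (x ^ (Q + 1))) * ψ (A (P ^ Q * x ^ Q * z)) =
        if P ∣ x then (Fintype.card K : ℂ) ^ d else 0 := by
      intro x _
      rw [← Finset.mul_sum, hinner]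
      by_cases h : P ∣ x
      · rw [if_pos h, hdvd (x ^ (Q + 1)) (pow_dvd_pow_of_dvd h _), AddChar.map_zero_eq_one,
          one_mul]
      · rw [if_neg h, mul_zero]
    rw [Finset.sum_congr rfl h3, ← Finset.sum_filter, Finset.sum_const, nsmul_eq_mul, hd,
      card_mult P hP0 n (by rw [← hd]; nlinarith)]
    push_cast
    ring
  exact mul_left_cancel₀ hq0 h1

end

end Pool.Agent.H527.WS
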