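import Pool.Agent.H527.WS.Stm

/-!
# WS-Rel: transfer of relations (helper179)
-/

set_option autoImplicit false

namespace Pool.Agent.H527.WS

open Polynomial
open scoped Classical

theorem rel_mem_V (K : Type) [Field K] [Fintype K] (n : ℕ) (x : K[X]) :
    x ∈ V K n ↔ x.degree < n := by
  constructor
  · intro hx
    obtain ⟨c, -, rfl⟩ := Finset.mem_image.1 hx
    exact degree_sum_fin_lt c
  · intro hx
    refine Finset.mem_image.2 ⟨fun i => x.coeff i, Finset.mem_univ _, ?_⟩
    ext k
    rw [finsetSum_coeff]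
    simp only [coeff_C_mul_X_pow]
    by_cases hk : k < n
    · rw [Finset.sum_eq_single (⟨k, hk⟩ : Fin n)]
      · simp
      · intro b _ hb
        rw [if_neg]
        intro h
        exact hb (Fin.ext h.symm)
      · intro h
        exact absurd (Finset.mem_univ _) h
    · rw [coeff_eq_zero_of_degree_lt (lt_of_lt_of_le hx (by exact_mod_cast not_lt.1 hk))]
      refine Finset.sum_eq_zero fun i _ => ?_
      rw [if_neg]
      intro h
      exact hk (h ▸ i.2)

theorem rel_mul_mem (K : Type) [Field K] [Fintype K] (n M : ℕ) (hM : M ≤ n) (c y : K[X])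
    (hc : c ∈ V K M) (hy : y ∈ V K (n - M)) : c * y ∈ V K n := by
  rw [rel_mem_V] at hc hy ⊢
  by_cases hc0 : c = 0
  · rw [hc0, zero_mul, degree_zero]
    exact WithBot.bot_lt_coe _
  by_cases hy0 : y = 0
  · rw [hy0, mul_zero, degree_zero]
    exact WithBot.bot_lt_coe _
  rw [degree_mul, degree_eq_natDegree hc0, degree_eq_natDegree hy0]
  rw [degree_eq_natDegree hc0] at hc
  rw [degree_eq_natDegree hy0] at hy
  have h1 : c.natDegree < M := by exact_mod_cast hc
  have h2 : y.natDegree < n - M := by exact_mod_cast hy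
  have h3 : c.natDegree + y.natDegree < n := by omega
  exact_mod_cast h3

theorem rel_sum {K ι : Type} [Field K] (ψ : AddChar K ℂ) (s : Finset ι) (f : ι → K)
    (h : ∀ i, ψ (f i) = 1) : ψ (∑ i ∈ s, f i) = 1 := by
  induction s using Finset.induction_on with
  | empty => rw [Finset.sum_empty, AddChar.map_zero_eq_one]
  | insert a s ha ih => rw [Finset.sum_insert ha, AddChar.map_add_eq_mul, h, ih, one_mul]

theorem rel : S_rel := by
  intro K _ _ ψ Q m n M A _ hψ hM s h c hh hc hrel y hy
  have key : ∀ y ∈ V K (n - M), ψ (A (y * ∑ i, c i * h i ^ Q)) = 1 := by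
    intro y hy
    have h1 : ∀ i, ψ (A ((c i * y) ^ Q * h i + (c i * y) * h i ^ Q)) = 1 := fun i =>
      (Finset.mem_filter.1 (hh i)).2 _ (rel_mul_mem K n M hM _ _ (hc i) hy)
    have h2 : y * ∑ i, c i * h i ^ Q =
        ∑ i, ((c i * y) ^ Q * h i + (c i * y) * h i ^ Q) := by
      rw [Finset.sum_add_distrib]
      have h3 : ∑ i, (c i * y) ^ Q * h i = y ^ Q * ∑ i, c i ^ Q * h i := by
        rw [Finset.mul_sum]
        exact Finset.sum_congr rfl fun i _ => by rw [mul_pow]; ring
      rw [h3, hrel, mul_zero, zero_add, Finset.mul_sum]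
      exact Finset.sum_congr rfl fun i _ => by ring
    rw [h2, map_sum]
    exact rel_sum ψ _ _ h1
  by_contra hne
  apply hψ
  ext k
  rw [AddChar.one_apply]
  have hmem : C (k / A (y * ∑ i, c i * h i ^ Q)) * y ∈ V K (n - M) := by
    rw [rel_mem_V] at hy ⊢
    rw [← smul_eq_C_mul]
    exact lt_of_le_of_lt (degree_smul_le _ _) hy
  have h4 := key _ hmem
  rw [mul_assoc, ← smul_eq_C_mul, map_smul, smul_eq_mul, div_mul_cancel₀ _ hne] at h4
  exact h4

end Pool.Agent.H527.WS
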