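import Pool.Agent.H527.WS.Stm

/-! # `W n t` against `W m t`, and `W m n` against `W m (n + M)` (helper965) -/

set_option autoImplicit false
set_option linter.unusedSectionVars false

namespace Pool.Agent.H527.WS

open Polynomial
open scoped Classical

noncomputable section

namespace ShrAux

variable {K : Type} [Field K] [Fintype K]

lemma mem_V' {n : ℕ} {G : K[X]} : G ∈ V K n ↔ ∀ i, n ≤ i → G.coeff i = 0 := by
  unfold V
  rw [Finset.mem_image]
  constructor
  · rintro ⟨c, -, rfl⟩ i hi
    rw [Polynomial.finsetSum_coeff]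
    refine Finset.sum_eq_zero fun j _ => ?_
    rw [Polynomial.coeff_C_mul_X_pow, if_neg]
    have := j.2
    omega
  · intro h
    refine ⟨fun i => G.coeff i, Finset.mem_univ _, ?_⟩
    ext i
    rw [Polynomial.finsetSum_coeff]
    by_cases hi : i < n
    · rw [Finset.sum_eq_single (⟨i, hi⟩ : Fin n)]
      · rw [Polynomial.coeff_C_mul_X_pow, if_pos rfl]
      · intro j _ hj
        rw [Polynomial.coeff_C_mul_X_pow, if_neg]
        intro hij
        exact hj (Fin.ext hij.symm)
      · intro h'
        exact absurd (Finset.mem_univ _) h'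
    · rw [h i (not_lt.mp hi)]
      refine Finset.sum_eq_zero fun j _ => ?_
      rw [Polynomial.coeff_C_mul_X_pow, if_neg]
      have := j.2
      omega

lemma frob_add {Q : ℕ} (hQ : PQ K Q) (x y : K[X]) : (x + y) ^ Q = x ^ Q + y ^ Q := by
  obtain ⟨p, j, hp, hc, -, rfl⟩ := hQ
  haveI : Fact p.Prime := ⟨hp⟩
  haveI : CharP K p := hc
  exact add_pow_char_pow x y p j

lemma frob_sub {Q : ℕ} (hQ : PQ K Q) (x y : K[X]) : (x - y) ^ Q = x ^ Q - y ^ Q := by
  obtain ⟨p, j, hp, hc, -, rfl⟩ := hQ
  haveI : Fact p.Prime := ⟨hp⟩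
  haveI : CharP K p := hc
  exact sub_pow_char_pow x y j

/-- the form, additive in the first variable -/
def bh {Q : ℕ} (hQ : PQ K Q) (A : K[X] →ₗ[K] K) (h : K[X]) : K[X] →+ K :=
  AddMonoidHom.mk' (fun x => A (x ^ Q * h + x * h ^ Q)) (by
    intro x y
    rw [← map_add, frob_add hQ]
    congr 1
    ring)

lemma bh_apply {Q : ℕ} (hQ : PQ K Q) (A : K[X] →ₗ[K] K) (h x : K[X]) :
    bh hQ A h x = A (x ^ Q * h + x * h ^ Q) := rfl

/-- the form is additive in the second variable -/
lemma bh_sub {Q : ℕ} (hQ : PQ K Q) (A : K[X] →ₗ[K] K) (h h' x : K[X]) :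
    A (x ^ Q * (h - h') + x * (h - h') ^ Q) =
      A (x ^ Q * h + x * h ^ Q) - A (x ^ Q * h' + x * h' ^ Q) := by
  rw [← map_sub, frob_sub hQ]
  congr 1
  ring

/-- counting in fibres -/
lemma fib {G T : Type} [AddCommGroup G] [Fintype T] (s w : Finset G) (φ : G → T)
    (h : ∀ x ∈ s, ∀ y ∈ s, φ x = φ y → x - y ∈ w) : s.card ≤ Fintype.card T * w.card := by
  have h1 := Finset.card_le_mul_card_image (f := φ) s w.card (by
    intro b hb
    obtain ⟨y, hy, hyb⟩ := Finset.mem_image.mp hb
    refine Finset.card_le_card_of_injOn (fun x => x - y) ?_ ?_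
    · intro x hx
      have hx' := Finset.mem_filter.mp hx
      exact h x hx'.1 y hy (hx'.2.trans hyb.symm)
    · intro x _ x' _ hxx
      exact sub_left_injective hxx)
  calc s.card ≤ w.card * (Finset.image φ s).card := h1
    _ ≤ w.card * Fintype.card T := Nat.mul_le_mul_left _ (Finset.card_le_univ _)
    _ = _ := mul_comm _ _

end ShrAux

open ShrAux

theorem shr : S_shr := by
  intro K _ _ ψ Q m n t A hQ hmn
  have h := fib (G := K[X]) (T := Fin (n - m) → K) (W ψ Q A n t) (W ψ Q A m t)
    (fun h i => h.coeff (m + i)) (by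
      intro x hx y hy hxy
      unfold W at hx hy ⊢
      rw [Finset.mem_filter] at hx hy ⊢
      refine ⟨?_, ?_⟩
      · rw [mem_V']
        intro i hi
        rw [Polynomial.coeff_sub]
        by_cases hin : i < n
        · have h1 := congrFun hxy (⟨i - m, by omega⟩ : Fin (n - m))
          have h2 : m + (i - m) = i := by omega
          simp only [h2] at h1
          rw [h1, sub_self]
        · rw [mem_V'.mp hx.1 i (not_lt.mp hin), mem_V'.mp hy.1 i (not_lt.mp hin), sub_self]
      · intro z hz
        rw [bh_sub hQ, AddChar.map_sub_eq_div, hx.2 z hz, hy.2 z hz, div_one])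
  rw [Fintype.card_fun, Fintype.card_fin] at h
  exact h

theorem ext' : S_ext := by
  intro K _ _ ψ Q m n M A hQ
  have h := fib (G := K[X]) (T := Fin M → AddChar K ℂ) (W ψ Q A m n) (W ψ Q A m (n + M))
    (fun h t => ψ.compAddMonoidHom
      ((bh hQ A h).comp (Polynomial.monomial (R := K) (n + (t : ℕ))).toAddMonoidHom)) (by
      intro x hx y hy hxy
      unfold W at hx hy ⊢
      rw [Finset.mem_filter] at hx hy ⊢
      refine ⟨?_, ?_⟩
      · rw [mem_V']
        intro i hi
        rw [Polynomial.coeff_sub, mem_V'.mp hx.1 i hi, mem_V'.mp hy.1 i hi, sub_self]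
      · have key : ∀ M' : ℕ, M' ≤ M → ∀ z ∈ V K (n + M'), ψ (bh hQ A x z) = ψ (bh hQ A y z) := by
          intro M'
          induction M' with
          | zero =>
            intro _ z hz
            rw [bh_apply, bh_apply, hx.2 z hz, hy.2 z hz]
          | succ M' ih =>
            intro hM z hz
            have h1 : z = (z - Polynomial.monomial (n + M') (z.coeff (n + M'))) +
                Polynomial.monomial (n + M') (z.coeff (n + M')) := by ring
            have h2 : z - Polynomial.monomial (n + M') (z.coeff (n + M')) ∈ V K (n + M') := by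
              rw [mem_V']
              intro i hi
              rw [Polynomial.coeff_sub, Polynomial.coeff_monomial]
              by_cases hi' : n + M' = i
              · rw [if_pos hi', hi', sub_self]
              · rw [if_neg hi', sub_zero]
                exact mem_V'.mp hz i (by omega)
            have h3 := ih (by omega) _ h2
            have h4 := congrFun hxy (⟨M', by omega⟩ : Fin M)
            have h5 := DFunLike.congr_fun h4 (z.coeff (n + M'))
            have h6 : ψ (bh hQ A x (Polynomial.monomial (n + M') (z.coeff (n + M')))) =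
                ψ (bh hQ A y (Polynomial.monomial (n + M') (z.coeff (n + M')))) := h5
            rw [h1, (bh hQ A x).map_add, (bh hQ A y).map_add, AddChar.map_add_eq_mul,
              AddChar.map_add_eq_mul, h3, h6]
        intro z hz
        have h7 := key M le_rfl z hz
        rw [bh_apply, bh_apply] at h7
        rw [bh_sub hQ, AddChar.map_sub_eq_div, h7]
        refine div_self ?_
        intro h0
        have h8 := AddChar.map_add_eq_mul ψ (A (z ^ Q * y + z * y ^ Q)) (-(A (z ^ Q * y + z * y ^ Q)))
        rw [add_neg_cancel, AddChar.map_zero_eq_one, h0, zero_mul] at h8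
        exact one_ne_zero h8)
  rw [Fintype.card_fun, Fintype.card_fin, AddChar.card_eq] at h
  exact h

end

end Pool.Agent.H527.WS
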