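import Pool.Agent.H527.WS.Stm

/-!
# WS-Sq: Weyl's step (helper729 for helper527)
-/

set_option autoImplicit false

namespace Pool.Agent.H527.WS

open Polynomial
open scoped Classical

noncomputable section

section sq

variable {K : Type} [Field K] [Fintype K]

theorem sq_mem {n : ℕ} {x : K[X]} : x ∈ V K n ↔ x.degree < n := by
  unfold V
  rw [Finset.mem_image]
  constructor
  · rintro ⟨c, -, rfl⟩
    exact degree_sum_fin_lt c
  · intro h
    refine ⟨fun i => x.coeff i, Finset.mem_univ _, ?_⟩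
    have h1 := Polynomial.sum_fin (fun (i : ℕ) (a : K) => C a * X ^ i) (fun i => by simp) h
    rw [sum_C_mul_X_pow_eq] at h1
    exact h1

theorem sq_add {n : ℕ} {x y : K[X]} (hx : x ∈ V K n) (hy : y ∈ V K n) : x + y ∈ V K n := by
  rw [sq_mem] at hx hy ⊢
  exact (degree_add_le x y).trans_lt (max_lt hx hy)

theorem sq_sub {n : ℕ} {x y : K[X]} (hx : x ∈ V K n) (hy : y ∈ V K n) : x - y ∈ V K n := by
  rw [sq_mem] at hx hy ⊢
  exact (degree_sub_le x y).trans_lt (max_lt hx hy)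

theorem sq_card (n : ℕ) : (V K n).card = Fintype.card K ^ n := by
  unfold V
  rw [Finset.card_image_of_injective, Finset.card_univ, Fintype.card_fun, Fintype.card_fin]
  intro c c' h
  funext i
  have h1 := congrArg (fun p : K[X] => p.coeff i) h
  simp only [finsetSum_coeff, coeff_C_mul_X_pow] at h1
  rw [Finset.sum_eq_single i, Finset.sum_eq_single i] at h1
  · simpa using h1
  · intro j _ hj
    rw [if_neg]
    intro h2
    exact hj (Fin.ext h2.symm)
  · intro h2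
    exact absurd (Finset.mem_univ i) h2
  · intro j _ hj
    rw [if_neg]
    intro h2
    exact hj (Fin.ext h2.symm)
  · intro h2
    exact absurd (Finset.mem_univ i) h2

/-- invariance under shifts -/
theorem sq_shift {n : ℕ} (g : K[X] → ℂ) {y : K[X]} (hy : y ∈ V K n) :
    ∑ x ∈ V K n, g x = ∑ h ∈ V K n, g (y + h) := by
  symm
  refine Finset.sum_bij (fun h _ => y + h) (fun h hh => sq_add hy hh) ?_ ?_ (fun h _ => rfl)
  · intro a _ b _ hab
    exact add_left_cancel hab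
  · intro x hx
    exact ⟨x - y, sq_sub hx hy, by ring⟩

theorem sq_frob {Q : ℕ} (hQ : PQ K Q) (x y : K[X]) : (x + y) ^ Q = x ^ Q + y ^ Q := by
  obtain ⟨p, j, hp, hc, -, rfl⟩ := hQ
  have := Fact.mk hp
  have : CharP K p := hc
  exact add_pow_char_pow x y p j

/-- the inner sum -/
theorem sq_inner (ψ : AddChar K ℂ) {Q : ℕ} (hQ : PQ K Q) (n : ℕ) (A : K[X] →ₗ[K] K) {h : K[X]} (hh : h ∈ V K n) :
    ‖∑ y ∈ V K n, ψ (A (y ^ Q * h + y * h ^ Q))‖ ≤ if h ∈ W ψ Q A n n then (Fintype.card K : ℝ) ^ n else 0 := by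
  by_cases hW : h ∈ W ψ Q A n n
  · rw [if_pos hW]
    unfold W at hW
    rw [Finset.mem_filter] at hW
    rw [Finset.sum_congr rfl (fun y hy => hW.2 y hy)]
    simp [sq_card]
  · rw [if_neg hW]
    unfold W at hW
    rw [Finset.mem_filter] at hW
    push Not at hW
    obtain ⟨y₀, hy₀, hne⟩ := hW hh
    have h1 := sq_shift (fun y => ψ (A (y ^ Q * h + y * h ^ Q))) hy₀
    have h2 : ∑ y ∈ V K n, ψ (A ((y₀ + y) ^ Q * h + (y₀ + y) * h ^ Q)) =
        ψ (A (y₀ ^ Q * h + y₀ * h ^ Q)) * ∑ y ∈ V K n, ψ (A (y ^ Q * h + y * h ^ Q)) := by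
      rw [Finset.mul_sum]
      refine Finset.sum_congr rfl fun y _ => ?_
      rw [← AddChar.map_add_eq_mul, ← map_add, sq_frob hQ]
      congr 2
      ring
    rw [h2] at h1
    have h3 : (1 - ψ (A (y₀ ^ Q * h + y₀ * h ^ Q))) * ∑ y ∈ V K n, ψ (A (y ^ Q * h + y * h ^ Q)) = 0 := by
      linear_combination h1
    rcases mul_eq_zero.1 h3 with h4 | h4
    · exact absurd (sub_eq_zero.1 h4).symm hne
    · rw [h4, norm_zero]

end sq

/-- **Weyl's step.** -/
theorem sq : S_sq := by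
  intro K _ _ ψ Q n A ξ hQ
  obtain ⟨f, hf⟩ : ∃ f : K[X] → K, ∀ x, f x = A (x ^ (Q + 1)) + ξ x := ⟨_, fun x => rfl⟩
  have hS : S ψ Q n A ξ = ∑ x ∈ V K n, ψ (f x) := by
    unfold S
    exact Finset.sum_congr rfl fun x _ => by rw [hf]
  have hadd : ∀ y h : K[X], f (y + h) - f y = f h + A (y ^ Q * h + y * h ^ Q) := by
    intro y h
    have e1 : (y + h) ^ (Q + 1) = y ^ (Q + 1) + (h ^ (Q + 1) + (y ^ Q * h + y * h ^ Q)) := by
      rw [pow_succ, sq_frob hQ]
      ring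
    rw [hf, hf, hf, e1, map_add A, map_add A, map_add ξ]
    ring
  have e : S ψ Q n A ξ * (starRingEnd ℂ) (S ψ Q n A ξ) =
      ∑ h ∈ V K n, ψ (f h) * ∑ y ∈ V K n, ψ (A (y ^ Q * h + y * h ^ Q)) := by
    rw [hS, map_sum, Finset.mul_sum]
    have h1 : ∀ y ∈ V K n, (∑ x ∈ V K n, ψ (f x)) * (starRingEnd ℂ) (ψ (f y)) =
        ∑ h ∈ V K n, ψ (f h) * ψ (A (y ^ Q * h + y * h ^ Q)) := by
      intro y hy
      rw [sq_shift (fun x => ψ (f x)) hy, Finset.sum_mul]
      refine Finset.sum_congr rfl fun h _ => ?_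
      rw [← AddChar.map_neg_eq_conj, ← AddChar.map_add_eq_mul, ← AddChar.map_add_eq_mul, ← sub_eq_add_neg, hadd]
    rw [Finset.sum_congr rfl h1, Finset.sum_comm]
    refine Finset.sum_congr rfl fun h _ => ?_
    rw [Finset.mul_sum]
  have e2 : ‖S ψ Q n A ξ‖ ^ 2 = ‖S ψ Q n A ξ * (starRingEnd ℂ) (S ψ Q n A ξ)‖ := by
    rw [norm_mul, RCLike.norm_conj, pow_two]
  rw [e2, e]
  have e3 : ‖∑ h ∈ V K n, ψ (f h) * ∑ y ∈ V K n, ψ (A (y ^ Q * h + y * h ^ Q))‖ ≤
      ∑ h ∈ V K n, (if h ∈ W ψ Q A n n then (Fintype.card K : ℝ) ^ n else 0) := by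
    refine (norm_sum_le _ _).trans (Finset.sum_le_sum fun h hh => ?_)
    rw [norm_mul, AddChar.norm_apply, one_mul]
    exact sq_inner ψ hQ n A hh
  refine e3.trans (le_of_eq ?_)
  rw [← Finset.sum_filter, Finset.sum_const, nsmul_eq_mul, mul_comm]
  congr 2
  have e4 : (V K n).filter (fun h => h ∈ W ψ Q A n n) = W ψ Q A n n := by
    ext h
    rw [Finset.mem_filter]
    constructor
    · exact fun h1 => h1.2
    · intro h1
      refine ⟨?_, h1⟩
      unfold W at h1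
      exact (Finset.mem_filter.1 h1).1
  rw [e4]

end

end Pool.Agent.H527.WS
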