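import Pool.Agent.H527.WS.Stm

/-!
# Weyl sums over `F_q[T]`: reduction of the modulus by `P ^ (Q + 1)` (helper571 for helper527)
-/

set_option autoImplicit false
set_option linter.unusedSectionVars false

namespace Pool.Agent.H527.WS

open Polynomial
open scoped Classical

noncomputable section

namespace StpL

variable {K : Type} [Field K] [Fintype K]

/-- the polynomial with given coefficients -/
def ph (n : ℕ) (c : Fin n → K) : K[X] := ∑ i : Fin n, C (c i) * X ^ (i : ℕ)

theorem coeff_ph (n : ℕ) (c : Fin n → K) (k : ℕ) :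
    (ph n c).coeff k = if h : k < n then c ⟨k, h⟩ else 0 := by
  unfold ph
  rw [finsetSum_coeff]
  simp only [coeff_C_mul_X_pow]
  split_ifs with h
  · rw [Finset.sum_eq_single ⟨k, h⟩]
    · simp
    · intro b _ hb
      rw [if_neg]
      intro hk
      exact hb (Fin.ext hk.symm)
    · intro h'
      exact absurd (Finset.mem_univ _) h'
  · refine Finset.sum_eq_zero fun i _ => if_neg ?_
    intro hk
    exact h (hk ▸ i.2)

theorem ph_add (n : ℕ) (c c' : Fin n → K) : ph n (c + c') = ph n c + ph n c' := by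
  ext k
  rw [coeff_add, coeff_ph, coeff_ph, coeff_ph]
  split_ifs
  · rfl
  · rw [add_zero]

theorem ph_zero (n : ℕ) : ph n (0 : Fin n → K) = 0 := by
  ext k
  rw [coeff_ph, coeff_zero]
  split_ifs
  · rfl
  · rfl

theorem ph_coeff (n : ℕ) (f : K[X]) (h : f.degree < (n : WithBot ℕ)) :
    ph n (fun i => f.coeff i) = f := by
  rw [degree_lt_iff_coeff_zero] at h
  ext m
  rw [coeff_ph]
  split_ifs with hm
  · rfl
  · exact (h m (by omega)).symm

theorem ph_deg (n : ℕ) (c : Fin n → K) : (ph n c).degree < (n : WithBot ℕ) := by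
  rw [degree_lt_iff_coeff_zero]
  intro m hm
  rw [coeff_ph, dif_neg (by omega)]

theorem mem_V' (n : ℕ) (f : K[X]) : f ∈ V K n ↔ f.degree < (n : WithBot ℕ) := by
  constructor
  · intro h
    obtain ⟨c, -, rfl⟩ := Finset.mem_image.1 h
    exact ph_deg n c
  · intro h
    exact Finset.mem_image.2 ⟨fun i => f.coeff i, Finset.mem_univ _, ph_coeff n f h⟩

theorem addpow {Q : ℕ} (h : PQ K Q) (x y : K[X]) : (x + y) ^ Q = x ^ Q + y ^ Q := by
  obtain ⟨p, j, hp, hc, hj, rfl⟩ := h
  have : Fact p.Prime := ⟨hp⟩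
  exact add_pow_char_pow x y p j

theorem two_le {Q : ℕ} (h : PQ K Q) : 2 ≤ Q := by
  obtain ⟨p, j, hp, hc, hj, rfl⟩ := h
  exact hp.two_le.trans (Nat.le_self_pow (by omega) p)

theorem psi0 {ψ : AddChar K ℂ} (hψ : ψ ≠ 1) (c : K) (h : ∀ l : K, ψ (l * c) = 1) : c = 0 := by
  by_contra hc
  refine hψ ?_
  ext x
  have h1 := h (x / c)
  rw [div_mul_cancel₀ _ hc] at h1
  rw [h1]
  rfl

theorem lin0 {ψ : AddChar K ℂ} (hψ : ψ ≠ 1) (A : K[X] →ₗ[K] K) (G : K[X])
    (h : ∀ z : K[X], ψ (A (G * z)) = 1) (z : K[X]) : A (G * z) = 0 := by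
  refine psi0 hψ _ fun l => ?_
  have h1 := h (l • z)
  rw [mul_smul_comm, map_smul, smul_eq_mul] at h1
  exact h1

/-- duality -/
theorem dual {G H : Type} [AddCommGroup G] [Fintype G] [AddCommGroup H] [Fintype H]
    (χ : G → H → ℂ) (h1 : ∀ x x' w, χ (x + x') w = χ x w * χ x' w)
    (h2 : ∀ x w w', χ x (w + w') = χ x w * χ x w') (h3 : ∀ w, χ 0 w = 1) (h4 : ∀ x, χ x 0 = 1)
    (h0 : ∀ x, (∀ w, χ x w = 1) → x = 0) :
    Fintype.card G * (Finset.univ.filter (fun w => ∀ x, χ x w = 1)).card = Fintype.card H := by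
  let a : G → AddChar H ℂ := fun x => ⟨χ x, h4 x, h2 x⟩
  let b : H → AddChar G ℂ := fun w => ⟨fun x => χ x w, h3 w, fun x x' => h1 x x' w⟩
  have e1 : ∑ x, ∑ w, χ x w = (Fintype.card H : ℂ) := by
    have h5 : ∀ x, ∑ w, χ x w = if x = 0 then (Fintype.card H : ℂ) else 0 := by
      intro x
      have h6 := AddChar.sum_eq_ite (a x)
      have h7 : (a x = 0) ↔ x = 0 := by
        constructor
        · intro h
          exact h0 x fun w => by
            have := congrArg (fun f : AddChar H ℂ => f w) h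
            exact this
        · rintro rfl
          ext w
          exact h3 w
      change ∑ w, (a x) w = _
      rw [h6]
      by_cases hx : x = 0
      · rw [if_pos (h7.2 hx), if_pos hx]
      · rw [if_neg (fun h => hx (h7.1 h)), if_neg hx]
    rw [Finset.sum_congr rfl fun x _ => h5 x, Finset.sum_ite_eq' Finset.univ (0 : G),
      if_pos (Finset.mem_univ _)]
  have e2 : ∑ w, ∑ x, χ x w = ((Fintype.card G *
      (Finset.univ.filter (fun w => ∀ x, χ x w = 1)).card : ℕ) : ℂ) := by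
    have h5 : ∀ w, ∑ x, χ x w = if (∀ x, χ x w = 1) then (Fintype.card G : ℂ) else 0 := by
      intro w
      have h6 := AddChar.sum_eq_ite (b w)
      have h7 : (b w = 0) ↔ ∀ x, χ x w = 1 := by
        constructor
        · intro h x
          have := congrArg (fun f : AddChar G ℂ => f x) h
          exact this
        · intro h
          ext x
          exact h x
      change ∑ x, (b w) x = _
      rw [h6]
      by_cases hx : ∀ x, χ x w = 1
      · rw [if_pos (h7.2 hx), if_pos hx]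
      · rw [if_neg (fun h => hx (h7.1 h)), if_neg hx]
    rw [Finset.sum_congr rfl fun x _ => h5 x, ← Finset.sum_filter, Finset.sum_const, nsmul_eq_mul]
    push_cast
    ring
  rw [Finset.sum_comm, e2] at e1
  exact_mod_cast e1

theorem deg_mul_lt (a b : ℕ) (f g : K[X]) (hf : f.natDegree ≤ a)
    (hg : g.degree < (b : WithBot ℕ)) : (f * g).degree < ((a + b : ℕ) : WithBot ℕ) := by
  by_cases hg0 : g = 0
  · rw [hg0, mul_zero, degree_zero]
    exact WithBot.bot_lt_coe _
  by_cases hf0 : f = 0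
  · rw [hf0, zero_mul, degree_zero]
    exact WithBot.bot_lt_coe _
  rw [degree_eq_natDegree (mul_ne_zero hf0 hg0), natDegree_mul hf0 hg0]
  have h1 : g.natDegree < b := (natDegree_lt_iff_degree_lt hg0).2 hg
  exact_mod_cast Nat.add_lt_add_of_le_of_lt hf h1

/-- the form -/
def bb (Q : ℕ) (x h : K[X]) : K[X] := x ^ Q * h + x * h ^ Q

theorem bb_add_left {Q : ℕ} (hQ : PQ K Q) (x x' h : K[X]) :
    bb Q (x + x') h = bb Q x h + bb Q x' h := by
  unfold bb
  rw [addpow hQ]
  ring

theorem bb_add_right {Q : ℕ} (hQ : PQ K Q) (x h h' : K[X]) :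
    bb Q x (h + h') = bb Q x h + bb Q x h' := by
  unfold bb
  rw [addpow hQ]
  ring

theorem bb_zero_left {Q : ℕ} (hQ : PQ K Q) (h : K[X]) : bb Q 0 h = 0 := by
  have := two_le hQ
  unfold bb
  rw [zero_pow (by omega), zero_mul, zero_mul, add_zero]

theorem bb_zero_right {Q : ℕ} (hQ : PQ K Q) (x : K[X]) : bb Q x 0 = 0 := by
  have := two_le hQ
  unfold bb
  rw [zero_pow (by omega), mul_zero, mul_zero, add_zero]

theorem zero_of_Mod {A : K[X] →ₗ[K] K} {g : K[X]} (hA : Mod A g) {y : K[X]} (h : g ∣ y) :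
    A y = 0 := by
  obtain ⟨z, rfl⟩ := h
  exact hA.2.1 z

theorem N_card {ψ : AddChar K ℂ} (hψ : ψ ≠ 1) {Q : ℕ} (hQ : PQ K Q) (P : K[X]) (e : ℕ)
    (A : K[X] →ₗ[K] K) (hP : P.Monic) (hI : Irreducible P) (he : Q + 1 ≤ e)
    (hA : Mod A (P ^ e)) :
    (Finset.univ.filter (fun w : Fin (P.natDegree * Q) → K => ∀ x : Fin P.natDegree → K,
      ψ (A (bb Q (ph _ x) (P ^ (e - Q) * ph _ w))) = 1)).card =
        Fintype.card K ^ (P.natDegree * (Q - 1)) := by
  have hQ2 := two_le hQ
  have key := dual (G := Fin P.natDegree → K) (H := Fin (P.natDegree * Q) → K)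
    (fun x w => ψ (A (bb Q (ph _ x) (P ^ (e - Q) * ph _ w)))) ?_ ?_ ?_ ?_ ?_
  · have h1 : Fintype.card (Fin P.natDegree → K) = Fintype.card K ^ P.natDegree := by
      rw [Fintype.card_fun, Fintype.card_fin]
    have h2 : Fintype.card (Fin (P.natDegree * Q) → K) =
        Fintype.card K ^ P.natDegree * Fintype.card K ^ (P.natDegree * (Q - 1)) := by
      rw [Fintype.card_fun, Fintype.card_fin, ← pow_add]
      congr 1
      obtain ⟨k, rfl⟩ : ∃ k, Q = k + 1 := ⟨Q - 1, by omega⟩
      rw [Nat.add_sub_cancel]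
      ring
    rw [h1, h2] at key
    exact Nat.eq_of_mul_eq_mul_left (pow_pos Fintype.card_pos _) key
  · intro x x' w
    rw [ph_add, bb_add_left hQ, map_add, ψ.map_add_eq_mul]
  · intro x w w'
    rw [ph_add, mul_add, bb_add_right hQ, map_add, ψ.map_add_eq_mul]
  · intro w
    rw [ph_zero, bb_zero_left hQ, map_zero, ψ.map_zero_eq_one]
  · intro x
    rw [ph_zero, mul_zero, bb_zero_right hQ, map_zero, ψ.map_zero_eq_one]
  · intro x hx
    set x0 : K[X] := ph P.natDegree x with hx0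
    have h1 : ∀ z : K[X], ψ (A ((x0 ^ Q * P ^ (e - Q + 1)) * z)) = 1 := by
      intro z
      set z' := z %ₘ (P ^ (Q - 1)) with hz'
      have hz : z' + P ^ (Q - 1) * (z /ₘ (P ^ (Q - 1))) = z := modByMonic_add_div z _
      have hd : z'.degree < ((P.natDegree * (Q - 1) : ℕ) : WithBot ℕ) := by
        have h2 := degree_modByMonic_lt z (hP.pow (Q - 1))
        rw [degree_eq_natDegree (hP.pow (Q - 1)).ne_zero, hP.natDegree_pow] at h2
        rw [mul_comm]
        exact h2
      have hd2 : (P * z').degree < ((P.natDegree * Q : ℕ) : WithBot ℕ) := by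
        have h2 := deg_mul_lt P.natDegree (P.natDegree * (Q - 1)) P z' le_rfl hd
        have h3 : P.natDegree + P.natDegree * (Q - 1) = P.natDegree * Q := by
          obtain ⟨k, rfl⟩ : ∃ k, Q = k + 1 := ⟨Q - 1, by omega⟩
          rw [Nat.add_sub_cancel]
          ring
        rw [h3] at h2
        exact h2
      have h4 := hx (fun i => (P * z').coeff i)
      simp only [ph_coeff _ _ hd2] at h4
      have h5 : A (bb Q x0 (P ^ (e - Q) * (P * z'))) = A ((x0 ^ Q * P ^ (e - Q + 1)) * z) := by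
        have h6 : (x0 ^ Q * P ^ (e - Q + 1)) * z = bb Q x0 (P ^ (e - Q) * (P * z')) +
            P ^ e * (x0 ^ Q * (z /ₘ (P ^ (Q - 1)))) -
            P ^ e * (x0 * P ^ ((e - Q + 1) * Q - e) * z' ^ Q) := by
          have h7 : P ^ e = P ^ (e - Q + 1) * P ^ (Q - 1) := by
            rw [← pow_add]
            congr 1
            omega
          have h8 : (P ^ (e - Q) * (P * z')) ^ Q = P ^ e * P ^ ((e - Q + 1) * Q - e) * z' ^ Q := by
            have h9 : e ≤ (e - Q + 1) * Q := by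
              obtain ⟨f, rfl⟩ : ∃ f, e = Q + 1 + f := ⟨e - (Q + 1), by omega⟩
              have h10 : Q + 1 + f - Q + 1 = f + 2 := by omega
              rw [h10]
              nlinarith
            rw [← pow_add, Nat.add_sub_cancel' h9, ← mul_assoc, ← pow_succ, mul_pow, ← pow_mul]
          unfold bb
          rw [h8]
          conv_lhs => rw [← hz]
          rw [mul_add, ← mul_assoc (P ^ (e - Q)) P z', ← pow_succ]
          have h11 : (x0 ^ Q * P ^ (e - Q + 1)) * (P ^ (Q - 1) * (z /ₘ (P ^ (Q - 1)))) =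
              P ^ e * (x0 ^ Q * (z /ₘ (P ^ (Q - 1)))) := by
            rw [h7]
            ring
          rw [h11]
          ring
        rw [h6, map_sub, map_add, hA.2.1, hA.2.1, add_zero, sub_zero]
      rw [← h5]
      exact h4
    have h2 := hA.2.2 _ (lin0 hψ A _ h1)
    have h3 : P ^ e = P ^ (e - Q + 1) * P ^ (Q - 1) := by
      rw [← pow_add]
      congr 1
      omega
    rw [h3, mul_comm (x0 ^ Q)] at h2
    have h4 : P ^ (Q - 1) ∣ x0 ^ Q :=
      (mul_dvd_mul_iff_left (pow_ne_zero _ hP.ne_zero)).1 h2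
    have h5 : P ∣ x0 := hI.prime.dvd_of_dvd_pow
      ((dvd_pow_self P (by omega : Q - 1 ≠ 0)).trans h4)
    have h6 : x0 = 0 := by
      refine eq_zero_of_dvd_of_degree_lt h5 ?_
      rw [degree_eq_natDegree hP.ne_zero]
      exact ph_deg _ _
    funext i
    have h7 := congrArg (fun f : K[X] => f.coeff i) h6
    simp only [hx0, coeff_ph, coeff_zero] at h7
    rw [dif_pos i.2] at h7
    exact h7

theorem mem_WG {ψ : AddChar K ℂ} {Q : ℕ} {A : K[X] →ₗ[K] K} {g h : K[X]} :
    h ∈ WG ψ Q A g ↔ h.degree < (g.natDegree : WithBot ℕ) ∧ ∀ x, ψ (A (bb Q x h)) = 1 := by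
  unfold WG
  rw [Finset.mem_filter, mem_V']
  rfl

theorem dvd_of_WG {ψ : AddChar K ℂ} (hψ : ψ ≠ 1) {Q : ℕ} (hQ : PQ K Q) (P : K[X]) (e : ℕ)
    (A : K[X] →ₗ[K] K) (hP : P.Monic) (hI : Irreducible P) (he : Q + 1 ≤ e)
    (hA : Mod A (P ^ e)) (h : K[X]) (hh : h ∈ WG ψ Q A (P ^ e)) : P ∣ h := by
  have hQ2 := two_le hQ
  have h1 : ∀ z : K[X], ψ (A ((P ^ (e - 1) * h ^ Q) * z)) = 1 := by
    intro z
    have h2 := (mem_WG.1 hh).2 (P ^ (e - 1) * z)
    have h3 : bb Q (P ^ (e - 1) * z) h = P ^ e * (P ^ ((e - 1) * Q - e) * z ^ Q * h) +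
        (P ^ (e - 1) * h ^ Q) * z := by
      unfold bb
      have h4 : e ≤ (e - 1) * Q := by
        obtain ⟨f, rfl⟩ : ∃ f, e = Q + 1 + f := ⟨e - (Q + 1), by omega⟩
        have h10 : Q + 1 + f - 1 = Q + f := by omega
        rw [h10]
        nlinarith
      have h5 : P ^ e * P ^ ((e - 1) * Q - e) = (P ^ (e - 1)) ^ Q := by
        rw [← pow_add, Nat.add_sub_cancel' h4, pow_mul]
      rw [mul_pow, ← h5]
      ring
    rw [h3, map_add, hA.2.1, zero_add] at h2
    exact h2
  have h2 := hA.2.2 _ (lin0 hψ A _ h1)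
  have h3 : P ^ e = P ^ (e - 1) * P := by
    rw [← pow_succ]
    congr 1
    omega
  rw [h3] at h2
  exact hI.prime.dvd_of_dvd_pow ((mul_dvd_mul_iff_left (pow_ne_zero _ hP.ne_zero)).1 h2)

end StpL

open StpL in
theorem stp : S_stp := by
  intro K _ _ ψ Q hQ hψ P e A hP hI he hA
  have hQ2 := two_le hQ
  have hB : ∀ y, (A.comp (LinearMap.mulLeft K (P ^ (Q + 1)))) y = A (P ^ (Q + 1) * y) :=
    fun y => rfl
  have hpe : P ^ e = P ^ (Q + 1) * P ^ (e - (Q + 1)) := by
    rw [← pow_add]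
    congr 1
    omega
  refine ⟨A.comp (LinearMap.mulLeft K (P ^ (Q + 1))), ⟨pow_ne_zero _ hP.ne_zero, ?_, ?_⟩, ?_⟩
  · intro y
    rw [hB, ← mul_assoc, ← hpe]
    exact hA.2.1 y
  · intro y hy
    have h1 := hA.2.2 (P ^ (Q + 1) * y) (fun z => by
      have := hy z
      rw [hB, ← mul_assoc] at this
      exact this)
    rw [hpe] at h1
    exact (mul_dvd_mul_iff_left (pow_ne_zero _ hP.ne_zero)).1 h1
  set g : K[X] := P ^ (e - (Q + 1)) with hg
  set B := A.comp (LinearMap.mulLeft K (P ^ (Q + 1))) with hBdef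
  have hgm : g.Monic := hP.pow _
  -- the reduction
  have hmaps : ∀ h ∈ WG ψ Q A (P ^ e), (h /ₘ P) %ₘ g ∈ WG ψ Q B g := by
    intro h hh
    obtain ⟨z, rfl⟩ := dvd_of_WG hψ hQ P e A hP hI he hA h hh
    rw [mul_divByMonic_cancel_left z hP, mem_WG]
    refine ⟨?_, fun y => ?_⟩
    · rw [← degree_eq_natDegree hgm.ne_zero]
      exact degree_modByMonic_lt z hgm
    · have h1 := (mem_WG.1 hh).2 (P * y)
      have h2 : bb Q (P * y) (P * z) = P ^ (Q + 1) * bb Q y z := by
        unfold bb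
        rw [mul_pow, mul_pow, pow_succ]
        ring
      rw [h2, ← hB] at h1
      have h3 : B (bb Q y z) = B (bb Q y (z %ₘ g)) := by
        have h4 : z = z %ₘ g + g * (z /ₘ g) := (modByMonic_add_div z g).symm
        conv_lhs => rw [h4]
        rw [bb_add_right hQ, map_add]
        have h5 : B (bb Q y (g * (z /ₘ g))) = 0 := by
          rw [hB]
          refine zero_of_Mod hA ?_
          rw [hpe]
          refine mul_dvd_mul_left _ ?_
          unfold bb
          refine dvd_add ?_ ?_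
          · exact Dvd.dvd.mul_left (dvd_mul_right _ _) _
          · rw [mul_pow]
            exact Dvd.dvd.mul_left (Dvd.dvd.mul_right (dvd_pow_self g (by omega)) _) _
        rw [h5, add_zero]
      rw [← h3]
      exact h1
  refine Finset.card_le_mul_card_image_of_maps_to hmaps _ fun b _ => ?_
  rcases Finset.eq_empty_or_nonempty ((WG ψ Q A (P ^ e)).filter fun h => (h /ₘ P) %ₘ g = b) with
    h0 | ⟨h0, hh0⟩
  · rw [h0, Finset.card_empty]
    exact Nat.zero_le _
  rw [← N_card hψ hQ P e A hP hI he hA]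
  obtain ⟨hh1, hh2⟩ := Finset.mem_filter.1 hh0
  -- structure of differences
  have hstr : ∀ h ∈ (WG ψ Q A (P ^ e)).filter (fun h => (h /ₘ P) %ₘ g = b),
      h - h0 = P ^ (e - Q) * ph (P.natDegree * Q) (fun i => ((h - h0) /ₘ P ^ (e - Q)).coeff i) := by
    intro h hh
    obtain ⟨h3, h4⟩ := Finset.mem_filter.1 hh
    have hdvd : P ^ (e - Q) ∣ h - h0 := by
      obtain ⟨u, rfl⟩ := dvd_of_WG hψ hQ P e A hP hI he hA h h3
      obtain ⟨v, rfl⟩ := dvd_of_WG hψ hQ P e A hP hI he hA h0 hh1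
      rw [mul_divByMonic_cancel_left _ hP] at h4 hh2
      have h5 : u = u %ₘ g + g * (u /ₘ g) := (modByMonic_add_div u g).symm
      have h6 : v = v %ₘ g + g * (v /ₘ g) := (modByMonic_add_div v g).symm
      have h7 : P ^ (e - Q) = P * g := by
        rw [hg, ← pow_succ']
        congr 1
        omega
      rw [h7]
      refine ⟨u /ₘ g - v /ₘ g, ?_⟩
      have h8 : u - v = g * (u /ₘ g - v /ₘ g) := by
        conv_lhs => rw [h5, h6, h4, hh2]
        ring
      rw [← mul_sub, h8]
      ring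
    obtain ⟨w, hw⟩ := hdvd
    rw [hw, mul_divByMonic_cancel_left _ (hP.pow _), ph_coeff]
    by_cases hw0 : w = 0
    · rw [hw0, degree_zero]
      exact WithBot.bot_lt_coe _
    have h5 : (h - h0).degree < ((P ^ e).natDegree : WithBot ℕ) :=
      lt_of_le_of_lt (degree_sub_le _ _) (max_lt (mem_WG.1 h3).1 (mem_WG.1 hh1).1)
    rw [hw, hP.natDegree_pow, degree_eq_natDegree (mul_ne_zero (pow_ne_zero _ hP.ne_zero) hw0),
      natDegree_mul (pow_ne_zero _ hP.ne_zero) hw0, hP.natDegree_pow] at h5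
    have h6 : (e - Q) * P.natDegree + w.natDegree < e * P.natDegree := by exact_mod_cast h5
    rw [degree_eq_natDegree hw0]
    have h7 : w.natDegree < P.natDegree * Q := by
      obtain ⟨f, rfl⟩ : ∃ f, e = Q + f := ⟨e - Q, by omega⟩
      rw [Nat.add_sub_cancel_left] at h6
      nlinarith
    exact_mod_cast h7
  refine Finset.card_le_card_of_injOn
    (fun h => fun i : Fin (P.natDegree * Q) => ((h - h0) /ₘ P ^ (e - Q)).coeff i) ?_ ?_
  · intro h hh
    have h1 := hstr h hh
    obtain ⟨h3, h4⟩ := Finset.mem_filter.1 hh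
    refine Finset.mem_coe.2 (Finset.mem_filter.2 ⟨Finset.mem_univ _, fun x => ?_⟩)
    rw [← h1]
    have h5 : bb Q (ph P.natDegree x) h = bb Q (ph P.natDegree x) (h - h0) +
        bb Q (ph P.natDegree x) h0 := by
      rw [← bb_add_right hQ, sub_add_cancel]
    have h6 := (mem_WG.1 h3).2 (ph P.natDegree x)
    rw [h5, map_add, ψ.map_add_eq_mul, (mem_WG.1 hh1).2 (ph P.natDegree x), mul_one] at h6
    exact h6
  · intro h hh h' hh' heq
    have h1 := hstr h hh
    have h2 := hstr h' hh'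
    have h3 : (fun i : Fin (P.natDegree * Q) => ((h - h0) /ₘ P ^ (e - Q)).coeff i) =
      (fun i : Fin (P.natDegree * Q) => ((h' - h0) /ₘ P ^ (e - Q)).coeff i) := heq
    rw [h3, ← h2] at h1
    exact sub_left_injective h1

end

end Pool.Agent.H527.WS
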