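import Pool.Agent.H527.WS.Stm

/-!
# WS-Two: the second bound
-/

set_option autoImplicit false

namespace Pool.Agent.H527.WS

open Polynomial
open scoped Classical

theorem two_mem_V {K : Type} [Field K] [Fintype K] {n : ℕ} {x : K[X]} :
    x ∈ V K n ↔ x.degree < n := by
  constructor
  · intro h
    obtain ⟨c, -, rfl⟩ := Finset.mem_image.1 h
    exact degree_sum_fin_lt c
  · intro h
    refine Finset.mem_image.2 ⟨fun i => x.coeff i, Finset.mem_univ _, ?_⟩
    refine Polynomial.ext fun m => ?_
    rw [finsetSum_coeff]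
    simp only [coeff_C_mul, coeff_X_pow]
    by_cases hm : m < n
    · rw [Finset.sum_eq_single (⟨m, hm⟩ : Fin n)]
      · simp
      · intro i _ hi
        have h1 : m ≠ (i : ℕ) := by
          intro h2
          exact hi (Fin.ext h2.symm)
        simp [h1]
      · intro h1
        exact absurd (Finset.mem_univ _) h1
    · have h0 : x.coeff m = 0 := by
        refine coeff_eq_zero_of_degree_lt (lt_of_lt_of_le h ?_)
        exact_mod_cast not_lt.1 hm
      rw [h0]
      refine Finset.sum_eq_zero fun i _ => ?_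
      have h1 : m ≠ (i : ℕ) := by
        intro h2
        exact hm (h2 ▸ i.2)
      simp [h1]

theorem two_sub {K : Type} [Field K] [Fintype K] (ψ : AddChar K ℂ) {Q : ℕ} (hQ : 1 ≤ Q)
    {g : K[X]} {A B : K[X] →ₗ[K] K} (hB : Mod B g)
    (hAB : ∀ G ∈ V K ((Q + 1) * g.natDegree - 1), A G = B G) {n : ℕ} (hn : g.natDegree ≤ n) :
    W ψ Q A g.natDegree n ⊆ WG ψ Q B g := by
  obtain ⟨hg, hB1, -⟩ := hB
  intro h hh
  obtain ⟨h1, h2⟩ := Finset.mem_filter.1 hh
  refine Finset.mem_filter.2 ⟨h1, fun x => ?_⟩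
  rw [two_mem_V] at h1
  have hx : (x % g).degree < (g.natDegree : ℕ) := by
    have h3 : (x % g).degree < g.degree := EuclideanDomain.mod_lt x hg
    rwa [degree_eq_natDegree hg] at h3
  have hxV : x % g ∈ V K n := two_mem_V.2 (lt_of_lt_of_le hx (by exact_mod_cast hn))
  have h3 := h2 _ hxV
  -- `A = B` at the element
  have h4 : (x % g) ^ Q * h + (x % g) * h ^ Q ∈ V K ((Q + 1) * g.natDegree - 1) := by
    rw [two_mem_V]
    rcases Nat.eq_zero_or_pos g.natDegree with h0 | h0
    · rw [h0] at hx h1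
      have e1 : x % g = 0 := by
        by_contra hne
        have := zero_le_degree_iff.2 hne
        exact absurd (lt_of_le_of_lt this hx) (by simp)
      have e2 : h = 0 := by
        by_contra hne
        have := zero_le_degree_iff.2 hne
        exact absurd (lt_of_le_of_lt this h1) (by simp)
      rw [e1, e2, mul_zero, zero_mul, add_zero, degree_zero]
      exact WithBot.bot_lt_coe _
    · have hnd : ∀ y : K[X], y.degree < (g.natDegree : ℕ) → y.natDegree ≤ g.natDegree - 1 := by
        intro y hy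
        by_cases hy0 : y = 0
        · rw [hy0, natDegree_zero]
          exact Nat.zero_le _
        · have := (natDegree_lt_iff_degree_lt hy0).2 hy
          omega
      have e1 := hnd _ hx
      have e2 := hnd _ h1
      have e3 : ∀ a b : K[X], a.natDegree ≤ g.natDegree - 1 → b.natDegree ≤ g.natDegree - 1 →
          (a ^ Q * b).natDegree ≤ (Q + 1) * (g.natDegree - 1) := by
        intro a b ha hb
        refine natDegree_mul_le.trans ?_
        have h5 := natDegree_pow_le (p := a) (n := Q)
        have h6 : Q * a.natDegree ≤ Q * (g.natDegree - 1) := Nat.mul_le_mul_left Q ha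
        calc (a ^ Q).natDegree + b.natDegree ≤ Q * (g.natDegree - 1) + (g.natDegree - 1) :=
              Nat.add_le_add (h5.trans h6) hb
          _ = (Q + 1) * (g.natDegree - 1) := by ring
      have e4 : ((x % g) ^ Q * h + (x % g) * h ^ Q).natDegree ≤ (Q + 1) * (g.natDegree - 1) := by
        refine (natDegree_add_le _ _).trans (max_le (e3 _ _ e1 e2) ?_)
        rw [mul_comm (x % g)]
        exact e3 _ _ e2 e1
      refine lt_of_le_of_lt degree_le_natDegree ?_
      have e5 : (Q + 1) * (g.natDegree - 1) < (Q + 1) * g.natDegree - 1 := by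
        obtain ⟨d, hd⟩ : ∃ d, g.natDegree = d + 1 := ⟨g.natDegree - 1, by omega⟩
        rw [hd]
        have e6 : (Q + 1) * (d + 1 - 1) = (Q + 1) * d := by rw [Nat.add_sub_cancel]
        have e7 : (Q + 1) * (d + 1) = (Q + 1) * d + (Q + 1) := by ring
        rw [e6, e7]
        omega
      exact_mod_cast lt_of_le_of_lt e4 e5
  rw [hAB _ h4] at h3
  -- the difference is divisible by `g`
  have h5 : ∃ y, x ^ Q * h + x * h ^ Q = ((x % g) ^ Q * h + (x % g) * h ^ Q) + g * y := by
    have h6 : x = x % g + g * (x / g) := (EuclideanDomain.mod_add_div x g).symm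
    have h7 : g ∣ x - x % g := ⟨x / g, by
      have := EuclideanDomain.mod_add_div x g
      linear_combination -this⟩
    have h8 : g ∣ x ^ Q - (x % g) ^ Q := h7.trans (sub_dvd_pow_sub_pow _ _ Q)
    obtain ⟨a, ha⟩ := h7
    obtain ⟨b, hb⟩ := h8
    refine ⟨b * h + a * h ^ Q, ?_⟩
    linear_combination h * hb + h ^ Q * ha
  obtain ⟨y, hy⟩ := h5
  rw [hy, map_add, hB1, add_zero]
  exact h3

theorem two (h1 : S_shr) (h2 : S_glo) : S_two := by
  intro K _ _ ψ Q hPQ hψ ε hε
  obtain ⟨C, hC, hglo⟩ := h2 K ψ Q hPQ hψ ε hε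
  have hQ : 1 ≤ Q := by
    obtain ⟨p, j, hp, -, -, rfl⟩ := hPQ
    exact Nat.one_le_pow _ _ hp.pos
  refine ⟨C, hC, ?_⟩
  intro n g A B hn hB hAB
  have hq : (0 : ℝ) < (Fintype.card K : ℝ) := by
    have : 0 < Fintype.card K := Fintype.card_pos
    exact_mod_cast this
  have e1 := h1 K ψ Q g.natDegree n n A hPQ hn
  have e2 : (W ψ Q A g.natDegree n).card ≤ (WG ψ Q B g).card :=
    Finset.card_le_card (two_sub ψ hQ hB hAB hn)
  have e3 := hglo g B hB
  have e4 : ((W ψ Q A n n).card : ℝ) ≤
      (Fintype.card K : ℝ) ^ (n - g.natDegree) * ((WG ψ Q B g).card : ℝ) := by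
    have e5 : (W ψ Q A n n).card ≤ Fintype.card K ^ (n - g.natDegree) * (WG ψ Q B g).card :=
      e1.trans (Nat.mul_le_mul_left _ e2)
    exact_mod_cast e5
  refine e4.trans ?_
  have e6 : (Fintype.card K : ℝ) ^ (n - g.natDegree) * ((WG ψ Q B g).card : ℝ) ≤
      (Fintype.card K : ℝ) ^ (n - g.natDegree) *
        (C * (Fintype.card K : ℝ) ^ ((g.natDegree : ℝ) * (1 - 2 / (Q + 1) + ε))) :=
    mul_le_mul_of_nonneg_left e3 (by positivity)
  refine e6.trans (le_of_eq ?_)
  rw [← Real.rpow_natCast (Fintype.card K : ℝ) (n - g.natDegree), mul_left_comm,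
    ← Real.rpow_add hq]
  congr 2
  rw [Nat.cast_sub hn]
  ring

end Pool.Agent.H527.WS
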