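import Pool.Agent.H527.WS.Sml
import Pool.Agent.H527.WS.Loc
import Pool.Agent.H527.WS.Sq
import Pool.Agent.H527.WS.One
import Pool.Agent.H527.WS.Exa
import Pool.Agent.H527.WS.Rel
import Pool.Agent.H527.WS.Dir
import Pool.Agent.H527.WS.Two
import Pool.Agent.H527.WS.Lau
import Pool.Agent.H527.WS.Shr
import Pool.Agent.H527.WS.Glo
import Pool.Agent.H527.WS.Opt
import Pool.Agent.H527.WS.Crt
import Pool.Agent.H527.WS.Bas
import Pool.Agent.H527.WS.Stp
import Pool.Agent.H527.WS.Ind

/-! # All parts of the project WS -/

set_option autoImplicit false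

namespace Pool.Agent.H527.WS

theorem q_one : S_one := one shr ext' (sml (ind rel))

theorem q_glo : S_glo := glo (loc stp bas) crt

theorem q_two : S_two := two shr q_glo

end Pool.Agent.H527.WS
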