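import Pool.Agent.H527.WS.Stm

/-! # Basic lemmas for the project WS -/

set_option autoImplicit false
set_option linter.unusedSectionVars false

namespace Pool.Agent.H527.WS

open Polynomial
open scoped Classical

section V

variable {K : Type} [Field K] [Fintype K]

lemma mem_V {n : ℕ} {p : K[X]} : p ∈ V K n ↔ p.degree < n := by
  unfold V
  rw [Finset.mem_image]
  constructor
  · rintro ⟨c, -, rfl⟩
    refine lt_of_le_of_lt (degree_sum_le _ _) ?_
    rw [Finset.sup_lt_iff (by exact WithBot.bot_lt_coe n)]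
    intro i _
    refine lt_of_le_of_lt (degree_C_mul_X_pow_le _ _) ?_
    exact_mod_cast i.2
  · intro h
    refine ⟨fun i => p.coeff i, Finset.mem_univ _, ?_⟩
    ext k
    rw [finsetSum_coeff]
    simp only [coeff_C_mul, coeff_X_pow, mul_ite, mul_one, mul_zero]
    by_cases hk : k < n
    · rw [Finset.sum_eq_single (⟨k, hk⟩ : Fin n)]
      · simp
      · intro b _ hb
        rw [if_neg]
        intro h1
        exact hb (Fin.ext h1.symm)
      · simp
    · rw [Finset.sum_eq_zero]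
      · rw [coeff_eq_zero_of_degree_lt]
        refine lt_of_lt_of_le h ?_
        exact_mod_cast not_lt.mp hk
      · intro b _
        rw [if_neg]
        intro h1
        exact hk (h1 ▸ b.2)

lemma card_V (n : ℕ) : (V K n).card = Fintype.card K ^ n := by
  unfold V
  rw [Finset.card_image_of_injective]
  · simp
  · intro c d h
    funext i
    have h1 := congrArg (fun p : K[X] => p.coeff i) h
    simp only [finsetSum_coeff, coeff_C_mul, coeff_X_pow, mul_ite, mul_one, mul_zero] at h1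
    rw [Finset.sum_eq_single i, Finset.sum_eq_single i] at h1
    · simpa using h1
    · intro b _ hb
      rw [if_neg]
      intro h2
      exact hb (Fin.ext h2.symm)
    · simp
    · intro b _ hb
      rw [if_neg]
      intro h2
      exact hb (Fin.ext h2.symm)
    · simp

lemma zero_mem_V (n : ℕ) : (0 : K[X]) ∈ V K n := by
  rw [mem_V, degree_zero]; exact WithBot.bot_lt_coe n

lemma add_mem_V {n : ℕ} {p r : K[X]} (hp : p ∈ V K n) (hr : r ∈ V K n) : p + r ∈ V K n := by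
  rw [mem_V] at *
  exact lt_of_le_of_lt (degree_add_le _ _) (max_lt hp hr)

lemma sub_mem_V {n : ℕ} {p r : K[X]} (hp : p ∈ V K n) (hr : r ∈ V K n) : p - r ∈ V K n := by
  rw [mem_V] at *
  exact lt_of_le_of_lt (degree_sub_le _ _) (max_lt hp hr)

lemma neg_mem_V {n : ℕ} {p : K[X]} (hp : p ∈ V K n) : -p ∈ V K n := by
  rw [mem_V, degree_neg, ← mem_V]; exact hp

lemma C_mul_mem_V {n : ℕ} {p : K[X]} (c : K) (hp : p ∈ V K n) : C c * p ∈ V K n := by
  rw [mem_V] at *
  refine lt_of_le_of_lt ?_ hp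
  rw [← smul_eq_C_mul]
  exact degree_smul_le c p

lemma V_mono {m n : ℕ} (h : m ≤ n) {p : K[X]} (hp : p ∈ V K m) : p ∈ V K n := by
  rw [mem_V] at *
  exact lt_of_lt_of_le hp (by exact_mod_cast h)

lemma X_pow_mem_V {t n : ℕ} (h : t < n) : (X : K[X]) ^ t ∈ V K n := by
  rw [mem_V, degree_X_pow]; exact_mod_cast h

/-- A product of elements of `V M` and `V N` is in `V (M + N - 1)`; in particular in `V n` if `M + N ≤ n + 1`. -/
lemma mul_mem_V {M N n : ℕ} {p r : K[X]} (h : M + N ≤ n + 1) (hp : p ∈ V K M) (hr : r ∈ V K N) :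
    p * r ∈ V K n := by
  by_cases hp0 : p = 0
  · rw [hp0, zero_mul]; exact zero_mem_V n
  by_cases hr0 : r = 0
  · rw [hr0, mul_zero]; exact zero_mem_V n
  rw [mem_V, ← natDegree_lt_iff_degree_lt hp0] at hp
  rw [mem_V, ← natDegree_lt_iff_degree_lt hr0] at hr
  rw [mem_V, ← natDegree_lt_iff_degree_lt (mul_ne_zero hp0 hr0), natDegree_mul hp0 hr0]
  omega

/-- `p ^ Q` for `p` of degree `< m`. -/
lemma pow_mem_V {m n Q : ℕ} {p : K[X]} (hQ : 1 ≤ Q) (h : Q * m ≤ n + (Q - 1)) (hp : p ∈ V K m) : p ^ Q ∈ V K n := by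
  by_cases hp0 : p = 0
  · rw [hp0, zero_pow (by omega)]; exact zero_mem_V n
  rw [mem_V, ← natDegree_lt_iff_degree_lt (pow_ne_zero _ hp0), natDegree_pow]
  rw [mem_V, ← natDegree_lt_iff_degree_lt hp0] at hp
  have : Q * p.natDegree + Q ≤ Q * m := by
    calc Q * p.natDegree + Q = Q * (p.natDegree + 1) := by ring
      _ ≤ Q * m := Nat.mul_le_mul_left _ hp
  omega

lemma mod_mem_V {g : K[X]} (hg : g ≠ 0) (y : K[X]) : y % g ∈ V K g.natDegree := by
  rw [mem_V, ← degree_eq_natDegree hg]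
  exact degree_mod_lt y hg

lemma sum_mem_V {n : ℕ} {ι : Type} (s : Finset ι) (f : ι → K[X]) (h : ∀ i ∈ s, f i ∈ V K n) :
    ∑ i ∈ s, f i ∈ V K n := by
  induction s using Finset.induction_on with
  | empty => rw [Finset.sum_empty]; exact zero_mem_V n
  | insert a s ha ih =>
    rw [Finset.sum_insert ha]
    exact add_mem_V (h a (Finset.mem_insert_self _ _)) (ih fun i hi => h i (Finset.mem_insert_of_mem hi))

/-- A sum over `V K n` is invariant under translation by an element of `V K n`. -/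
lemma sum_V_add {A : Type} [AddCommMonoid A] {n : ℕ} {w : K[X]} (hw : w ∈ V K n) (F : K[X] → A) :
    ∑ x ∈ V K n, F (x + w) = ∑ x ∈ V K n, F x := by
  refine Finset.sum_bij (fun x _ => x + w) (fun x hx => add_mem_V hx hw)
    (fun x _ y _ h => add_right_cancel h) (fun y hy => ⟨y - w, sub_mem_V hy hw, by ring⟩)
    (fun x _ => rfl)

end V

section PQ

lemma PQ.two_le {K : Type} [Field K] {Q : ℕ} (h : PQ K Q) : 2 ≤ Q := by
  obtain ⟨p, j, hp, _, hj, rfl⟩ := h
  calc 2 ≤ p := hp.two_le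
    _ = p ^ 1 := (pow_one p).symm
    _ ≤ p ^ j := Nat.pow_le_pow_right hp.pos hj

/-- `(x + y) ^ Q = x ^ Q + y ^ Q` in every commutative ring of the characteristic of `K`. -/
lemma PQ.add_pow {K : Type} [Field K] {Q : ℕ} (h : PQ K Q) (x y : K[X]) : (x + y) ^ Q = x ^ Q + y ^ Q := by
  obtain ⟨p, j, hp, hc, _, rfl⟩ := h
  have := Fact.mk hp
  have := hc
  exact add_pow_char_pow x y p j

lemma PQ.sub_pow {K : Type} [Field K] {Q : ℕ} (h : PQ K Q) (x y : K[X]) : (x - y) ^ Q = x ^ Q - y ^ Q := by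
  obtain ⟨p, j, hp, hc, _, rfl⟩ := h
  have := Fact.mk hp
  have := hc
  exact sub_pow_char_pow x y j

lemma PQ.sum_pow {K : Type} [Field K] {Q : ℕ} (h : PQ K Q) {ι : Type} (s : Finset ι) (f : ι → K[X]) :
    (∑ i ∈ s, f i) ^ Q = ∑ i ∈ s, f i ^ Q := by
  obtain ⟨p, j, hp, hc, _, rfl⟩ := h
  have := Fact.mk hp
  have := hc
  exact sum_pow_char_pow p j s f

lemma PQ.add_powK {K : Type} [Field K] {Q : ℕ} (h : PQ K Q) (x y : K) : (x + y) ^ Q = x ^ Q + y ^ Q := by
  obtain ⟨p, j, hp, hc, _, rfl⟩ := h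
  have := Fact.mk hp
  have := hc
  exact add_pow_char_pow x y p j

/-- Every element of a finite field of this characteristic is a `Q`-th power. -/
lemma PQ.surj {K : Type} [Field K] [Finite K] {Q : ℕ} (h : PQ K Q) (x : K) : ∃ y : K, y ^ Q = x := by
  obtain ⟨p, j, hp, hc, _, rfl⟩ := h
  have := Fact.mk hp
  have := hc
  have h1 : Function.Injective (fun y : K => y ^ p ^ j) := by
    have := iterateFrobenius_inj K p j
    intro a b hab
    apply this
    rw [iterateFrobenius_def, iterateFrobenius_def]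
    exact hab
  exact (Finite.injective_iff_surjective.mp h1) x

/-- The same in a finite field extension `F` of `K` (or any finite field of the same characteristic). -/
lemma PQ.trans {K F : Type} [Field K] [Field F] [Algebra K F] {Q : ℕ} (h : PQ K Q) : PQ F Q := by
  obtain ⟨p, j, hp, hc, hj, rfl⟩ := h
  have := hc
  exact ⟨p, j, hp, charP_of_injective_algebraMap (algebraMap K F).injective p, hj, rfl⟩

end PQ

section bform

variable {K : Type} [Field K] [Fintype K]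

/-- The bilinear expression. -/
noncomputable def b (A : K[X] →ₗ[K] K) (Q : ℕ) (x h : K[X]) : K := A (x ^ Q * h + x * h ^ Q)

lemma b_add_left {Q : ℕ} (hQ : PQ K Q) (A : K[X] →ₗ[K] K) (x y h : K[X]) :
    b A Q (x + y) h = b A Q x h + b A Q y h := by
  unfold b
  rw [← map_add, hQ.add_pow]
  congr 1
  ring

lemma b_add_right {Q : ℕ} (hQ : PQ K Q) (A : K[X] →ₗ[K] K) (x h k : K[X]) :
    b A Q x (h + k) = b A Q x h + b A Q x k := by
  unfold b
  rw [← map_add, hQ.add_pow]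
  congr 1
  ring

lemma b_comm (A : K[X] →ₗ[K] K) (Q : ℕ) (x h : K[X]) : b A Q x h = b A Q h x := by
  unfold b
  congr 1
  ring

lemma mem_W {ψ : AddChar K ℂ} {Q m n : ℕ} {A : K[X] →ₗ[K] K} {h : K[X]} :
    h ∈ W ψ Q A m n ↔ h ∈ V K m ∧ ∀ x ∈ V K n, ψ (b A Q x h) = 1 := by
  unfold W b
  rw [Finset.mem_filter]

lemma mem_WG {ψ : AddChar K ℂ} {Q : ℕ} {A : K[X] →ₗ[K] K} {g h : K[X]} :
    h ∈ WG ψ Q A g ↔ h ∈ V K g.natDegree ∧ ∀ x : K[X], ψ (b A Q x h) = 1 := by
  unfold WG b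
  rw [Finset.mem_filter]

lemma zero_mem_W {ψ : AddChar K ℂ} {Q m n : ℕ} (hQ : PQ K Q) (A : K[X] →ₗ[K] K) : (0 : K[X]) ∈ W ψ Q A m n := by
  rw [mem_W]
  refine ⟨zero_mem_V m, fun x _ => ?_⟩
  have : (0 : K[X]) ^ Q = 0 := zero_pow (by have := hQ.two_le; omega)
  unfold b
  rw [this]
  simp

lemma sub_mem_W {ψ : AddChar K ℂ} {Q m n : ℕ} (hQ : PQ K Q) {A : K[X] →ₗ[K] K} {h k : K[X]}
    (hh : h ∈ W ψ Q A m n) (hk : k ∈ W ψ Q A m n) : h - k ∈ W ψ Q A m n := by
  rw [mem_W] at *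
  refine ⟨sub_mem_V hh.1 hk.1, fun x hx => ?_⟩
  have h1 := hh.2 x hx
  have h2 := hk.2 x hx
  have h3 := b_add_right hQ A x (h - k) k
  rw [sub_add_cancel] at h3
  rw [h3, AddChar.map_add_eq_mul, h2, mul_one] at h1
  exact h1

/-- Orthogonality: the sum of `ψ ∘ φ` over `V K n` for an additive `φ`. -/
lemma sum_char (ψ : AddChar K ℂ) (n : ℕ) (φ : K[X] → K) (hφ : ∀ x y, φ (x + y) = φ x + φ y) :
    ∑ x ∈ V K n, ψ (φ x) = if ∀ x ∈ V K n, ψ (φ x) = 1 then ((Fintype.card K : ℂ)) ^ n else 0 := by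
  split_ifs with h
  · rw [Finset.sum_congr rfl h, Finset.sum_const, card_V]
    simp
  · push Not at h
    obtain ⟨w, hw, hne⟩ := h
    have h1 := sum_V_add hw (fun x => ψ (φ x))
    simp only [hφ, AddChar.map_add_eq_mul] at h1
    rw [← Finset.sum_mul] at h1
    have h2 : (∑ x ∈ V K n, ψ (φ x)) * (ψ (φ w) - 1) = 0 := by
      rw [mul_sub, h1, mul_one, sub_self]
    exact (mul_eq_zero.mp h2).resolve_right (sub_ne_zero.mpr hne)

/-- If `ψ(λ a) = 1` for all `λ` and `ψ` is nontrivial then `a = 0`. -/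
lemma eq_zero_of_psi {ψ : AddChar K ℂ} (hψ : ψ ≠ 1) {a : K} (h : ∀ c : K, ψ (c * a) = 1) : a = 0 := by
  by_contra ha
  apply hψ
  ext x
  have := h (x * a⁻¹)
  rw [mul_assoc, inv_mul_cancel₀ ha, mul_one] at this
  rw [this]
  rfl

/-- If `ψ(λ ^ Q a) = 1` for all `λ` and `ψ` is nontrivial then `a = 0`. -/
lemma eq_zero_of_psi_pow {ψ : AddChar K ℂ} {Q : ℕ} (hQ : PQ K Q) (hψ : ψ ≠ 1) {a : K}
    (h : ∀ c : K, ψ (c ^ Q * a) = 1) : a = 0 := by
  refine eq_zero_of_psi hψ fun c => ?_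
  obtain ⟨d, rfl⟩ := hQ.surj c
  exact h d

/-- `A (C c * y) = c * A y`. -/
lemma map_C_mul (A : K[X] →ₗ[K] K) (c : K) (y : K[X]) : A (C c * y) = c * A y := by
  rw [← smul_eq_C_mul, map_smul, smul_eq_mul]

lemma Mod.eq_zero_of_dvd {A : K[X] →ₗ[K] K} {g y : K[X]} (h : Mod A g) (hy : g ∣ y) : A y = 0 := by
  obtain ⟨z, rfl⟩ := hy
  exact h.2.1 z

/-- If `ψ(A(y z)) = 1` for all `z` then `g ∣ y`. -/
lemma Mod.dvd_of_psi {A : K[X] →ₗ[K] K} {g y : K[X]} {ψ : AddChar K ℂ} (h : Mod A g) (hψ : ψ ≠ 1)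
    (hy : ∀ z, ψ (A (y * z)) = 1) : g ∣ y := by
  refine h.2.2 y fun z => eq_zero_of_psi hψ fun c => ?_
  rw [← map_C_mul, mul_left_comm]
  exact hy _

end bform

end Pool.Agent.H527.WS
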