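import Pool.Agent.H527.WS.Stm

/-!
# Task W6 (helper86, for helper527): the bound of `W m n`
-/

set_option autoImplicit false

namespace Pool.Agent.H527.WS

open Polynomial
open scoped Classical

theorem sml (h : S_ind) : S_sml := by
  intro K _ _ ψ Q m n D l A hQ hψ hN h1 h2
  obtain ⟨b, hb1, hb2, hb3⟩ := exists_linearIndependent K ((W ψ Q A m n : Finset K[X]) : Set K[X])
  have hbf : b.Finite := (W ψ Q A m n).finite_toSet.subset hb1
  have : Fintype b := hbf.fintype
  have h3 := h K ψ Q m n D l A hQ hψ hN h1 h2 (Fintype.card b)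
    (fun i => (((Fintype.equivFin b).symm i : b) : K[X]))
    (fun i => Finset.mem_coe.1 (hb1 ((Fintype.equivFin b).symm i).2))
    (hb3.comp _ (Fintype.equivFin b).symm.injective)
  have hQ0 : 0 < Q ^ l := by
    obtain ⟨p, j, hp, -, -, rfl⟩ := hQ
    exact pow_pos (pow_pos hp.pos _) _
  have h4 : Fintype.card b ≤ (m + Q ^ (2 * l + 1)) / Q ^ l :=
    (Nat.le_div_iff_mul_le hQ0).2 (by rw [mul_comm]; exact h3)
  have h5 : (W ψ Q A m n).card ≤ Fintype.card K ^ Fintype.card b := by
    have h6 : W ψ Q A m n ⊆ Finset.univ.image (fun c : b → K => ∑ i, c i • (i : K[X])) := by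
      intro w hw
      have h7 : w ∈ Submodule.span K (Set.range (fun i : b => (i : K[X]))) := by
        rw [Subtype.range_coe, hb2]
        exact Submodule.subset_span hw
      obtain ⟨c, hc⟩ := (Submodule.mem_span_range_iff_exists_fun K).1 h7
      exact Finset.mem_image.2 ⟨c, Finset.mem_univ _, hc⟩
    refine (Finset.card_le_card h6).trans (Finset.card_image_le.trans ?_)
    rw [Finset.card_univ, Fintype.card_fun]
  exact h5.trans (Nat.pow_le_pow_right Fintype.card_pos h4)

end Pool.Agent.H527.WS
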